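import Pool.Agent.V8H36.CV.Nl
import Pool.Agent.H423R2.RGL.K.H463R2_RG_FIN
import Pool.Agent.H423R2.RGL.CC1
import Pool.Agent.H423R2.RGL.CGF
import Pool.Agent.H423R2.RGL.FGF

set_option autoImplicit false
set_option linter.all false
set_option maxHeartbeats 4000000

/-!
Central values, part 9: from the families to the characters.
-/

namespace Pool.Agent.V8H36.CV

open Finset Filter Topology MeasureTheory ProbabilityTheory
open Pool.Agent.H306R2.RZ Pool.Agent.H306R2.RG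
open Pool.Agent.R318.QL
open Pool.Agent.R318.QL.CL
open Pool.Agent.H463R2.RGFIN (Qr Rr ch ch_spec mem_FS FS Qr_unique inj_gen mem_le r_bd)
open Pool.Agent.H306R2.RG.LnkC (RPC POS)

noncomputable section

/-- the real primitive characters `χ ≠ 1` with `χ(-1) = s` and conductor at most `X` -/
def chars (s : ℤ) (X : ℕ) : Set (Σ N : ℕ, DirichletCharacter ℂ N) :=
  {p | p.1 ≠ 0 ∧ p.1 ≤ X ∧ p.2.IsPrimitive ∧ p.2 ^ 2 = 1 ∧ p.2 ≠ 1 ∧ p.2 (-1) = ((s : ℤ) : ℂ)}

/-- the absolute value of the central value `L(1/2,χ)` -/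
def cv (p : Σ N : ℕ, DirichletCharacter ℂ N) : ℝ :=
  if h : p.1 = 0 then 0 else
    haveI : NeZero p.1 := ⟨h⟩
    ‖DirichletCharacter.LFunction p.2 (1 / 2)‖

/-- `∑ χ(q)/√q` over the odd primes `q ≤ X^{1/log log X}` -/
def sp (X : ℕ) (p : Σ N : ℕ, DirichletCharacter ℂ N) : ℝ :=
  ∑ q ∈ (Finset.range (⌊(X : ℝ) ^ (1 / Real.log (Real.log X))⌋₊ + 1)).filter (fun q => q.Prime ∧ q ≠ 2),
    (p.2 (q : ZMod p.1)).re / Real.sqrt q

theorem hCGF : ∀ φ, Fam φ → CG φ := LnkC.CGF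

/-- the sign of a family -/
def sg (φ : FD) : ℤ := if φ.a = 0 then 1 else -1

open Classical in
/-- the families of a given sign -/
def FSs (s : ℤ) : Finset FD := FS.filter (fun φ => sg φ = s)

theorem ch_neg (φ : FD) (hφ : Fam φ) {d : ℕ} (hd : d ∈ SFg φ) :
    (ch φ d).2 (-1) = ((sg φ : ℤ) : ℂ) := by
  have h := ch_spec hCGF hφ hd
  obtain ⟨h0, χ, -, -, -, h4, h5⟩ := LnkC.CC1 φ hφ d hd.1 hd.2
  have hQ : Qr φ d ⟨φ.r * d, χ⟩ := ⟨rfl, h4⟩
  have he := Qr_unique h.1.1 h.2.1 hQ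
  rw [he, h5]
  unfold sg
  split_ifs <;> simp

theorem ch_cv (φ : FD) (hφ : Fam φ) {d : ℕ} (hd : d ∈ SFg φ) : cv (ch φ d) = |LLg φ d (1 / 2)| := by
  obtain ⟨h1, h2, h3, h4⟩ := ch_spec hCGF hφ hd
  unfold cv
  rw [dif_neg h1.1]
  have h5 := h4 (1 / 2) (by norm_num)
  have h6 : (((1 / 2 : ℝ)) : ℂ) = 1 / 2 := by push_cast; ring
  rw [h6] at h5
  have h7 : h3 = ⟨h1.1⟩ := Subsingleton.elim _ _
  rw [h7] at h5
  rw [h5, Complex.norm_real, Real.norm_eq_abs]

theorem ch_sp (φ : FD) (hφ : Fam φ) {d : ℕ} (hd : d ∈ SFg φ) {X : ℕ} (hX : 0 < X) :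
    sp X (ch φ d) = SS φ (Real.log X) d := by
  obtain ⟨h1, h2, h3, h4⟩ := ch_spec hCGF hφ hd
  have hX0 : (0 : ℝ) < X := by exact_mod_cast hX
  unfold sp SS ZS zL
  have e1 : (X : ℝ) ^ (1 / Real.log (Real.log X)) = Real.exp (Real.log X / Real.log (Real.log X)) := by
    rw [Real.rpow_def_of_pos hX0]
    congr 1
    ring
  rw [e1]
  refine Finset.sum_congr rfl fun q hq => ?_
  rw [Finset.mem_filter] at hq
  have hq0 : q ≠ 0 := hq.2.1.ne_zero
  have hodd : Odd q := hq.2.1.odd_of_ne_two hq.2.2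
  rw [h2.2 q hq0, Complex.ofReal_re]
  congr 1
  have h5 := Pool.Agent.H987R2.RGCLS.cf_eq φ d 0 q hodd
  rw [pow_zero, one_mul, pow_zero, one_mul] at h5
  rw [h5]
  unfold jo js
  rw [if_pos hodd]

open Classical in
/-- counting characters through the families -/
theorem count_eq (s : ℤ) (X : ℕ) (P : (Σ N : ℕ, DirichletCharacter ℂ N) → Prop) :
    (chars s X ∩ {p | P p}).Finite ∧ (chars s X ∩ {p | P p}).ncard =
      ∑ φ ∈ FSs s, ((AX φ (X / φ.r)).filter (fun d => P (ch φ d))).card := by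
  have heq : chars s X ∩ {p | P p} = (((FSs s).biUnion fun φ =>
      ((AX φ (X / φ.r)).filter (fun d => P (ch φ d))).image (ch φ) : Finset _) : Set _) := by
    ext p
    simp only [Finset.coe_biUnion, Finset.coe_image, Set.mem_iUnion]
    constructor
    · rintro ⟨⟨p1, p2, p3, p4, p5, p6⟩, hp⟩
      obtain ⟨φ, d, hφ, hA, hs, hN, hval⟩ := LnkC.CLS p.1 p1 p.2 p3 p4 p5
      have hd : d ∈ SFg φ := ⟨hA, hs⟩
      have hQ : Qr φ d p := ⟨hN, hval⟩
      have hch := ch_spec hCGF hφ hd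
      have he : p = ch φ d := Qr_unique p1 hQ hch.2.1
      have hsg : sg φ = s := by
        have h1 := ch_neg φ hφ hd
        rw [← he, p6] at h1
        exact_mod_cast h1.symm
      refine ⟨φ, ?_, d, ?_, he.symm⟩
      · show φ ∈ FSs s
        unfold FSs
        rw [Finset.mem_filter]
        exact ⟨(mem_FS φ).2 hφ, hsg⟩
      · rw [Finset.mem_coe, Finset.mem_filter, mem_AX]
        refine ⟨⟨?_, hd⟩, he ▸ hp⟩
        rw [hN] at p2
        exact (mem_le hφ).2 p2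
    · rintro ⟨φ, hφ, d, hd, rfl⟩
      have hφ0 : φ ∈ FSs s := hφ
      unfold FSs at hφ0
      rw [Finset.mem_filter] at hφ0
      have hφ' : Fam φ := (mem_FS φ).1 hφ0.1
      rw [Finset.mem_coe, Finset.mem_filter, mem_AX] at hd
      obtain ⟨⟨d1, d2⟩, d3⟩ := hd
      have hch := ch_spec hCGF hφ' d2
      obtain ⟨q1, q2, q3, q4⟩ := hch.1
      refine ⟨⟨q1, ?_, q2, q3, q4, ?_⟩, d3⟩
      · rw [hch.2.1.1]
        exact (mem_le hφ').1 d1
      · rw [ch_neg φ hφ' d2, hφ0.2]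
  refine ⟨heq ▸ Finset.finite_toSet _, ?_⟩
  rw [heq, Set.ncard_coe_finset, Finset.card_biUnion]
  · refine Finset.sum_congr rfl fun φ hφ => ?_
    have hφ0 := hφ
    unfold FSs at hφ0
    rw [Finset.mem_filter] at hφ0
    have hφ' : Fam φ := (mem_FS φ).1 hφ0.1
    rw [Finset.card_image_of_injOn]
    intro d1 hd1 d2 hd2 he
    rw [Finset.mem_coe, Finset.mem_filter, mem_AX] at hd1 hd2
    exact (inj_gen LnkC.INJ hCGF hφ' hφ' hd1.1.2 hd2.1.2 he).2
  · intro φ1 h1 φ2 h2 hne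
    rw [Function.onFun, Finset.disjoint_left]
    intro p hp1 hp2
    unfold FSs at h1 h2
    rw [Finset.mem_coe, Finset.mem_filter] at h1 h2
    have h1' : Fam φ1 := (mem_FS φ1).1 h1.1
    have h2' : Fam φ2 := (mem_FS φ2).1 h2.1
    simp only [Finset.mem_image, Finset.mem_filter, mem_AX] at hp1 hp2
    obtain ⟨d1, hd1, rfl⟩ := hp1
    obtain ⟨d2, hd2, he⟩ := hp2
    exact hne (inj_gen LnkC.INJ hCGF h1' h2' hd1.1.2 hd2.1.2 he.symm).1

lemma chars_fin (s : ℤ) (X : ℕ) : (chars s X).Finite := by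
  have := (count_eq s X (fun _ => True)).1
  refine this.subset fun p hp => ⟨hp, trivial⟩

lemma chars_card (s : ℤ) (X : ℕ) : (chars s X).ncard = ∑ φ ∈ FSs s, (AX φ (X / φ.r)).card := by
  classical
  have h := (count_eq s X (fun _ => True)).2
  have e : chars s X ∩ {p | True} = chars s X := by
    ext p
    simp
  rw [e] at h
  rw [h]
  refine Finset.sum_congr rfl fun φ _ => ?_
  congr 1
  ext d
  simp

lemma fss_fam {s : ℤ} {φ : FD} (h : φ ∈ FSs s) : Fam φ := by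
  classical
  unfold FSs at h
  rw [Finset.mem_filter] at h
  exact (mem_FS φ).1 h.1

open Classical in
lemma count_ge (s : ℤ) (X : ℕ) (P : (Σ N : ℕ, DirichletCharacter ℂ N) → Prop) (c : ℝ)
    (h : ∀ φ ∈ FSs s, c * (AX φ (X / φ.r)).card ≤
      (((AX φ (X / φ.r)).filter (fun d => P (ch φ d))).card : ℝ)) :
    c * (chars s X).ncard ≤ ((chars s X ∩ {p | P p}).ncard : ℝ) := by
  rw [(count_eq s X P).2, chars_card]
  push_cast
  rw [Finset.mul_sum]
  exact Finset.sum_le_sum h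

open Classical in
lemma count_le (s : ℤ) (X : ℕ) (P : (Σ N : ℕ, DirichletCharacter ℂ N) → Prop) (c : ℝ)
    (h : ∀ φ ∈ FSs s, (((AX φ (X / φ.r)).filter (fun d => P (ch φ d))).card : ℝ) ≤
      c * (AX φ (X / φ.r)).card) :
    ((chars s X ∩ {p | P p}).ncard : ℝ) ≤ c * (chars s X).ncard := by
  rw [(count_eq s X P).2, chars_card]
  push_cast
  rw [Finset.mul_sum]
  exact Finset.sum_le_sum h

/-! ### the three parts -/

/-- the number of the characters -/
theorem size (s : ℤ) (hs : s = 1 ∨ s = -1) : ∃ c : ℝ, 0 < c ∧ ∀ᶠ X : ℕ in atTop, c * X ≤ (chars s X).ncard := by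
  classical
  have hF : Fam (F8 s) := by
    rcases hs with rfl | rfl
    · exact ⟨1, Or.inl rfl, Or.inl rfl⟩
    · exact ⟨-1, Or.inr rfl, Or.inl rfl⟩
  have hmem : F8 s ∈ FSs s := by
    unfold FSs
    rw [Finset.mem_filter]
    refine ⟨(mem_FS _).2 hF, ?_⟩
    rcases hs with rfl | rfl <;> simp [sg, F8]
  have hφ := LnkA.FGF _ hF
  have hδ := hφ.hδ
  have hr := hφ.hr.1
  have hr0 : (0 : ℝ) < (F8 s).r := by exact_mod_cast hr
  have hpi := Real.pi_pos
  set D : ℝ := (F8 s).δ * (8 / Real.pi ^ 2) with hD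
  have hD0 : 0 < D := by positivity
  have h1 := AX_low (F8 s) hF hr (D / 2) (by linarith) (by positivity)
  refine ⟨D / (4 * (F8 s).r), by positivity, ?_⟩
  have h2 : ∀ᶠ X : ℕ in atTop, D / 2 ≤ D / (4 * (F8 s).r) * X := by
    have : Tendsto (fun X : ℕ => D / (4 * (F8 s).r) * (X : ℝ)) atTop atTop :=
      tendsto_natCast_atTop_atTop.const_mul_atTop (by positivity)
    exact this.eventually_ge_atTop _
  filter_upwards [h1, h2] with X k1 k2
  rw [chars_card]
  push_cast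
  refine le_trans ?_ (Finset.single_le_sum (f := fun φ : FD => ((AX φ (X / φ.r)).card : ℝ))
    (fun _ _ => Nat.cast_nonneg _) hmem)
  refine le_trans ?_ k1
  have e : D / 2 * ((X : ℝ) / (F8 s).r) = 2 * (D / (4 * (F8 s).r) * X) := by
    field_simp
    ring
  rw [e]
  linarith

lemma Up_mono {φ : FD} {L A A' : ℝ} {d : ℕ} (h : A ≤ A') (hL : 0 ≤ Real.log (Real.log L)) (hu : Up φ L A d) :
    Up φ L A' d := by
  refine le_trans hu (Real.exp_le_exp.2 ?_)
  have := mul_le_mul_of_nonneg_right h hL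
  linarith

lemma Lo_mono {φ : FD} {L A A' : ℝ} {d : ℕ} (h : A ≤ A') (hL : 0 ≤ Real.log (Real.log L)) (hu : Lo φ L A d) :
    Lo φ L A' d := by
  refine le_trans (Real.exp_le_exp.2 ?_) hu
  have := mul_le_mul_of_nonneg_right h hL
  linarith

/-- the upper relation -/
def UpC (X : ℕ) (C : ℝ) (p : Σ N : ℕ, DirichletCharacter ℂ N) : Prop :=
  cv p ≤ Real.exp (1 / 2 * Real.log (Real.log X) + sp X p + C * Real.log (Real.log (Real.log X)))

/-- the lower relation -/
def LoC (X : ℕ) (C : ℝ) (p : Σ N : ℕ, DirichletCharacter ℂ N) : Prop :=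
  Real.exp (1 / 2 * Real.log (Real.log X) + sp X p - C * Real.log (Real.log (Real.log X))) ≤ cv p

/-- both relations -/
def LU (X : ℕ) (C : ℝ) (p : Σ N : ℕ, DirichletCharacter ℂ N) : Prop := LoC X C p ∧ UpC X C p

theorem part1 (s : ℤ) (ε : ℝ) (hε : 0 < ε) : ∃ C : ℝ, ∀ᶠ X : ℕ in atTop,
    (1 - ε) * (chars s X).ncard ≤ ((chars s X ∩ {p | UpC X C p}).ncard : ℝ) ∧
    (7 / 8 - ε) * (chars s X).ncard ≤ ((chars s X ∩ {p | LU X C p}).ncard : ℝ) := by
  classical
  have h0 : ∀ φ : FD, ∃ A : ℝ, 0 < A ∧ (φ ∈ FSs s → ∀ᶠ X : ℕ in atTop,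
      (((AX φ (X / φ.r)).filter (fun d => ¬ Up φ (Real.log X) A d)).card : ℝ) ≤
        ε / 2 * (AX φ (X / φ.r)).card ∧
      (((AX φ (X / φ.r)).filter (fun d => ¬ Lo φ (Real.log X) A d)).card : ℝ) ≤
        (1 / 8 + ε / 2) * (AX φ (X / φ.r)).card) := by
    intro φ
    by_cases h : φ ∈ FSs s
    · have hf := fss_fam h
      obtain ⟨A, hA, hB⟩ := fam_count φ hf (LnkA.FGF φ hf) (LnkC.CGF φ hf) (ε / 2) (by positivity)
      refine ⟨A, hA, fun _ => ?_⟩
      filter_upwards [hB] with X hX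
      exact ⟨by convert hX.1, by convert hX.2⟩
    · exact ⟨1, one_pos, fun h1 => absurd h1 h⟩
  choose A hA0 hA using h0
  set C : ℝ := ∑ φ ∈ FSs s, A φ with hC
  have hAC : ∀ φ ∈ FSs s, A φ ≤ C := fun φ hφ =>
    Finset.single_le_sum (f := A) (fun ψ _ => (hA0 ψ).le) hφ
  have hall : ∀ᶠ X : ℕ in atTop, ∀ φ ∈ FSs s,
      (((AX φ (X / φ.r)).filter (fun d => ¬ Up φ (Real.log X) (A φ) d)).card : ℝ) ≤
        ε / 2 * (AX φ (X / φ.r)).card ∧
      (((AX φ (X / φ.r)).filter (fun d => ¬ Lo φ (Real.log X) (A φ) d)).card : ℝ) ≤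
        (1 / 8 + ε / 2) * (AX φ (X / φ.r)).card :=
    (Filter.eventually_all_finset (FSs s)).2 fun φ hφ => hA φ hφ
  have hlog : Tendsto (fun X : ℕ => Real.log (Real.log (Real.log X))) atTop atTop :=
    Real.tendsto_log_atTop.comp (Real.tendsto_log_atTop.comp
      (Real.tendsto_log_atTop.comp tendsto_natCast_atTop_atTop))
  refine ⟨C, ?_⟩
  filter_upwards [hall, hlog.eventually_ge_atTop 0, eventually_gt_atTop 0] with X hX hl hX0
  have hup : ∀ φ ∈ FSs s, ∀ d ∈ AX φ (X / φ.r), Up φ (Real.log X) (A φ) d → UpC X C (ch φ d) := by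
    intro φ hφ d hd h
    have hd' := (mem_AX.1 hd).2
    have h1 := Up_mono (hAC φ hφ) hl h
    unfold UpC
    rw [ch_cv φ (fss_fam hφ) hd', ch_sp φ (fss_fam hφ) hd' hX0]
    exact h1
  have hlo : ∀ φ ∈ FSs s, ∀ d ∈ AX φ (X / φ.r), Lo φ (Real.log X) (A φ) d → LoC X C (ch φ d) := by
    intro φ hφ d hd h
    have hd' := (mem_AX.1 hd).2
    have h1 := Lo_mono (hAC φ hφ) hl h
    unfold LoC
    rw [ch_cv φ (fss_fam hφ) hd', ch_sp φ (fss_fam hφ) hd' hX0]
    exact h1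
  constructor
  · apply count_ge
    intro φ hφ
    obtain ⟨g1, g2⟩ := hX φ hφ
    set U := AX φ (X / φ.r) with hU
    have hU0 : (0 : ℝ) ≤ U.card := Nat.cast_nonneg _
    have k1 : U ⊆ U.filter (fun d => UpC X C (ch φ d)) ∪ U.filter (fun d => ¬ Up φ (Real.log X) (A φ) d) := by
      intro d hd
      rw [Finset.mem_union, Finset.mem_filter, Finset.mem_filter]
      by_cases h : Up φ (Real.log X) (A φ) d
      · exact Or.inl ⟨hd, hup φ hφ d hd h⟩
      · exact Or.inr ⟨hd, h⟩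
    have k2 := (Finset.card_le_card k1).trans (Finset.card_union_le _ _)
    have k3 : (U.card : ℝ) ≤ (U.filter (fun d => UpC X C (ch φ d))).card +
        (U.filter (fun d => ¬ Up φ (Real.log X) (A φ) d)).card := by exact_mod_cast k2
    have e0 : 0 ≤ ε / 2 * (U.card : ℝ) := by positivity
    linarith
  · apply count_ge
    intro φ hφ
    obtain ⟨g1, g2⟩ := hX φ hφ
    set U := AX φ (X / φ.r) with hU
    have hU0 : (0 : ℝ) ≤ U.card := Nat.cast_nonneg _
    have k1 : U ⊆ U.filter (fun d => LU X C (ch φ d)) ∪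
        (U.filter (fun d => ¬ Up φ (Real.log X) (A φ) d) ∪ U.filter (fun d => ¬ Lo φ (Real.log X) (A φ) d)) := by
      intro d hd
      rw [Finset.mem_union, Finset.mem_union, Finset.mem_filter, Finset.mem_filter, Finset.mem_filter]
      by_cases h : Up φ (Real.log X) (A φ) d
      · by_cases h' : Lo φ (Real.log X) (A φ) d
        · exact Or.inl ⟨hd, hlo φ hφ d hd h', hup φ hφ d hd h⟩
        · exact Or.inr (Or.inr ⟨hd, h'⟩)
      · exact Or.inr (Or.inl ⟨hd, h⟩)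
    have k2 := (Finset.card_le_card k1).trans ((Finset.card_union_le _ _).trans
      (Nat.add_le_add_left (Finset.card_union_le _ _) _))
    have k3 : (U.card : ℝ) ≤ (U.filter (fun d => LU X C (ch φ d))).card +
        ((U.filter (fun d => ¬ Up φ (Real.log X) (A φ) d)).card +
        (U.filter (fun d => ¬ Lo φ (Real.log X) (A φ) d)).card) := by exact_mod_cast k2
    linarith

/-- the event of the normal law -/
def Ev (X : ℕ) (t : ℝ) (p : Σ N : ℕ, DirichletCharacter ℂ N) : Prop :=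
  Real.exp (1 / 2 * Real.log (Real.log X) + t * Real.sqrt (Real.log (Real.log X))) < cv p

theorem part2_pt (s : ℤ) (t : ℝ) (ε : ℝ) (hε : 0 < ε) : ∀ᶠ X : ℕ in atTop,
    (Gt t - 1 / 8 - ε) * (chars s X).ncard ≤ ((chars s X ∩ {p | Ev X t p}).ncard : ℝ) ∧
    ((chars s X ∩ {p | Ev X t p}).ncard : ℝ) ≤ (Gt t + ε) * (chars s X).ncard := by
  classical
  have hall : ∀ᶠ X : ℕ in atTop, ∀ φ ∈ FSs s,
      (((AX φ (X / φ.r)).filter (fun d => Real.exp (1 / 2 * Real.log (Real.log X) +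
        t * Real.sqrt (Real.log (Real.log X))) < |LLg φ d (1 / 2)|)).card : ℝ) ≤
          (Gt t + ε) * (AX φ (X / φ.r)).card ∧
      (Gt t - 1 / 8 - ε) * (AX φ (X / φ.r)).card ≤
        (((AX φ (X / φ.r)).filter (fun d => Real.exp (1 / 2 * Real.log (Real.log X) +
        t * Real.sqrt (Real.log (Real.log X))) < |LLg φ d (1 / 2)|)).card : ℝ) := by
    apply (Filter.eventually_all_finset (FSs s)).2
    intro φ hφ
    have hf := fss_fam hφ
    filter_upwards [fam_law φ hf (LnkA.FGF φ hf) (LnkC.CGF φ hf) t ε hε] with X hX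
    exact ⟨by convert hX.1, by convert hX.2⟩
  filter_upwards [hall] with X hX
  have he : ∀ φ ∈ FSs s, (AX φ (X / φ.r)).filter (fun d => Ev X t (ch φ d)) =
      (AX φ (X / φ.r)).filter (fun d => Real.exp (1 / 2 * Real.log (Real.log X) +
        t * Real.sqrt (Real.log (Real.log X))) < |LLg φ d (1 / 2)|) := by
    intro φ hφ
    apply Finset.filter_congr
    intro d hd
    have hd' := (mem_AX.1 hd).2
    unfold Ev
    rw [ch_cv φ (fss_fam hφ) hd']
  constructor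
  · apply count_ge
    intro φ hφ
    rw [he φ hφ]
    exact (hX φ hφ).2
  · apply count_le
    intro φ hφ
    rw [he φ hφ]
    exact (hX φ hφ).1

theorem part2 (s : ℤ) (ε : ℝ) (hε : 0 < ε) : ∀ᶠ X : ℕ in atTop, ∀ t : ℝ,
    (Gt t - 1 / 8 - ε) * (chars s X).ncard ≤ ((chars s X ∩ {p | Ev X t p}).ncard : ℝ) ∧
    ((chars s X ∩ {p | Ev X t p}).ncard : ℝ) ≤ (Gt t + ε) * (chars s X).ncard := by
  obtain ⟨T, hT⟩ := uni_grid ε hε
  have hall : ∀ᶠ X : ℕ in atTop, ∀ t ∈ T,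
      (Gt t - 1 / 8 - ε / 2) * (chars s X).ncard ≤ ((chars s X ∩ {p | Ev X t p}).ncard : ℝ) ∧
      ((chars s X ∩ {p | Ev X t p}).ncard : ℝ) ≤ (Gt t + ε / 2) * (chars s X).ncard :=
    (Filter.eventually_all_finset T).2 fun t _ => part2_pt s t (ε / 2) (by positivity)
  filter_upwards [hall] with X hX t
  refine hT ((chars s X).ncard : ℝ) (fun t => ((chars s X ∩ {p | Ev X t p}).ncard : ℝ)) (1 / 8) (by norm_num)
    ?_ (fun t => Nat.cast_nonneg _) (fun t => ?_) hX t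
  · intro a b hab
    have h1 : (chars s X ∩ {p | Ev X b p}).ncard ≤ (chars s X ∩ {p | Ev X a p}).ncard := by
      apply Set.ncard_le_ncard _ ((chars_fin s X).subset Set.inter_subset_left)
      rintro p ⟨hp, hp2⟩
      refine ⟨hp, lt_of_le_of_lt (Real.exp_le_exp.2 ?_) hp2⟩
      have := mul_le_mul_of_nonneg_right hab (Real.sqrt_nonneg (Real.log (Real.log X)))
      linarith
    show ((chars s X ∩ {p | Ev X b p}).ncard : ℝ) ≤ ((chars s X ∩ {p | Ev X a p}).ncard : ℝ)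
    exact_mod_cast h1
  · exact_mod_cast Set.ncard_le_ncard Set.inter_subset_left (chars_fin s X)

end

end Pool.Agent.V8H36.CV
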