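import Pool.Agent.H423R2.RGL.TR1G
import Pool.Agent.H692R2.RZ2_W0
import Pool.Agent.H285R3.RG_C8G
import Pool.Agent.H697R2.RG_TRwG

set_option autoImplicit false
set_option linter.all false
set_option maxHeartbeats 4000000

/-!
Central values, part 1: mean squares of `N(x) M[Q]` with polynomial dependence on `x`.
-/

namespace Pool.Agent.V8H36.CV

open Finset Filter Topology MeasureTheory Pool.Agent.H306R2.RZ Pool.Agent.H306R2.RG
open Pool.Agent.H423R2.RZA.TR1n (fin_n Gr Gr.deriv cd_deriv idmul id_zero bd_mul bd_exists bd_mono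
  bd_mono' Gr.sub sq6 exp_sq_le u123 ebd sups poly_exp ph_le q_bd cd_ex cd_ex1 cd_ph cd_ph1 gr_ex
  gr_ex1 gr_ph gr_ph1)
open Pool.Agent.H568R3.TR1Gn

noncomputable section

/-- bounded derivatives of `1 - ζ` -/
lemma st_bd {a b : ℝ} {ζ : ℝ → ℝ} (h : ST a b ζ) (k : ℕ) :
    ∃ B : ℝ, 1 ≤ B ∧ ∀ j ≤ k, ∀ y, |iteratedDeriv j (fun u => 1 - ζ u) y| ≤ B := by
  have hs : ContDiff ℝ ((⊤ : ℕ∞) : WithTop ℕ∞) (fun u => 1 - ζ u) := contDiff_const.sub h.smooth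
  have h1 : ∀ j : ℕ, ∃ B : ℝ, 0 ≤ B ∧ ∀ y, |iteratedDeriv j (fun u => 1 - ζ u) y| ≤ B := by
    intro j
    have hc : Continuous (iteratedDeriv j (fun u => 1 - ζ u)) :=
      hs.continuous_iteratedDeriv j (by exact_mod_cast le_top)
    obtain ⟨B, hB⟩ := isCompact_Icc.exists_bound_of_continuousOn (s := Set.Icc a b) hc.continuousOn
    refine ⟨|B| + 1, by positivity, fun y => ?_⟩
    rcases lt_or_ge y a with hy | hy
    · have h2 : (fun u => 1 - ζ u) =ᶠ[𝓝 y] fun _ => (0 : ℝ) := by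
        filter_upwards [gt_mem_nhds hy] with u hu
        rw [h.one u hu.le]; ring
      rw [h2.iteratedDeriv_eq j]
      simp
      positivity
    · rcases le_or_gt y b with hy2 | hy2
      · have := hB y ⟨hy, hy2⟩
        rw [Real.norm_eq_abs] at this
        linarith [le_abs_self B]
      · have h2 : (fun u => 1 - ζ u) =ᶠ[𝓝 y] fun _ => (1 : ℝ) := by
          filter_upwards [lt_mem_nhds hy2] with u hu
          rw [h.zero u hu.le]; ring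
        rw [h2.iteratedDeriv_eq j, iteratedDeriv_const]
        split_ifs
        · rw [abs_one]
          linarith [abs_nonneg B]
        · simp
          positivity
  choose B hB0 hB using h1
  refine ⟨∑ j ∈ range (k + 1), B j + 1, by linarith [sum_nonneg (s := range (k + 1)) (fun j _ => hB0 j)], ?_⟩
  intro j hj y
  have := single_le_sum (f := B) (fun i _ => hB0 i) (mem_range.2 (by omega : j < k + 1))
  linarith [hB j y]

/-- the cutoff near zero, at scale `1/x` -/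
def cz (κ ζ : ℝ → ℝ) (x y : ℝ) : ℝ := (1 - ζ (x * y)) * κ y

lemma cz_eq {κ ζ : ℝ → ℝ} (hζ : ST (-1 / 2) (-1 / 4) ζ) {x y : ℝ} (hx : 0 ≤ x) (hy : 0 ≤ y) :
    cz κ ζ x y = κ y := by
  unfold cz
  rw [hζ.zero _ (by have := mul_nonneg hx hy; linarith)]
  ring

lemma cz_smooth {κ ζ : ℝ → ℝ} {δ e : ℝ} (hκ : KP δ e κ) (hζ : ST (-1 / 2) (-1 / 4) ζ) (x : ℝ) :
    ContDiff ℝ ((⊤ : ℕ∞) : WithTop ℕ∞) (cz κ ζ x) := by
  unfold cz
  exact (contDiff_const.sub (hζ.smooth.comp (contDiff_const.mul contDiff_id))).mul hκ.smooth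

lemma cz_supp {κ ζ : ℝ → ℝ} {δ e : ℝ} (hκ : KP δ e κ) (hζ : ST (-1 / 2) (-1 / 4) ζ) {x y : ℝ}
    (hx : 1 ≤ x) (h : cz κ ζ x y ≠ 0) : -(1 / (2 * x)) ≤ y ∧ y ≤ 1 / 2 + 3 * δ := by
  unfold cz at h
  refine ⟨?_, (hκ.supp y (right_ne_zero_of_mul h)).2⟩
  by_contra hy
  rw [not_le] at hy
  apply left_ne_zero_of_mul h
  have h1 : x * y ≤ -1 / 2 := by
    have h2 : x * y ≤ x * (-(1 / (2 * x))) := mul_le_mul_of_nonneg_left hy.le (by linarith)
    have h3 : x * (-(1 / (2 * x))) = -1 / 2 := by field_simp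
    linarith
  rw [hζ.one _ h1]
  ring

/-- derivatives of the scaled cutoff -/
lemma zx_bd {ζ : ℝ → ℝ} (hζ : ST (-1 / 2) (-1 / 4) ζ) {k : ℕ} {B : ℝ} (hB0 : 1 ≤ B)
    (hB : ∀ j ≤ k, ∀ y, |iteratedDeriv j (fun u => 1 - ζ u) y| ≤ B) {x : ℝ} (hx : 1 ≤ x) :
    ∀ j ≤ k, ∀ y, |iteratedDeriv j (fun y => 1 - ζ (x * y)) y| ≤ B * (1 + x) ^ k := by
  intro j hj y
  have hs : ContDiff ℝ j (fun u => 1 - ζ u) :=
    (contDiff_const.sub hζ.smooth).of_le (by exact_mod_cast le_top)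
  have h1 := congrFun (iteratedDeriv_comp_const_mul hs x) y
  have e : (fun y => 1 - ζ (x * y)) = fun y => (fun u => 1 - ζ u) (x * y) := rfl
  rw [e, h1, abs_mul, abs_pow, abs_of_nonneg (by linarith : (0 : ℝ) ≤ x), mul_comm B]
  apply mul_le_mul _ (hB j hj _) (abs_nonneg _) (by positivity)
  calc x ^ j ≤ (1 + x) ^ j := pow_le_pow_left₀ (by linarith) (by linarith) j
    _ ≤ (1 + x) ^ k := pow_le_pow_right₀ (by linarith) hj

/-- bound of the derivatives of the cutoff -/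
lemma cz_bd {κ ζ : ℝ → ℝ} {δ e : ℝ} (hκ : KP δ e κ) (hζ : ST (-1 / 2) (-1 / 4) ζ) (k : ℕ) :
    ∃ K : ℝ, 0 < K ∧ ∀ x : ℝ, 1 ≤ x → Bd k (cz κ ζ x) (K * (1 + x) ^ k) := by
  obtain ⟨B, hB0, hB⟩ := st_bd hζ k
  obtain ⟨B1, hB1, hb1⟩ := bd_exists hκ.smooth hκ.supp k
  refine ⟨2 ^ k * B * (B1 + 1), by positivity, fun x hx => ?_⟩
  have h1 := bd_mul (f := fun y => 1 - ζ (x * y)) (g := κ)
    (contDiff_const.sub (hζ.smooth.comp (contDiff_const.mul contDiff_id))) hκ.smooth hκ.supp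
    (show 0 ≤ B * (1 + x) ^ k by positivity) (fun j hj t _ _ => zx_bd hζ hB0 hB hx j hj t)
    (bd_mono' hb1 (show B1 ≤ B1 + 1 by linarith))
  have e : 2 ^ k * (B * (1 + x) ^ k) * (B1 + 1) = 2 ^ k * B * (B1 + 1) * (1 + x) ^ k := by ring
  rw [e] at h1
  exact h1

/-- sums over `n` see the weight on `[0,∞)` only -/
lemma Ndg_congr (φ : FD) (q : ℕ) {L : ℝ} (hL : 0 < L) {w v : ℝ → ℝ} (h : ∀ y, 0 ≤ y → w y = v y)
    (d : ℕ) : Ndg φ q L w d = Ndg φ q L v d := by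
  unfold Ndg
  refine tsum_congr fun n => ?_
  rw [h _ (div_nonneg (Real.log_natCast_nonneg n) hL.le)]

lemma Mdg_congr (φ : FD) (q : ℕ) {L : ℝ} (hL : 0 < L) {w v : ℝ → ℝ} (h : ∀ y, 0 ≤ y → w y = v y)
    (d : ℕ) : Mdg φ q L w d = Mdg φ q L v d := by
  unfold Mdg
  refine tsum_congr fun n => ?_
  rw [h _ (div_nonneg (Real.log_natCast_nonneg n) hL.le)]

/-- the mollifier weight `e^{-xt} r κ`, cut off near zero -/
def qz (r κ ζ : ℝ → ℝ) (x t : ℝ) : ℝ := Real.exp (-(x * t)) * (r t * cz κ ζ (max x 1) t)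

lemma qz_eq {r κ ζ : ℝ → ℝ} (hζ : ST (-1 / 2) (-1 / 4) ζ) {x y : ℝ} (hy : 0 ≤ y) :
    Real.exp (-(x * y)) * r y * κ y = qz r κ ζ x y := by
  unfold qz
  rw [cz_eq hζ (le_trans zero_le_one (le_max_right x 1)) hy]
  ring

theorem qz_wt {r κ ζ : ℝ → ℝ} {δ e θ : ℝ} (hδ : 0 < δ) (hθ0 : 0 < θ) (hθ1 : θ ≤ 1) (hr : ST (θ / 4) θ r) (hκ : KP δ e κ)
    (hζ : ST (-1 / 2) (-1 / 4) ζ) (k : ℕ) :
    ∃ K : ℝ, 0 < K ∧ ∀ x : ℝ, 0 ≤ x → Wt θ (qz r κ ζ x) ∧ Bd k (qz r κ ζ x) (K * (1 + x) ^ (2 * k)) := by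
  obtain ⟨K1, hK1, h1⟩ := cz_bd hκ hζ k
  obtain ⟨B2, hB2, hb2⟩ := st_bd hr k
  -- `r` has bounded derivatives
  have hrb : ∀ j ≤ k, ∀ y, |iteratedDeriv j r y| ≤ B2 + 1 := by
    intro j hj y
    have h2 := hb2 j hj y
    have e1 : r = fun u => (1 : ℝ) - (1 - r u) := by funext u; ring
    have e2 : iteratedDeriv j r y = iteratedDeriv j (fun _ : ℝ => (1 : ℝ)) y -
        iteratedDeriv j (fun u => 1 - r u) y := by
      conv_lhs => rw [e1]
      exact iteratedDeriv_fun_sub (contDiff_const.contDiffAt)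
        ((contDiff_const.sub hr.smooth).contDiffAt.of_le (by exact_mod_cast le_top))
    rw [e2]
    have h3 : |iteratedDeriv j (fun _ : ℝ => (1 : ℝ)) y| ≤ 1 := by
      rw [iteratedDeriv_const]
      split_ifs <;> simp
    have := abs_sub (iteratedDeriv j (fun _ : ℝ => (1 : ℝ)) y) (iteratedDeriv j (fun u => 1 - r u) y)
    linarith
  refine ⟨2 ^ k * (2 ^ k * 4 * 2) * (2 ^ k * (B2 + 1) * (K1 * 2 ^ k)), by positivity, fun x hx => ?_⟩
  set X := max x 1 with hX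
  have hX1 : 1 ≤ X := le_max_right _ _
  have hXx : 1 + X ≤ 2 * (1 + x) := by
    rcases max_cases x 1 with h | h <;> rw [hX, h.1] <;> linarith
  have hcs : ContDiff ℝ ((⊤ : ℕ∞) : WithTop ℕ∞) (cz κ ζ X) := cz_smooth hκ hζ X
  have hsup : ∀ y, cz κ ζ X y ≠ 0 → -(1 / (2 * X)) ≤ y ∧ y ≤ 1 / 2 + 3 * δ := fun y h =>
    cz_supp hκ hζ hX1 h
  have hlow : -1 ≤ -(1 / (2 * X)) := by
    rw [neg_le_neg_iff, div_le_one (by linarith)]
    linarith
  have hsup2 : ∀ y, r y * cz κ ζ X y ≠ 0 → -(1 / (2 * X)) ≤ y ∧ y ≤ θ := by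
    intro y h
    refine ⟨(hsup y (right_ne_zero_of_mul h)).1, ?_⟩
    by_contra hy
    exact left_ne_zero_of_mul h (hr.zero y (by linarith))
  have hbd1 : Bd k (fun y => r y * cz κ ζ X y) (2 ^ k * (B2 + 1) * (K1 * (1 + X) ^ k)) :=
    bd_mul hr.smooth hcs hsup (by linarith) (fun j hj t _ _ => hrb j hj t) (h1 X hX1)
  have hE : ∀ j ≤ k, ∀ t, -(1 / (2 * X)) ≤ t → t ≤ θ →
      |iteratedDeriv j (fun t => Real.exp (-(x * t))) t| ≤ 2 ^ k * 4 * 2 * (1 + x) ^ k := by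
    intro j hj t ht1 ht2
    refine ((q_bd hx k).1 j hj t (by linarith) (by linarith)).trans ?_
    have h2 : Real.exp (-(x * t)) ≤ 2 := by
      have h3 : -(x * t) ≤ 1 / 2 := by
        have h4 : x * (-(1 / (2 * X))) ≤ x * t := mul_le_mul_of_nonneg_left ht1 hx
        have h5 : x * (1 / (2 * X)) ≤ 1 / 2 := by
          rw [mul_one_div, div_le_div_iff₀ (by linarith) (by norm_num)]
          have : x ≤ X := le_max_left _ _
          linarith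
        linarith
      calc Real.exp (-(x * t)) ≤ Real.exp (1 / 2) := Real.exp_le_exp.2 h3
        _ ≤ 2 := by
          have h6 := Real.exp_one_lt_d9
          have h7 : Real.exp (1 / 2) ^ 2 = Real.exp 1 := by
            rw [← Real.exp_nat_mul]; norm_num
          nlinarith [Real.exp_pos (1 / 2 : ℝ)]
    calc 2 ^ k * 4 * (1 + x) ^ k * Real.exp (-(x * t)) ≤ 2 ^ k * 4 * (1 + x) ^ k * 2 := by gcongr
      _ = _ := by ring
  have cq0 : ContDiff ℝ ((⊤ : ℕ∞) : WithTop ℕ∞) (fun t : ℝ => Real.exp (-(x * t))) := by fun_prop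
  refine ⟨⟨?_, ?_⟩, ?_⟩
  · unfold qz
    exact cq0.mul (hr.smooth.mul hcs)
  · intro y hy
    unfold qz at hy
    have := hsup2 y (right_ne_zero_of_mul hy)
    exact ⟨by linarith, this.2⟩
  · have h2 := bd_mul cq0 (hr.smooth.mul hcs) hsup2 (show 0 ≤ 2 ^ k * 4 * 2 * (1 + x) ^ k by positivity) hE hbd1
    refine bd_mono' h2 ?_
    have h3 : (1 + X) ^ k ≤ 2 ^ k * (1 + x) ^ k := by
      rw [← mul_pow]
      exact pow_le_pow_left₀ (by linarith) hXx k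
    calc 2 ^ k * (2 ^ k * 4 * 2 * (1 + x) ^ k) * (2 ^ k * (B2 + 1) * (K1 * (1 + X) ^ k))
        ≤ 2 ^ k * (2 ^ k * 4 * 2 * (1 + x) ^ k) * (2 ^ k * (B2 + 1) * (K1 * (2 ^ k * (1 + x) ^ k))) := by
          gcongr
      _ = _ := by
          rw [two_mul, pow_add]
          ring

/-- bounds of the kernel near `[0,1]` -/
theorem kg_bd (φ : FD) (hφ : FG φ) (δ b : ℝ) (hδ : 0 < δ) (hδ1 : δ ≤ 1 / 8) (hb : 0 ≤ b) (ρ : ℝ → ℝ)
    (hρ : RH δ ρ) (k : ℕ) :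
    ∃ C L0 : ℝ, 0 < C ∧ 1 ≤ L0 ∧ ∀ L β x : ℝ, L0 ≤ L → |β| ≤ b / L → (x = 0 ∨ 1 ≤ x) → x ≤ L / 2 →
      ∀ j ≤ k, ∀ y, -(1 / (2 * max x 1)) ≤ y → y ≤ 1 →
        |iteratedDeriv j (KGg φ L β (Ph ρ x)) y| ≤ C * (1 + x) ^ k := by
  obtain ⟨C1, L1, hC1, hL1, h1⟩ := Pool.Agent.H831R3.RGKBG.KBG φ hφ k b hb
  obtain ⟨C2, L2, hC2, hL2, h2⟩ := Pool.Agent.H697R2.RGTRwG.TRwG_of φ
    (fun k b hb => Pool.Agent.H831R3.RGKBG.KBG φ hφ k b hb) δ b hδ hδ1 hb ρ hρ k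
  have hG0 : Gr 0 (Ph ρ 0) := gr_ph hδ hρ le_rfl
  choose B hB using hG0
  set B0 : ℝ := ∑ j ∈ range (k + 1), |B j| with hB0
  have hB00 : 0 ≤ B0 := sum_nonneg fun j _ => abs_nonneg _
  refine ⟨C1 * B0 * 2 + C2 * 2 * 3 + 1, max 1 (max L1 L2), by positivity, le_max_left _ _, ?_⟩
  intro L β x hL hβ hx hxL j hj y hy1 hy2
  have hLo : 1 ≤ L := (le_max_left _ _).trans hL
  have hLL := (le_max_right _ _).trans hL
  have hLa : L1 ≤ L := (le_max_left _ _).trans hLL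
  have hLb : L2 ≤ L := (le_max_right _ _).trans hLL
  have hX1 : 1 ≤ max x 1 := le_max_right _ _
  have hlow : -1 ≤ -(1 / (2 * max x 1)) := by
    rw [neg_le_neg_iff, div_le_one (by linarith)]
    linarith
  have hay : |y| ≤ 1 := abs_le.2 ⟨by linarith, hy2⟩
  rcases hx with hx | hx
  · subst hx
    obtain ⟨-, -, -, q4⟩ := h1 L β 0 (Ph ρ 0) hLa hβ le_rfl hxL (cd_ph hρ 0) (fun j => ⟨B j, hB j⟩)
    have q5 := q4 B0 (fun i hi τ => (hB i τ).trans (by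
      have : B i ≤ B0 := (le_abs_self _).trans (single_le_sum (f := fun j => |B j|)
        (fun i _ => abs_nonneg _) (mem_range.2 (by omega : i < k + 1)))
      have h3 := Real.exp_pos (0 * (τ - 1 / 2))
      gcongr)) j hj y
    refine q5.trans ?_
    rw [zero_mul, neg_zero, Real.exp_zero, mul_one, add_zero, one_pow, mul_one]
    have : C1 * B0 * (1 + |y|) ≤ C1 * B0 * 2 := by
      apply mul_le_mul_of_nonneg_left (by linarith) (by positivity)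
    linarith
  · have hx0 : 0 ≤ x := by linarith
    obtain ⟨a1, -, a3, -⟩ := h2 L β x hLb hβ hx hxL j y hj
    have gΦ : Gr x (Ex x) := gr_ex
    have gΨ : Gr x (Ph ρ x) := gr_ph hδ hρ hx0
    have cΦ := cd_ex x
    have cΨ := cd_ph hρ x
    obtain ⟨A1, hA1⟩ := gΦ 0
    obtain ⟨A2, hA2⟩ := gΨ 0
    simp only [iteratedDeriv_zero] at hA1 hA2
    have hsub : ∀ y, KGg φ L β (fun τ => Ex x τ - Ph ρ x τ) y = KGg φ L β (Ex x) y - KGg φ L β (Ph ρ x) y :=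
      fun y => kgg_sub hφ cΦ.continuous cΨ.continuous hA1 hA2 hx0 hxL hLo y
    have gΔ : Gr x (fun τ => Ex x τ - Ph ρ x τ) := gΦ.sub gΨ cΦ cΨ
    have cΔ : ContDiff ℝ ((⊤ : ℕ∞) : WithTop ℕ∞) (fun τ => Ex x τ - Ph ρ x τ) := cΦ.sub cΨ
    have f1 : KGg φ L β (Ph ρ x) = fun y => KGg φ L β (Ex x) y - KGg φ L β (fun τ => Ex x τ - Ph ρ x τ) y := by
      funext z; rw [hsub]; ring
    have f2 := (h1 L β x (Ex x) hLa hβ hx0 hxL cΦ gΦ).1
    have f3 := (h1 L β x (fun τ => Ex x τ - Ph ρ x τ) hLa hβ hx0 hxL cΔ gΔ).1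
    have f4 : iteratedDeriv j (KGg φ L β (Ph ρ x)) y = iteratedDeriv j (KGg φ L β (Ex x)) y -
        iteratedDeriv j (KGg φ L β (fun τ => Ex x τ - Ph ρ x τ)) y := by
      rw [f1]
      exact iteratedDeriv_fun_sub (f2.contDiffAt.of_le (by exact_mod_cast le_top))
        (f3.contDiffAt.of_le (by exact_mod_cast le_top))
    rw [f4]
    have e1 : Real.exp (-(x * y)) ≤ 2 := by
      have h3 : -(x * y) ≤ 1 / 2 := by
        have h4 : x * (-(1 / (2 * max x 1))) ≤ x * y := mul_le_mul_of_nonneg_left hy1 hx0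
        have h5 : x * (1 / (2 * max x 1)) ≤ 1 / 2 := by
          rw [mul_one_div, div_le_div_iff₀ (by linarith) (by norm_num)]
          have : x ≤ max x 1 := le_max_left _ _
          linarith
        linarith
      calc Real.exp (-(x * y)) ≤ Real.exp (1 / 2) := Real.exp_le_exp.2 h3
        _ ≤ 2 := by
          have h6 := Real.exp_one_lt_d9
          have h7 : Real.exp (1 / 2) ^ 2 = Real.exp 1 := by
            rw [← Real.exp_nat_mul]; norm_num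
          nlinarith [Real.exp_pos (1 / 2 : ℝ)]
    have e2 : Real.exp (-(x / 4)) ≤ 1 := Real.exp_le_one_iff.2 (by linarith)
    have hp : (0 : ℝ) < (1 + x) ^ k := by positivity
    have b1 : |iteratedDeriv j (KGg φ L β (Ex x)) y| ≤ C2 * (1 + x) ^ k * 2 * 2 := by
      refine a1.trans ?_
      gcongr
      linarith
    have b2 : |iteratedDeriv j (KGg φ L β (fun τ => Ex x τ - Ph ρ x τ)) y| ≤ C2 * (1 + x) ^ k * 2 * 1 := by
      refine a3.trans ?_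
      gcongr
      linarith
    refine (abs_sub _ _).trans ?_
    have h6 : 0 ≤ C1 * B0 * 2 * (1 + x) ^ k := by positivity
    nlinarith

/-- **mean squares** -/
theorem ms (φ : FD) (hφ : FG φ) (F : ℝ → ℝ) (hF : TF F) (hF0 : ∀ x, 0 ≤ F x) (δ θ : ℝ) (hδ : 0 < δ)
    (hδ1 : δ ≤ 1 / 8) (hA : Adm2 (1 / 2 + 3 * δ) θ) (ρ : ℝ → ℝ) (hρ : RH δ ρ) :
    ∃ (C L0 : ℝ) (k : ℕ), 0 < C ∧ ∀ (L x : ℝ) (Q : ℝ → ℝ) (B' : ℝ), L0 ≤ L → (x = 0 ∨ 1 ≤ x) →
      x ≤ L / 2 → Wt θ Q → Bd k Q B' →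
      EAg φ F (Real.exp L) (fun d => (Nfg φ L (KGg φ L (beg φ L d) (Ph ρ x)) d * Mdg φ 2 L Q d) ^ 2) ≤
        C * (1 + x) ^ k * B' ^ 2 := by
  have hθ := hA.hθ
  have hθ1 := hA.hθ1
  obtain ⟨_, w2, w3⟩ := Pool.Agent.H692R2.RZ2W0.W0
  obtain ⟨κ, hκ⟩ := w2 δ 1 hδ one_pos
  obtain ⟨ζ, hζ⟩ := w3 (-1 / 2) (-1 / 4) (by norm_num)
  obtain ⟨_, _, b, L4, _, hb, hC8⟩ := Pool.Agent.H285R3.RG_C8G.C8G φ hφ F hF
  have hη : ∃ u, Wt u (fun _ : ℝ => (0 : ℝ)) := ⟨0, contDiff_const, fun y hy => absurd rfl hy⟩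
  obtain ⟨C1, L1, k, hC1, hL1, ht⟩ := terms hφ F hF hF0 (1 / 2 + 3 * δ) θ hA b hb.le _ hη
  obtain ⟨C2, L2, hC2, hL2, hkg⟩ := kg_bd φ hφ δ b hδ hδ1 hb.le ρ hρ (k + 1)
  obtain ⟨C3, L3, hC3, hT⟩ := Pool.Agent.H115R6.RGTRUG.TRUG φ hφ δ 1 b 3 hδ one_pos hb.le κ hκ
  obtain ⟨K, hK, hcz⟩ := cz_bd hκ hζ k
  have h5 : ∃ L5 : ℝ, ∀ L : ℝ, L5 ≤ L → EAg φ F (Real.exp L) (fun _ => 1) ≤ |φ.δ * Ft F 0| + 1 := by
    have := hφ.ef1 F hF 1 one_pos
    simp only [one_mul] at this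
    have h6 := this.eventually (eventually_le_nhds (show φ.δ * Ft F 0 < |φ.δ * Ft F 0| + 1 by
      linarith [le_abs_self (φ.δ * Ft F 0)]))
    obtain ⟨L5, h7⟩ := eventually_atTop.1 h6
    exact ⟨L5, fun L hL => h7 L hL⟩
  obtain ⟨L5, hL5⟩ := h5
  set C5 := |φ.δ * Ft F 0| + 1 with hC5
  have hC50 : 0 < C5 := by positivity
  refine ⟨2 * (C1 * (C2 * (K * 2 ^ k)) ^ 2) + 2 * (C5 * (C3 * 3 * 2) ^ 2), max 4 (max L1 (max L2 (max L3 (max L4 L5)))),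
    4 * k + 2, by positivity, ?_⟩
  intro L x Q B' hL hx hxL hQ hQB
  have hL4 : 4 ≤ L := (le_max_left _ _).trans hL
  have hLL := (le_max_right _ _).trans hL
  have hLa : L1 ≤ L := (le_max_left _ _).trans hLL
  have hLL2 := (le_max_right _ _).trans hLL
  have hLb : L2 ≤ L := (le_max_left _ _).trans hLL2
  have hLL3 := (le_max_right _ _).trans hLL2
  have hLc : L3 ≤ L := (le_max_left _ _).trans hLL3
  have hLL4 := (le_max_right _ _).trans hLL3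
  have hLd : L4 ≤ L := (le_max_left _ _).trans hLL4
  have hLe : L5 ≤ L := (le_max_right _ _).trans hLL4
  have hL0 : 0 < L := by linarith
  have hx0 : 0 ≤ x := by rcases hx with h | h <;> linarith
  have hX : 0 < Real.exp L := Real.exp_pos L
  have hQBk : Bd k Q B' := bd_mono (by omega) hQB
  have hB'0 : 0 ≤ B' := (abs_nonneg _).trans (hQBk 0 (Nat.zero_le _) 0)
  set X := max x 1 with hXd
  have hX1 : 1 ≤ X := le_max_right _ _
  have hXx : 1 + X ≤ 2 * (1 + x) := by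
    rcases max_cases x 1 with h | h <;> rw [hXd, h.1] <;> linarith
  have hlow : -1 ≤ -(1 / (2 * X)) := by
    rw [neg_le_neg_iff, div_le_one (by linarith)]
    linarith
  have hβd : ∀ d : ℕ, F ((d : ℝ) / Real.exp L) ≠ 0 → |beg φ L d| ≤ b / L := fun d hd => (hC8 L hLd d hd).1
  have hs1 := hA.hs1
  -- main term
  have t1 := (ht L x (Ph ρ x) (cz κ ζ X) Q (-(1 / (2 * X))) (1 / 2 + 3 * δ) (C2 * (1 + x) ^ (k + 1))
    (K * (1 + X) ^ k) B' (beg φ L) hLa hx0 hxL (cd_ph hρ x) (gr_ph hδ hρ hx0) (cz_smooth hκ hζ X)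
    (fun y hy => cz_supp hκ hζ hX1 hy) hlow le_rfl (by positivity)
    (fun β hβ j hj y h1 h2 => hkg L β x hLb hβ hx hxL j hj y h1 (by linarith)) (hcz X hX1) hQ hQBk hβd).1
  have t1' : EAg φ F (Real.exp L) (fun d => (Ndg φ 2 L (fun y => KGg φ L (beg φ L d) (Ph ρ x) y * κ y) d *
      Mdg φ 2 L Q d) ^ 2) ≤ C1 * (C2 * (1 + x) ^ (k + 1) * (K * (1 + X) ^ k) * B') ^ 2 := by
    refine le_trans (le_of_eq ?_) t1
    congr 1
    funext d
    rw [Ndg_congr φ 2 hL0 (w := fun y => KGg φ L (beg φ L d) (Ph ρ x) y * κ y)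
      (v := fun y => KGg φ L (beg φ L d) (Ph ρ x) y * cz κ ζ X y) (fun y hy => by
        rw [cz_eq hζ (by linarith) hy])]
  -- truncation
  have t2 : EAg φ F (Real.exp L) (fun d => ((Nfg φ L (KGg φ L (beg φ L d) (Ph ρ x)) d -
      Ndg φ 2 L (fun y => KGg φ L (beg φ L d) (Ph ρ x) y * κ y) d) * Mdg φ 2 L Q d) ^ 2) ≤
      C5 * (C3 * 3 * 2 * B') ^ 2 := by
    have h1 : EAg φ F (Real.exp L) (fun d => ((Nfg φ L (KGg φ L (beg φ L d) (Ph ρ x)) d -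
      Ndg φ 2 L (fun y => KGg φ L (beg φ L d) (Ph ρ x) y * κ y) d) * Mdg φ 2 L Q d) ^ 2) ≤
      EAg φ F (Real.exp L) (fun _ => ((C3 * 3 * 2 * B') ^ 2) * 1) := by
      refine ef_mono hF hF0 hX ?_
      intro d hd hFd
      have a1 := hT L (beg φ L d) 3 (Ph ρ x) d hLc (hβd d hFd) (cd_ph hρ x).continuous.measurable
        (fun τ h => by unfold Ph; rw [hρ.zero τ h, mul_zero]) (fun τ => (ph_le hρ hx0 hxL hL4 τ).1)
      have a2 := md_le (φ := φ) hL0 (fun y hy => (hQ.supp y hy).2) (fun y => by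
        have := hQBk 0 (Nat.zero_le _) y
        simpa using this) 2 d
      have a4 : Real.exp (θ * L) + 1 ≤ 2 * Real.exp (θ * L) := by
        have : 1 ≤ Real.exp (θ * L) := Real.one_le_exp (by positivity)
        linarith
      have a3 : |(Nfg φ L (KGg φ L (beg φ L d) (Ph ρ x)) d -
          Ndg φ 2 L (fun y => KGg φ L (beg φ L d) (Ph ρ x) y * κ y) d) * Mdg φ 2 L Q d| ≤ C3 * 3 * 2 * B' := by
        rw [abs_mul]
        have hE : Real.exp (-(3 * L)) * Real.exp (θ * L) ≤ 1 := by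
          rw [← Real.exp_add]
          apply Real.exp_le_one_iff.2
          nlinarith
        calc _ ≤ C3 * 3 * Real.exp (-(3 * L)) * ((Real.exp (θ * L) + 1) * B') :=
              mul_le_mul a1 a2 (abs_nonneg _) (by positivity)
          _ ≤ C3 * 3 * Real.exp (-(3 * L)) * ((2 * Real.exp (θ * L)) * B') := by
              apply mul_le_mul_of_nonneg_left _ (by positivity)
              exact mul_le_mul_of_nonneg_right a4 hB'0
          _ = C3 * 3 * 2 * B' * (Real.exp (-(3 * L)) * Real.exp (θ * L)) := by ring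
          _ ≤ C3 * 3 * 2 * B' * 1 := mul_le_mul_of_nonneg_left hE (by positivity)
          _ = _ := by ring
      rw [mul_one, ← sq_abs]
      exact pow_le_pow_left₀ (abs_nonneg _) a3 2
    refine h1.trans ?_
    rw [ef_smul]
    have h2 := hL5 L hLe
    calc (C3 * 3 * 2 * B') ^ 2 * EAg φ F (Real.exp L) (fun _ => 1) ≤ (C3 * 3 * 2 * B') ^ 2 * C5 :=
          mul_le_mul_of_nonneg_left h2 (by positivity)
      _ = _ := by ring
  have main : EAg φ F (Real.exp L) (fun d => (Nfg φ L (KGg φ L (beg φ L d) (Ph ρ x)) d * Mdg φ 2 L Q d) ^ 2) ≤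
      2 * (EAg φ F (Real.exp L) (fun d => (Ndg φ 2 L (fun y => KGg φ L (beg φ L d) (Ph ρ x) y * κ y) d *
      Mdg φ 2 L Q d) ^ 2) + EAg φ F (Real.exp L) (fun d => ((Nfg φ L (KGg φ L (beg φ L d) (Ph ρ x)) d -
      Ndg φ 2 L (fun y => KGg φ L (beg φ L d) (Ph ρ x) y * κ y) d) * Mdg φ 2 L Q d) ^ 2)) := by
    rw [← ef_add hF hX, ← ef_smul]
    refine ef_mono hF hF0 hX ?_
    intro d _ _
    nlinarith [sq_nonneg (Ndg φ 2 L (fun y => KGg φ L (beg φ L d) (Ph ρ x) y * κ y) d * Mdg φ 2 L Q d -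
      (Nfg φ L (KGg φ L (beg φ L d) (Ph ρ x)) d -
      Ndg φ 2 L (fun y => KGg φ L (beg φ L d) (Ph ρ x) y * κ y) d) * Mdg φ 2 L Q d)]
  refine main.trans ?_
  have h1x : 1 ≤ 1 + x := by linarith
  have h3 : (1 + X) ^ k ≤ 2 ^ k * (1 + x) ^ k := by
    rw [← mul_pow]
    exact pow_le_pow_left₀ (by linarith) hXx k
  have h4 : C1 * (C2 * (1 + x) ^ (k + 1) * (K * (1 + X) ^ k) * B') ^ 2 ≤
      C1 * (C2 * (K * 2 ^ k)) ^ 2 * (1 + x) ^ (4 * k + 2) * B' ^ 2 := by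
    have h5 : C2 * (1 + x) ^ (k + 1) * (K * (1 + X) ^ k) * B' ≤
        C2 * (1 + x) ^ (k + 1) * (K * (2 ^ k * (1 + x) ^ k)) * B' := by gcongr
    calc C1 * (C2 * (1 + x) ^ (k + 1) * (K * (1 + X) ^ k) * B') ^ 2 ≤
        C1 * (C2 * (1 + x) ^ (k + 1) * (K * (2 ^ k * (1 + x) ^ k)) * B') ^ 2 := by gcongr
      _ = C1 * (C2 * (K * 2 ^ k)) ^ 2 * ((1 + x) ^ (k + 1) * (1 + x) ^ k) ^ 2 * B' ^ 2 := by ring
      _ = _ := by
          rw [← pow_add, ← pow_mul]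
          congr 3
          ring
  have h6 : C5 * (C3 * 3 * 2 * B') ^ 2 ≤ C5 * (C3 * 3 * 2) ^ 2 * (1 + x) ^ (4 * k + 2) * B' ^ 2 := by
    have h7 : 1 ≤ (1 + x) ^ (4 * k + 2) := one_le_pow₀ h1x
    calc C5 * (C3 * 3 * 2 * B') ^ 2 = C5 * (C3 * 3 * 2) ^ 2 * 1 * B' ^ 2 := by ring
      _ ≤ _ := by gcongr
  nlinarith [t1'.trans h4, t2.trans h6]

end

end Pool.Agent.V8H36.CV
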