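import Pool.Agent.V8H36.CV.CenW
import Pool.Agent.V8H36.CV.Ms
import Pool.Agent.H423R2.RGL.K.H228R2_RG_TRG
import Pool.Agent.H864R2.RG_FI4G

set_option autoImplicit false
set_option linter.all false
set_option maxHeartbeats 4000000

/-!
Central values, part 4: the mollified central value is not small for 7/8 of the discriminants.
-/

namespace Pool.Agent.V8H36.CV

open Finset Filter Topology MeasureTheory Pool.Agent.H306R2.RZ Pool.Agent.H306R2.RG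

noncomputable section

open Classical in
/-- counting by two majorants, the first sieved -/
theorem cnt_sieve (φ : FD) (hφ : FG φ) {P : ℕ} (hP : Odd P) (hPs : Squarefree P) {F : ℝ → ℝ} (hF : TF F)
    (hF0 : ∀ x, 0 ≤ F x) (L : ℝ) (A : Set ℕ) (hA : A ⊆ SFg φ) (u v : ℕ → ℝ) (hu : ∀ d, 0 ≤ u d)
    (hv : ∀ d, 0 ≤ v d) (h : ∀ d ∈ A, 1 ≤ u d + v d) :
    cnt F L A ≤ ESg φ P F (Real.exp L) u + EAg φ F (Real.exp L) v := by
  have hX : 0 < Real.exp L := Real.exp_pos L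
  rw [LnkB.ES1G φ hφ P hP hPs F hF (Real.exp L) hX u]
  obtain ⟨S, hS⟩ := Pool.Agent.H228R2.RGTR.fin_supp F hF (Real.exp L) hX
  rw [Pool.Agent.H228R2.RGTR.cnt_eq F L S hS, Pool.Agent.H228R2.RGTR.EF_eq φ F (Real.exp L) S hS,
    tsum_eq_sum (s := S) (fun d hd => by rw [hS d hd]; simp), ← add_div]
  apply div_le_div_of_nonneg_right _ hX.le
  rw [← Finset.sum_add_distrib]
  apply Finset.sum_le_sum
  intro d _
  have h7 := hF0 ((d : ℝ) / Real.exp L)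
  by_cases hd : d ∈ A
  · rw [Set.indicator_of_mem hd]
    obtain ⟨ho, hsq⟩ := hA hd
    have hp : ∀ p ∈ P.primeFactors, ¬ p ^ 2 ∣ d := by
      intro p hp hdiv
      have h3 := hsq p (by rwa [← sq])
      exact (Nat.prime_of_mem_primeFactors hp).one_lt.ne' (Nat.isUnit_iff.1 h3)
    rw [if_pos ⟨ho, hp⟩, if_pos ho]
    have := h d hd
    nlinarith
  · rw [Set.indicator_of_notMem hd]
    refine add_nonneg ?_ ?_
    · split_ifs
      · exact mul_nonneg h7 (hu d)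
      · exact le_rfl
    · split_ifs
      · exact mul_nonneg h7 (hv d)
      · exact le_rfl

lemma ESg_smul (φ : FD) (P : ℕ) (F : ℝ → ℝ) (X c : ℝ) (f : ℕ → ℝ) :
    ESg φ P F X (fun d => c * f d) = c * ESg φ P F X f := by
  unfold ESg
  rw [Finset.mul_sum]
  refine Finset.sum_congr rfl fun a _ => ?_
  rw [Pool.Agent.H568R3.TR1Gn.ef_smul (φ := φ) F (X / (a : ℝ) ^ 2) c (fun d => f (a ^ 2 * d))]
  ring

lemma ceg_bd (φ : FD) (hφ : FG φ) : 1 / 2 ≤ ceg φ ∧ |1 / ceg φ| ≤ 2 := by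
  have hη : |φ.η| ≤ 1 := by
    rcases hφ.hη with h | h | h <;> rw [h] <;> norm_num
  have hsq : (1 : ℝ) < Real.sqrt 2 := by
    rw [Real.lt_sqrt (by norm_num)]; norm_num
  have hη2 : |φ.η / Real.sqrt 2| < 1 := by
    rw [abs_div, abs_of_pos (show (0 : ℝ) < Real.sqrt 2 by linarith), div_lt_one (by linarith)]
    linarith
  have hη3 := abs_lt.1 hη2
  have h1 : 0 < 1 - φ.η / Real.sqrt 2 := by linarith [hη3.2]
  have h2 : 1 - φ.η / Real.sqrt 2 ≤ 2 := by linarith [hη3.1]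
  constructor
  · unfold ceg
    rw [div_le_div_iff₀ (by norm_num) h1]
    linarith
  · unfold ceg
    rw [one_div_one_div, abs_of_pos h1]
    exact h2

/-- **the centre** -/
theorem cen (t : ℝ) (ht : 0 < t) : ∃ (δ θ : ℝ) (ρ Q : ℝ → ℝ) (η : ℝ), 0 < δ ∧ δ ≤ 1 / 64 ∧
    Adm2 (1 / 2 + 3 * δ) θ ∧ RH δ ρ ∧ Wt θ Q ∧ 0 < η ∧
    ∀ (φ : FD) (_ : FG φ) (F : ℝ → ℝ) (_ : TF F) (_ : ∀ x, 0 ≤ F x) (P : ℕ) (_ : Odd P)
      (_ : Squarefree P) (ε : ℝ) (_ : 0 < ε), ∀ᶠ L : ℝ in atTop,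
      cnt F L (SFg φ ∩ {d | |Nfg φ L (KGg φ L (beg φ L d) (Ph ρ 0)) d * Mdg φ 2 L Q d| < η}) ≤
        PiP P * (φ.δ * Ft F 0) * (1 / 8 + t) + ε := by
  -- the parameter
  obtain ⟨s, hs0, hs1, hst⟩ : ∃ s : ℝ, 0 < s ∧ s < 1 / 10 ∧
      (1 + s) / (1 - s) ^ 2 * (1 / (2 - 2 * s) ^ 3) ≤ 1 / 8 + t := by
    have hc : ContinuousAt (fun s : ℝ => (1 + s) / (1 - s) ^ 2 * (1 / (2 - 2 * s) ^ 3)) 0 := by
      apply ContinuousAt.mul
      · exact (by fun_prop : ContinuousAt (fun s : ℝ => 1 + s) 0).div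
          (by fun_prop : ContinuousAt (fun s : ℝ => (1 - s) ^ 2) 0) (by norm_num)
      · exact continuousAt_const.div (by fun_prop : ContinuousAt (fun s : ℝ => (2 - 2 * s) ^ 3) 0) (by norm_num)
    have h1 : ∀ᶠ s in 𝓝 (0 : ℝ), (1 + s) / (1 - s) ^ 2 * (1 / (2 - 2 * s) ^ 3) < 1 / 8 + t := by
      apply hc.eventually (gt_mem_nhds _)
      norm_num
      linarith
    have h2 := h1.filter_mono (nhdsWithin_le_nhds (s := Set.Ioi (0 : ℝ)))
    have h3 : ∀ᶠ s in 𝓝[>] (0 : ℝ), s < 1 / 10 :=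
      (gt_mem_nhds (show (0 : ℝ) < 1 / 10 by norm_num) : ∀ᶠ s in 𝓝 (0 : ℝ), s < 1 / 10).filter_mono
        nhdsWithin_le_nhds
    obtain ⟨s, ⟨h4, h5⟩, h6⟩ := ((h2.and h3).and self_mem_nhdsWithin).exists
    exact ⟨s, h6, h5, h4.le⟩
  set θ' : ℝ := 1 / 2 - s with hθ'
  set θ : ℝ := 1 / 2 - s / 2 with hθd
  set δ : ℝ := s / 12 with hδd
  have hδ : 0 < δ := by positivity
  have hδ1 : δ < 1 / 8 := by rw [hδd]; linarith
  have hθ'0 : 0 < θ' := by rw [hθ']; linarith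
  have hθθ : θ' < θ := by rw [hθ', hθd]; linarith
  have hθ1 : θ < 1 / 2 := by rw [hθd]; linarith
  have hA : Adm2 (1 / 2 + 3 * δ) θ := by
    constructor <;> (try rw [hδd]) <;> (try rw [hθd]) <;> linarith
  obtain ⟨w1, w2, w3⟩ := Pool.Agent.H692R2.RZ2W0.W0
  obtain ⟨ρ, hρ⟩ := w1 δ hδ
  obtain ⟨κ, hκ⟩ := w2 δ 1 hδ one_pos
  obtain ⟨ζ, hζ⟩ := w3 (-1 / 2) (-1 / 4) (by norm_num)
  obtain ⟨χ, hχ⟩ := w3 θ' θ hθθ
  obtain ⟨o1, o2, o3⟩ := opt_num hθ'0 hθθ hθ1 hχ hδ hδ1 one_pos le_rfl hρ hκ hζ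
  set Q := Qc ζ (psi χ) with hQd
  set w := Wf ρ κ 0 with hw
  set μ := mn w Q with hμ
  set B := BB w Q w Q with hB
  have hQ : Wt θ Q := by
    apply Qc_wt hζ
    · unfold psi
      exact (contDiff_const.add (contDiff_const.mul contDiff_id)).mul hχ.smooth
    · intro t ht
      unfold psi
      rw [hχ.zero t ht, mul_zero]
  have hwW : Wt (1 / 2 + 3 * δ) w := by
    obtain ⟨h4a, -⟩ := Pool.Agent.H423R2.RGL.OldW.W4 δ 1 hδ one_pos le_rfl ρ κ hρ hκ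
    exact (h4a 0).1
  have hμ0 : 0 < μ := by
    refine lt_of_lt_of_le ?_ o1
    have : 1 < (1 + 2 * θ') ^ 3 := one_lt_pow₀ (by linarith) (by norm_num)
    linarith
  set m := μ / (2 * B) with hm
  have hm0 : 0 < m := by positivity
  -- the limit
  have hv : 1 - m * μ + m ^ 2 * B ≤ 1 / (2 - 2 * s) ^ 3 := by
    have e1 : 1 - m * μ + m ^ 2 * B = 1 - μ ^ 2 / (4 * B) := by
      rw [hm]
      field_simp
      ring
    rw [e1]
    have h1 : μ ^ 2 / (μ ^ 2 + 1 / 6 * μ) ≤ μ ^ 2 / (4 * B) :=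
      div_le_div_of_nonneg_left (sq_nonneg _) (by positivity) o3
    have h2 : μ ^ 2 / (μ ^ 2 + 1 / 6 * μ) = 1 - 1 / (6 * μ + 1) := by
      field_simp
      ring
    have h3 : (2 - 2 * s) ^ 3 ≤ 6 * μ + 1 := by
      have e2 : 1 + 2 * θ' = 2 - 2 * s := by rw [hθ']; ring
      rw [e2] at o1
      linarith
    have h4 : 1 / (6 * μ + 1) ≤ 1 / (2 - 2 * s) ^ 3 := by
      apply one_div_le_one_div_of_le _ h3
      apply pow_pos
      linarith
    linarith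
  refine ⟨δ, θ, ρ, Q, s / (2 * m), hδ, by rw [hδd]; linarith, hA, hρ, hQ, by positivity, ?_⟩
  intro φ hφ F hF hF0 P hP hPs ε hε
  obtain ⟨hce1, hce2⟩ := ceg_bd φ hφ
  have hce0 : 0 < ceg φ := by linarith
  set a := (1 + s) / (1 - s) ^ 2 with ha
  set b := (1 + 1 / s) * (2 * m) ^ 2 / (1 - s) ^ 2 with hb
  have h1s : 0 < 1 - s := by linarith
  have ha0 : 0 < a := by positivity
  have hb0 : 0 < b := by positivity
  -- the comparison
  obtain ⟨CK, LK, kK, hCK, hLK, hKEb⟩ := LnkB.KEG φ hφ F hF hF0 δ 1 θ hδ one_pos le_rfl hA κ hκ (0 + 1) (by norm_num)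
  obtain ⟨BP, hBP⟩ := Pool.Agent.H423R2.RGM.Gr_Ph kK δ ρ hρ 0
  obtain ⟨BQ, hBQ0, hBQ⟩ := Pool.Agent.H423R2.RZA.TR1n.bd_exists hQ.smooth hQ.supp kK
  have hE : ∀ L : ℝ, LK ≤ L → EAg φ F (Real.exp L) (fun d => ((Nfg φ L (KGg φ L (beg φ L d) (Ph ρ 0)) d -
        ceg φ * Ndg φ 2 L w d) * Mdg φ 2 L Q d) ^ 2) ≤ CK * BP ^ 2 * BQ ^ 2 / L ^ 2 := by
    intro L hL
    exact hKEb L (Ph ρ 0) Q BP BQ hL (hBP 0 le_rfl le_rfl).smooth
      (fun τ hτ => by unfold Ph; rw [hρ.zero τ hτ, mul_zero]) (hBP 0 le_rfl le_rfl).bd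
      (fun j => by
        obtain ⟨B', hB'⟩ := Pool.Agent.H423R2.RGM.Gr_Ph j δ ρ hρ 0
        exact ⟨B', (hB' 0 le_rfl le_rfl).bd j le_rfl⟩) hQ hBQ
  -- the limits
  have hlim := (LnkB.ES3G φ hφ P hP hPs F hF (1 / 2 + 3 * δ) θ hA w w Q Q hwW hwW hQ hQ m 0).1
  have hPi := Pool.Agent.H864R2.RGFI4G.PiP_nonneg P
  have hFt := Pool.Agent.H864R2.RGFI4G.Ft_nonneg hF0
  have hδφ := hφ.hδ
  have hl1 : ∀ᶠ L : ℝ in atTop, ESg φ P F (Real.exp L) (fun d => G0g φ 2 L m w Q d ^ 2) <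
      PiP P * (φ.δ * Ft F 0 * (1 - m * μ + m ^ 2 * B)) + ε / (2 * a) := by
    apply hlim.eventually (gt_mem_nhds _)
    have : 0 < ε / (2 * a) := by positivity
    linarith
  have hl2 : ∀ᶠ L : ℝ in atTop, b * (CK * BP ^ 2 * BQ ^ 2 / L ^ 2) < ε / 2 := by
    have h1 : Tendsto (fun L : ℝ => b * (CK * BP ^ 2 * BQ ^ 2 / L ^ 2)) atTop (𝓝 (b * 0)) := by
      apply Tendsto.const_mul
      exact tendsto_const_nhds.div_atTop (tendsto_pow_atTop (by norm_num))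
    rw [mul_zero] at h1
    exact h1.eventually (gt_mem_nhds (by positivity))
  filter_upwards [hl1, hl2, eventually_ge_atTop LK] with L g1 g2 g3
  have hX : 0 < Real.exp L := Real.exp_pos L
  have key := cnt_sieve φ hφ hP hPs hF hF0 L
    (SFg φ ∩ {d | |Nfg φ L (KGg φ L (beg φ L d) (Ph ρ 0)) d * Mdg φ 2 L Q d| < s / (2 * m)})
    Set.inter_subset_left (fun d => a * G0g φ 2 L m w Q d ^ 2)
    (fun d => b * ((Nfg φ L (KGg φ L (beg φ L d) (Ph ρ 0)) d - ceg φ * Ndg φ 2 L w d) * Mdg φ 2 L Q d) ^ 2)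
    (fun d => by positivity) (fun d => by positivity) (by
      intro d hd
      obtain ⟨-, hd2⟩ := hd
      have hd3 : |Nfg φ L (KGg φ L (beg φ L d) (Ph ρ 0)) d * Mdg φ 2 L Q d| < s / (2 * m) := hd2
      set N := Nfg φ L (KGg φ L (beg φ L d) (Ph ρ 0)) d
      set MQ := Mdg φ 2 L Q d with hMQ
      set Nd := Ndg φ 2 L w d with hNd
      have hG0 : G0g φ 2 L m w Q d = 1 - m * (Nd * MQ) := rfl
      rw [hG0]
      set Er := (N - ceg φ * Nd) * MQ with hEr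
      set G := 1 - m / ceg φ * (N * MQ) with hG
      have e1 : G - (1 - m * (Nd * MQ)) = -(m / ceg φ * Er) := by
        rw [hG, hEr]
        field_simp
        ring
      have hmc : |m / ceg φ| ≤ 2 * m := by
        rw [div_eq_mul_one_div, abs_mul, abs_of_pos hm0, mul_comm 2 m]
        exact mul_le_mul_of_nonneg_left hce2 hm0.le
      have h1 : |m / ceg φ * (N * MQ)| ≤ s := by
        rw [abs_mul]
        calc |m / ceg φ| * |N * MQ| ≤ (2 * m) * (s / (2 * m)) :=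
              mul_le_mul hmc hd3.le (abs_nonneg _) (by positivity)
          _ = s := by field_simp
      have h2 : 1 - s ≤ G := by
        rw [hG]
        have := (abs_le.1 h1).2
        linarith
      have h3 : (1 - s) ^ 2 ≤ G ^ 2 := pow_le_pow_left₀ h1s.le h2 2
      have h4 : (m / ceg φ * Er) ^ 2 ≤ (2 * m) ^ 2 * Er ^ 2 := by
        rw [mul_pow]
        apply mul_le_mul_of_nonneg_right _ (sq_nonneg _)
        rw [← sq_abs (m / ceg φ)]
        exact pow_le_pow_left₀ (abs_nonneg _) hmc 2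
      set g0 := 1 - m * (Nd * MQ) with hg0
      have h5 : G ^ 2 ≤ (1 + s) * g0 ^ 2 + (1 + 1 / s) * (m / ceg φ * Er) ^ 2 := by
        have e2 : G = g0 - m / ceg φ * Er := by linarith
        rw [e2]
        have e3 : (1 + s) * g0 ^ 2 + (1 + 1 / s) * (m / ceg φ * Er) ^ 2 - (g0 - m / ceg φ * Er) ^ 2 =
          (s * g0 + m / ceg φ * Er) ^ 2 / s := by
          field_simp
          ring
        have : 0 ≤ (s * g0 + m / ceg φ * Er) ^ 2 / s := by positivity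
        linarith
      have h6 : (1 + 1 / s) * (m / ceg φ * Er) ^ 2 ≤ (1 + 1 / s) * ((2 * m) ^ 2 * Er ^ 2) := by gcongr
      have e4 : a * g0 ^ 2 + b * Er ^ 2 = ((1 + s) * g0 ^ 2 + (1 + 1 / s) * ((2 * m) ^ 2 * Er ^ 2)) / (1 - s) ^ 2 := by
        rw [ha, hb]
        ring
      rw [e4, le_div_iff₀ (by positivity)]
      linarith)
  rw [ESg_smul, Pool.Agent.H568R3.TR1Gn.ef_smul] at key
  have h1 := mul_le_mul_of_nonneg_left g1.le ha0.le
  have h2 := mul_le_mul_of_nonneg_left (hE L g3) hb0.le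
  have h3 : a * (PiP P * (φ.δ * Ft F 0 * (1 - m * μ + m ^ 2 * B)) + ε / (2 * a)) ≤
      PiP P * (φ.δ * Ft F 0) * (1 / 8 + t) + ε / 2 := by
    have e5 : a * (PiP P * (φ.δ * Ft F 0 * (1 - m * μ + m ^ 2 * B)) + ε / (2 * a)) =
        PiP P * (φ.δ * Ft F 0) * (a * (1 - m * μ + m ^ 2 * B)) + ε / 2 := by
      field_simp
    rw [e5]
    have h4 : a * (1 - m * μ + m ^ 2 * B) ≤ 1 / 8 + t :=
      (mul_le_mul_of_nonneg_left hv ha0.le).trans hst
    have h5 : 0 ≤ PiP P * (φ.δ * Ft F 0) := by positivity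
    have := mul_le_mul_of_nonneg_left h4 h5
    linarith
  linarith

end

end Pool.Agent.V8H36.CV
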