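import Pool.Agent.H423R2.RGL.MRG
import Pool.Agent.H357R3.RZ2_CF1
import Pool.Agent.H357R3.RZ2_CF2
import Pool.Agent.H407R2.RZ_CF3

set_option autoImplicit false
set_option linter.all false
set_option maxHeartbeats 4000000

/-!
Central values, part 2: the optimal weights at the centre.
-/

namespace Pool.Agent.V8H36.CV

open Finset Filter Topology MeasureTheory Pool.Agent.H306R2.RZ Pool.Agent.H306R2.RG
open Pool.Agent.H357R3.RZC
open Pool.Agent.H357R3.RZ2_CF1 (IK_zero)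

noncomputable section

/-- the mollifier weight with second derivative `ψ` on `[0,∞)` -/
def Qc (ζ ψ : ℝ → ℝ) (t : ℝ) : ℝ := (1 - ζ t) * IK ψ (fun r => r) t

variable {ζ ψ : ℝ → ℝ} {θ : ℝ}

lemma Qc_wt (hζ : ST (-1 / 2) (-1 / 4) ζ) (hψ : ContDiff ℝ ((⊤ : ℕ∞) : WithTop ℕ∞) ψ)
    (hz : ∀ t, θ ≤ t → ψ t = 0) : Wt θ (Qc ζ ψ) := by
  refine ⟨?_, fun t h => ⟨?_, ?_⟩⟩
  · have h := Pool.Agent.H66R2.RZW3.qf_smooth ζ ψ hζ.smooth hψ (fun p => p.2) contDiff_snd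
    have h2 : ContDiff ℝ ((⊤ : ℕ∞) : WithTop ℕ∞) (fun t : ℝ => ((0 : ℝ), t)) := contDiff_const.prodMk contDiff_id
    have h3 := h.comp h2
    have e : Qc ζ ψ = (fun p : ℝ × ℝ => Real.exp (p.1 / 2) * (1 - ζ p.2) *
      ∫ r in (0 : ℝ)..2, r * ψ (r + p.2)) ∘ (fun t : ℝ => ((0 : ℝ), t)) := by
      funext t
      simp [Qc, IK]
    rw [e]
    exact h3
  · by_contra hlt
    push Not at hlt
    apply h
    unfold Qc
    rw [hζ.one t (by linarith)]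
    ring
  · by_contra hlt
    push Not at hlt
    apply h
    unfold Qc IK
    have : ∫ r in (0 : ℝ)..2, r * ψ (r + t) = ∫ r in (0 : ℝ)..2, (0 : ℝ) := by
      apply intervalIntegral.integral_congr
      intro r hr
      rw [Set.uIcc_of_le (by norm_num)] at hr
      simp only
      rw [hz (r + t) (by linarith [hr.1]), mul_zero]
    rw [this]
    simp

lemma Qc_eq (hζ : ST (-1 / 2) (-1 / 4) ζ) (t : ℝ) (ht : -(1 / 4) ≤ t) :
    Qc ζ ψ t = IK ψ (fun r => r) t := by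
  rw [Qc, hζ.zero t (by linarith), sub_zero, one_mul]

lemma Qc_derivs (hζ : ST (-1 / 2) (-1 / 4) ζ) (hθ : θ < 1 / 2) (hψ : ContDiff ℝ ((⊤ : ℕ∞) : WithTop ℕ∞) ψ)
    (hz : ∀ t, θ ≤ t → ψ t = 0) (t : ℝ) (ht : 0 ≤ t) :
    deriv (Qc ζ ψ) t = -IK ψ (fun _ => 1) t ∧ iteratedDeriv 2 (Qc ζ ψ) t = ψ t := by
  have hd1 : ∀ s : ℝ, -(1 / 4) < s → HasDerivAt (Qc ζ ψ) (-IK ψ (fun _ => 1) s) s := by
    intro s hs
    have h := hasDerivAt_IK ψ (fun r => r) (fun _ => 1) hψ (fun r => hasDerivAt_id r) continuous_const s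
      (hz _ (by linarith))
    have h2 : Qc ζ ψ =ᶠ[𝓝 s] fun u => IK ψ (fun r => r) u := by
      filter_upwards [Ioi_mem_nhds hs] with u hu
      exact Qc_eq hζ u (le_of_lt hu)
    refine (h.congr_of_eventuallyEq h2).congr_deriv ?_
    ring
  refine ⟨(hd1 t (by linarith)).deriv, ?_⟩
  rw [iteratedDeriv_succ, iteratedDeriv_one]
  have h3 : deriv (Qc ζ ψ) =ᶠ[𝓝 t] fun u => -IK ψ (fun _ => 1) u := by
    filter_upwards [Ioi_mem_nhds (by linarith : -(1 / 4 : ℝ) < t)] with u hu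
    exact (hd1 u hu).deriv
  rw [h3.deriv_eq]
  have h := (hasDerivAt_IK ψ (fun _ => 1) (fun _ => 0) hψ (fun r => hasDerivAt_const r 1) continuous_const t
      (hz _ (by linarith))).neg
  refine h.deriv.trans ?_
  simp [IK]

variable {δ e : ℝ} {ρ κ : ℝ → ℝ}

lemma mn_c (hδ : 0 < δ) (hδ1 : δ < 1 / 8) (he : 0 < e) (hρ : RH δ ρ) (hκ : KP δ e κ)
    (hζ : ST (-1 / 2) (-1 / 4) ζ) (hθ : θ < 1 / 2) (hψ : ContDiff ℝ ((⊤ : ℕ∞) : WithTop ℕ∞) ψ)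
    (hz : ∀ t, θ ≤ t → ψ t = 0) :
    mn (Wf ρ κ 0) (Qc ζ ψ) = ∫ u in (0 : ℝ)..1, (1 + 2 * u) * ψ u := by
  have a1 := w_WW_zero hδ hδ1 he hρ hκ (Ga_even 0) (Ga_smooth 0)
  rw [← Wf_eq, int_Ga] at a1
  have hS : Sx 0 (1 / 2) = 1 / 2 := by
    unfold Sx; simp
  have a2 : Wf ρ κ 0 0 = Ga 0 (1 / 2) := by
    rw [Wf_eq]; exact w_zero hδ hδ1 he hρ hκ
  have c1 := (Qc_derivs hζ hθ hψ hz 0 le_rfl).1
  have c3 := Qc_eq (ψ := ψ) hζ 0 (by norm_num)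
  have hz1 : ∀ u, 1 ≤ u → ψ u = 0 := fun u hu => hz u (by linarith)
  rw [mn, a1, a2, c1, c3, hS, IK_zero ψ _ hψ.continuous (by fun_prop) hz1,
    IK_zero ψ _ hψ.continuous (by fun_prop) hz1]
  have hG : Ga 0 (1 / 2) = 2 := by
    unfold Ga; simp
  rw [hG]
  have hψc := hψ.continuous
  have e1 : ∫ u in (0 : ℝ)..1, (1 + 2 * u) * ψ u = (∫ u in (0 : ℝ)..1, ψ u * 1) +
      2 * ∫ u in (0 : ℝ)..1, ψ u * u := by
    rw [← intervalIntegral.integral_const_mul, ← intervalIntegral.integral_add]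
    · apply intervalIntegral.integral_congr
      intro u _
      simp only
      ring
    · exact (by fun_prop : Continuous fun u => ψ u * 1).intervalIntegrable _ _
    · exact (by fun_prop : Continuous fun u => 2 * (ψ u * u)).intervalIntegrable _ _
  rw [e1]
  simp
  ring

lemma BB_c (hδ : 0 < δ) (hδ1 : δ < 1 / 8) (he : 0 < e) (he1 : e ≤ 1) (hρ : RH δ ρ) (hκ : KP δ e κ)
    (hζ : ST (-1 / 2) (-1 / 4) ζ) (hθ : θ < 1 / 2) (hψ : ContDiff ℝ ((⊤ : ℕ∞) : WithTop ℕ∞) ψ)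
    (hz : ∀ t, θ ≤ t → ψ t = 0) :
    BB (Wf ρ κ 0) (Qc ζ ψ) (Wf ρ κ 0) (Qc ζ ψ) =
      (mn (Wf ρ κ 0) (Qc ζ ψ) ^ 2 + 1 / 6 * ∫ u in (0 : ℝ)..1, ψ u ^ 2) / 4 := by
  obtain ⟨hw, -, -, -, -⟩ := Pool.Agent.H423R2.RGL.OldW.W4 δ e hδ he he1 ρ κ hρ hκ
  have hq := Qc_wt hζ hψ hz
  have n1 : Pool.Agent.H407R2.RZCF3.Nice (al (Wf ρ κ 0) (Qc ζ ψ)) :=
    Pool.Agent.H407R2.RZCF3.Wt.nice (hw 0).1 (by linarith) hq (by linarith)
  have key : ∀ y t, 0 ≤ y → y ≤ 1 → 0 ≤ t → al (Wf ρ κ 0) (Qc ζ ψ) y t -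
      al (Wf ρ κ 0) (Qc ζ ψ) (1 - y) t = 2 * (fun r : ℝ => r) (1 / 2 - y) * ψ t := by
    intro y t hy hy1 ht
    have a1 := w_WW hδ he hρ hκ (Ga_even 0) (Ga_smooth 0) hy hy1
    have a2 := w_deriv hδ he hρ hκ (Ga_even 0) (Ga_smooth 0) (Ga_deriv 0) hy hy1
    rw [← Wf_eq, int_Ga] at a1
    rw [← Wf_eq] at a2
    have c1 := (Qc_derivs hζ hθ hψ hz t ht).2
    have h : al (Wf ρ κ 0) (Qc ζ ψ) y t - al (Wf ρ κ 0) (Qc ζ ψ) (1 - y) t =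
        iteratedDeriv 2 (Qc ζ ψ) t * (WW (Wf ρ κ 0) y - WW (Wf ρ κ 0) (1 - y)) +
        Qc ζ ψ t * (deriv (Wf ρ κ 0) y - deriv (Wf ρ κ 0) (1 - y)) := by
      rw [al, al]; ring
    have hS : Sx 0 (1 / 2 - y) = 1 / 2 - y := by
      unfold Sx; simp
    rw [h, a1, a2, c1, hS]
    simp
    ring
  have k1 := Pool.Agent.H407R2.RZCF3.core n1 n1 (fun r => r) (fun r => r) ψ continuous_id continuous_id
    (fun r => rfl) (fun r => rfl) key key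
  have hBB : BB (Wf ρ κ 0) (Qc ζ ψ) (Wf ρ κ 0) (Qc ζ ψ) = (mn (Wf ρ κ 0) (Qc ζ ψ) *
    mn (Wf ρ κ 0) (Qc ζ ψ) + Pool.Agent.H407R2.RZCF3.II (al (Wf ρ κ 0) (Qc ζ ψ)) (al (Wf ρ κ 0) (Qc ζ ψ))) / 4 :=
    rfl
  have e1 : ∫ r in (0 : ℝ)..(1 / 2), r * r = 1 / 24 := by
    have : (fun r : ℝ => r * r) = fun r => r ^ 2 := by funext r; ring
    rw [this, integral_pow]
    norm_num
  rw [hBB, k1, e1]
  ring

/-- the second derivative of the optimal weight -/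
def psi (χ : ℝ → ℝ) (t : ℝ) : ℝ := (1 + 2 * t) * χ t

/-- the numbers: the mean and the mean square -/
lemma opt_num {θ' : ℝ} {χ : ℝ → ℝ} (hθ' : 0 < θ') (hθθ : θ' < θ) (hθ : θ < 1 / 2) (hχ : ST θ' θ χ)
    (hδ : 0 < δ) (hδ1 : δ < 1 / 8) (he : 0 < e) (he1 : e ≤ 1) (hρ : RH δ ρ) (hκ : KP δ e κ)
    (hζ : ST (-1 / 2) (-1 / 4) ζ) :
    ((1 + 2 * θ') ^ 3 - 1) / 6 ≤ mn (Wf ρ κ 0) (Qc ζ (psi χ)) ∧
    0 < BB (Wf ρ κ 0) (Qc ζ (psi χ)) (Wf ρ κ 0) (Qc ζ (psi χ)) ∧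
    4 * BB (Wf ρ κ 0) (Qc ζ (psi χ)) (Wf ρ κ 0) (Qc ζ (psi χ)) ≤
      mn (Wf ρ κ 0) (Qc ζ (psi χ)) ^ 2 + 1 / 6 * mn (Wf ρ κ 0) (Qc ζ (psi χ)) := by
  have hψ : ContDiff ℝ ((⊤ : ℕ∞) : WithTop ℕ∞) (psi χ) := by
    unfold psi
    exact (contDiff_const.add (contDiff_const.mul contDiff_id)).mul hχ.smooth
  have hz : ∀ t, θ ≤ t → psi χ t = 0 := fun t ht => by unfold psi; rw [hχ.zero t ht, mul_zero]
  have hm := mn_c hδ hδ1 he hρ hκ hζ hθ hψ hz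
  have hB := BB_c hδ hδ1 he he1 hρ hκ hζ hθ hψ hz
  have hχc := hχ.smooth.continuous
  have e0 : ∀ u : ℝ, (1 + 2 * u) * psi χ u = (1 + 2 * u) ^ 2 * χ u := fun u => by unfold psi; ring
  have hlow : ((1 + 2 * θ') ^ 3 - 1) / 6 ≤ mn (Wf ρ κ 0) (Qc ζ (psi χ)) := by
    rw [hm]
    simp only [e0]
    have c1 : Continuous fun u : ℝ => (1 + 2 * u) ^ 2 * χ u := by fun_prop
    have h1 : ∫ u in (0 : ℝ)..1, (1 + 2 * u) ^ 2 * χ u = (∫ u in (0 : ℝ)..θ', (1 + 2 * u) ^ 2 * χ u) +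
        ∫ u in θ'..1, (1 + 2 * u) ^ 2 * χ u :=
      (intervalIntegral.integral_add_adjacent_intervals (c1.intervalIntegrable _ _)
        (c1.intervalIntegrable _ _)).symm
    have h2 : ∫ u in (0 : ℝ)..θ', (1 + 2 * u) ^ 2 * χ u = ∫ u in (0 : ℝ)..θ', (1 + 2 * u) ^ 2 := by
      apply intervalIntegral.integral_congr
      intro u hu
      rw [Set.uIcc_of_le hθ'.le] at hu
      simp only
      rw [hχ.one u hu.2, mul_one]
    have h3 : ∫ u in (0 : ℝ)..θ', (1 + 2 * u) ^ 2 = ((1 + 2 * θ') ^ 3 - 1) / 6 := by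
      have h4 : ∀ x ∈ Set.uIcc (0 : ℝ) θ', HasDerivAt (fun u : ℝ => (1 + 2 * u) ^ 3 / 6) ((1 + 2 * x) ^ 2) x := by
        intro x _
        have h5 : HasDerivAt (fun u : ℝ => 1 + 2 * u) 2 x := by
          simpa using ((hasDerivAt_id x).const_mul 2).const_add 1
        have h6 := (h5.pow 3).div_const 6
        refine h6.congr_deriv ?_
        ring
      have h7 : Continuous fun x : ℝ => (1 + 2 * x) ^ 2 := by fun_prop
      rw [intervalIntegral.integral_eq_sub_of_hasDerivAt h4 (h7.intervalIntegrable _ _)]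
      ring
    have h4 : 0 ≤ ∫ u in θ'..1, (1 + 2 * u) ^ 2 * χ u := by
      apply intervalIntegral.integral_nonneg (by linarith)
      intro u _
      exact mul_nonneg (sq_nonneg _) (hχ.nonneg u)
    rw [h1, h2, h3]
    linarith
  have hm0 : 0 < mn (Wf ρ κ 0) (Qc ζ (psi χ)) := by
    refine lt_of_lt_of_le ?_ hlow
    have : 1 < (1 + 2 * θ') ^ 3 := one_lt_pow₀ (by linarith) (by norm_num)
    linarith
  have hsq : ∫ u in (0 : ℝ)..1, psi χ u ^ 2 ≤ mn (Wf ρ κ 0) (Qc ζ (psi χ)) := by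
    rw [hm]
    have c1 : Continuous fun u : ℝ => psi χ u ^ 2 := hψ.continuous.pow 2
    have c2 : Continuous fun u : ℝ => (1 + 2 * u) * psi χ u := (by fun_prop : Continuous fun u : ℝ => 1 + 2 * u).mul hψ.continuous
    apply intervalIntegral.integral_mono_on (by norm_num) (c1.intervalIntegrable _ _) (c2.intervalIntegrable _ _)
    intro u hu
    have h1 := hχ.nonneg u
    have h2 := hχ.le_one u
    rw [e0]
    unfold psi
    rw [mul_pow]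
    apply mul_le_mul_of_nonneg_left _ (sq_nonneg _)
    nlinarith
  have hsq0 : 0 ≤ ∫ u in (0 : ℝ)..1, psi χ u ^ 2 :=
    intervalIntegral.integral_nonneg (by norm_num) fun u _ => sq_nonneg _
  refine ⟨hlow, ?_, ?_⟩
  · rw [hB]
    positivity
  · rw [hB]
    linarith

end

end Pool.Agent.V8H36.CV
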