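import Pool.Agent.V8H36.CV.Pf
import Pool.Agent.V8H36.CV.Cen
import Pool.Agent.H614R2.RZ2_FI2
import Pool.Agent.H692R2.RZ2_FI3
import Pool.Agent.H423R2.RGL.DEN

set_option autoImplicit false
set_option linter.all false
set_option maxHeartbeats 4000000

/-!
Central values, part 6: the size of the central value in terms of the sum over primes, for a family.
-/

namespace Pool.Agent.V8H36.CV

open Finset Filter Topology MeasureTheory Pool.Agent.H306R2.RZ Pool.Agent.H306R2.RG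
open Pool.Agent.R318.QL
open Pool.Agent.R318.QL.CL (zL wL sL YY zL_facts AX mem_AX AX_card)
open Pool.Agent.W169.QP (cnt_mono cnt_union markov)

noncomputable section

/-- the upper bound -/
def Up (φ : FD) (L A : ℝ) (d : ℕ) : Prop :=
  |LLg φ d (1 / 2)| ≤ Real.exp (1 / 2 * Real.log L + SS φ L d + A * Real.log (Real.log L))

/-- the lower bound -/
def Lo (φ : FD) (L A : ℝ) (d : ℕ) : Prop :=
  Real.exp (1 / 2 * Real.log L + SS φ L d - A * Real.log (Real.log L)) ≤ |LLg φ d (1 / 2)|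

theorem rel (φ : FD) (hfam : Fam φ) (hφ : FG φ) (hC : CG φ) (t : ℝ) (ht : 0 < t) (F : ℝ → ℝ) (hF : TF F)
    (hF0 : ∀ x, 0 ≤ F x) : ∃ A : ℝ, 0 < A ∧
      (∀ ε : ℝ, 0 < ε → ∀ᶠ L : ℝ in atTop, cnt F L (SFg φ ∩ {d | ¬ Up φ L A d}) ≤ ε) ∧
      ∀ P : ℕ, Odd P → Squarefree P → ∀ ε : ℝ, 0 < ε → ∀ᶠ L : ℝ in atTop,
        cnt F L (SFg φ ∩ {d | ¬ Lo φ L A d}) ≤ PiP P * (φ.δ * Ft F 0) * (1 / 8 + t) + ε := by
  obtain ⟨δ, θ, ρ, Q, η, hδ, hδ1, hA, hρ, hQ, hη, hcen⟩ := cen t ht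
  obtain ⟨A, hA1, hA2⟩ := cross φ hfam hφ hC F hF hF0 δ θ hδ hδ1 hA ρ hρ Q hQ
  refine ⟨(A : ℝ) + 4, by positivity, ?_, ?_⟩
  · intro ε hε
    filter_upwards [hA1 (ε / 2) (by positivity), pf_rel φ hfam F hF hF0 (ε / 2) (by positivity), xL_facts]
      with L h1 h2 h3
    obtain ⟨hL4, hlog, hx, hxL, -⟩ := h3
    refine (cnt_supp hF hF0 L (B := (SFg φ ∩ {d | ¬ (|LLg φ d (1 / 2)| ≤ Real.log L ^ A * Real.exp (PF φ L d (xL L / L)))}) ∪
      (SFg φ ∩ {d | ¬ (|PF φ L d (xL L / L) - (1 / 2 * Real.log L + SS φ L d)| ≤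
      4 * Real.log (Real.log L))})) ?_).trans ?_
    · intro d hd _
      by_contra hB
      rw [Set.mem_union, not_or] at hB
      obtain ⟨a1, a2⟩ := hB
      have a3 : |LLg φ d (1 / 2)| ≤ Real.log L ^ A * Real.exp (PF φ L d (xL L / L)) := by
        by_contra h
        exact a1 ⟨hd.1, h⟩
      have a4 : |PF φ L d (xL L / L) - (1 / 2 * Real.log L + SS φ L d)| ≤ 4 * Real.log (Real.log L) := by
        by_contra h
        exact a2 ⟨hd.1, h⟩
      apply hd.2
      show |LLg φ d (1 / 2)| ≤ Real.exp _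
      refine a3.trans ?_
      have e1 : Real.log L ^ A = Real.exp (A * Real.log (Real.log L)) := by
        rw [Real.exp_nat_mul, Real.exp_log (by linarith)]
      rw [e1, ← Real.exp_add]
      apply Real.exp_le_exp.2
      have := (abs_le.1 a4).2
      linarith
    · refine (cnt_union hF hF0 L _ _).trans ?_
      linarith
  · intro P hP hPs ε hε
    filter_upwards [hA2 η hη (ε / 3) (by positivity), pf_rel φ hfam F hF hF0 (ε / 3) (by positivity),
      hcen φ hφ F hF hF0 P hP hPs (ε / 3) (by positivity), xL_facts] with L h1 h2 h3 h4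
    obtain ⟨hL4, hlog, hx, hxL, -⟩ := h4
    refine (cnt_supp hF hF0 L (B :=
      (SFg φ ∩ {d | |Nfg φ L (KGg φ L (beg φ L d) (Ph ρ 0)) d * Mdg φ 2 L Q d| < η}) ∪
      ((SFg φ ∩ {d | η ≤ |Nfg φ L (KGg φ L (beg φ L d) (Ph ρ 0)) d * Mdg φ 2 L Q d| ∧
          ¬ (Real.exp (PF φ L d (xL L / L)) ≤ Real.log L ^ A * |LLg φ d (1 / 2)|)}) ∪
      (SFg φ ∩ {d | ¬ (|PF φ L d (xL L / L) - (1 / 2 * Real.log L + SS φ L d)| ≤
      4 * Real.log (Real.log L))}))) ?_).trans ?_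
    · intro d hd _
      by_contra hB
      rw [Set.mem_union, Set.mem_union, not_or, not_or] at hB
      obtain ⟨a0, a1, a2⟩ := hB
      have a5 : η ≤ |Nfg φ L (KGg φ L (beg φ L d) (Ph ρ 0)) d * Mdg φ 2 L Q d| := by
        by_contra h
        exact a0 ⟨hd.1, not_le.1 h⟩
      have a3 : Real.exp (PF φ L d (xL L / L)) ≤ Real.log L ^ A * |LLg φ d (1 / 2)| := by
        by_contra h
        exact a1 ⟨hd.1, a5, h⟩
      have a4 : |PF φ L d (xL L / L) - (1 / 2 * Real.log L + SS φ L d)| ≤ 4 * Real.log (Real.log L) := by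
        by_contra h
        exact a2 ⟨hd.1, h⟩
      apply hd.2
      show Real.exp _ ≤ |LLg φ d (1 / 2)|
      have e1 : Real.log L ^ A = Real.exp (A * Real.log (Real.log L)) := by
        rw [Real.exp_nat_mul, Real.exp_log (by linarith)]
      rw [e1] at a3
      have h5 : Real.exp (PF φ L d (xL L / L) - A * Real.log (Real.log L)) ≤ |LLg φ d (1 / 2)| := by
        rw [Real.exp_sub, div_le_iff₀ (Real.exp_pos _)]
        linarith
      refine le_trans (Real.exp_le_exp.2 ?_) h5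
      have := (abs_le.1 a4).1
      linarith
    · refine (cnt_union hF hF0 L _ _).trans ?_
      have := cnt_union hF hF0 L (SFg φ ∩ {d | η ≤ |Nfg φ L (KGg φ L (beg φ L d) (Ph ρ 0)) d * Mdg φ 2 L Q d| ∧
          ¬ (Real.exp (PF φ L d (xL L / L)) ≤ Real.log L ^ A * |LLg φ d (1 / 2)|)})
          (SFg φ ∩ {d | ¬ (|PF φ L d (xL L / L) - (1 / 2 * Real.log L + SS φ L d)| ≤
            4 * Real.log (Real.log L))})
      linarith

/-! ### counting -/

lemma scale_F {F : ℝ → ℝ} (hF : TF F) {r : ℝ} (hr : 0 < r) :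
    TF (fun x => F (r * x)) ∧ Ft (fun x => F (r * x)) 0 = Ft F 0 / r := by
  have hsub : tsupport (fun x => F (r * x)) ⊆ (fun x => r * x) ⁻¹' tsupport F := by
    apply closure_minimal
    · intro x hx
      exact subset_tsupport F hx
    · exact (isClosed_tsupport F).preimage (continuous_const.mul continuous_id)
  refine ⟨⟨hF.smooth.comp (contDiff_const.mul contDiff_id), ?_, ?_⟩, ?_⟩
  · exact hF.cpt.comp_homeomorph (Homeomorph.mulLeft₀ r hr.ne')
  · intro x hx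
    have h1 := hF.pos (hsub hx)
    exact (mul_pos_iff_of_pos_left hr).1 h1
  · have h1 : ∀ G : ℝ → ℝ, Ft G 0 = ∫ x, G x := by
      intro G
      unfold Ft cas
      simp
    rw [h1, h1]
    have h2 := MeasureTheory.Measure.integral_comp_mul_left F r
    rw [h2, abs_of_pos (inv_pos.2 hr), smul_eq_mul]
    ring

/-- a weight for the window `[η/r, 1/r]` -/
lemma bumpR (η : ℝ) (h0 : 0 < η) (h1 : η < 1) {r : ℝ} (hr : 0 < r) : ∃ F : ℝ → ℝ, TF F ∧ (∀ x, 0 ≤ F x) ∧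
    (∀ x, η / r ≤ x → x ≤ 1 / r → 1 ≤ F x) ∧ Ft F 0 ≤ (1 + η) / r := by
  obtain ⟨F, hF, hF0, hF1, hFt⟩ := Pool.Agent.H692R2.RZ2FI3.FI3 η h0 h1
  obtain ⟨s1, s2⟩ := scale_F hF hr
  refine ⟨fun x => F (r * x), s1, fun x => hF0 _, fun x h2 h3 => ?_, ?_⟩
  · apply hF1
    · rw [div_le_iff₀ hr] at h2
      linarith
    · rw [le_div_iff₀ hr] at h3
      linarith
  · rw [s2]
    exact div_le_div_of_nonneg_right hFt hr.le

open Classical in
lemma cnt_to_card {F : ℝ → ℝ} (hF : TF F) (hF0 : ∀ x, 0 ≤ F x) {η : ℝ} (hη : 0 < η) {r : ℕ} (hr : 1 ≤ r)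
    (hF1 : ∀ x, η / r ≤ x → x ≤ 1 / r → 1 ≤ F x) (φ : FD) (hdp : ∀ d, φ.A d → 0 < d) (X : ℕ) (hX : 0 < X) (B : Set ℕ) :
    (((AX φ (X / r)).filter (fun d => d ∈ B)).card : ℝ) ≤ η * (X / r) + X * cnt F (Real.log X) (SFg φ ∩ B) := by
  have hr0 : (0 : ℝ) < r := by exact_mod_cast hr
  have hX0 : (0 : ℝ) < X := by exact_mod_cast hX
  have hXe : Real.exp (Real.log X) = X := Real.exp_log hX0
  set U := (AX φ (X / r)).filter (fun d => d ∈ B) with hU
  set U1 := U.filter (fun d : ℕ => (d : ℝ) < η * (X / r)) with hU1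
  set U2 := U.filter (fun d : ℕ => ¬ (d : ℝ) < η * (X / r)) with hU2
  have hc : U.card = U1.card + U2.card := by
    have h := Finset.card_filter_add_card_filter_not (s := U) (fun d : ℕ => (d : ℝ) < η * (X / r))
    rw [hU1, hU2]
    convert h.symm
  have c1 : (U1.card : ℝ) ≤ η * (X / r) := by
    have h1 : U1 ⊆ Finset.Icc 1 ⌊η * ((X : ℝ) / r)⌋₊ := by
      intro d hd
      rw [hU1, Finset.mem_filter, hU, Finset.mem_filter, mem_AX] at hd
      rw [Finset.mem_Icc]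
      exact ⟨hdp d hd.1.1.2.1, Nat.le_floor hd.2.le⟩
    have h2 := Finset.card_le_card h1
    rw [Nat.card_Icc, Nat.add_sub_cancel] at h2
    calc (U1.card : ℝ) ≤ (⌊η * ((X : ℝ) / r)⌋₊ : ℝ) := by exact_mod_cast h2
      _ ≤ _ := Nat.floor_le (by positivity)
  have c2 : (U2.card : ℝ) ≤ X * cnt F (Real.log X) (SFg φ ∩ B) := by
    obtain ⟨S, hS⟩ := Pool.Agent.H228R2.RGTR.fin_supp F hF (Real.exp (Real.log X)) (Real.exp_pos _)
    rw [Pool.Agent.H228R2.RGTR.cnt_eq F _ S hS, hXe, mul_div_cancel₀ _ hX0.ne']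
    have hsub : U2 ⊆ S := by
      intro d hd
      by_contra h
      have h1 := hS d h
      rw [hXe] at h1
      rw [hU2, Finset.mem_filter, hU, Finset.mem_filter, mem_AX] at hd
      have h2 : (1 : ℝ) ≤ F ((d : ℝ) / X) := by
        apply hF1
        · rw [div_le_div_iff₀ hr0 hX0]
          have h3 := not_lt.1 hd.2
          rw [mul_div_assoc', div_le_iff₀ hr0] at h3
          exact h3
        · rw [div_le_div_iff₀ hX0 hr0, one_mul]
          have h4 : d * r ≤ X := (Nat.le_div_iff_mul_le hr).1 hd.1.1.1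
          exact_mod_cast h4
      linarith
    calc (U2.card : ℝ) = ∑ d ∈ U2, (1 : ℝ) := by simp
      _ ≤ ∑ d ∈ U2, (SFg φ ∩ B).indicator (fun d => F ((d : ℝ) / X)) d := by
          apply Finset.sum_le_sum
          intro d hd
          rw [hU2, Finset.mem_filter, hU, Finset.mem_filter, mem_AX] at hd
          rw [Set.indicator_of_mem (show d ∈ SFg φ ∩ B from ⟨hd.1.1.2, hd.1.2⟩)]
          apply hF1
          · rw [div_le_div_iff₀ hr0 hX0]
            have h3 := not_lt.1 hd.2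
            rw [mul_div_assoc', div_le_iff₀ hr0] at h3
            exact h3
          · rw [div_le_div_iff₀ hX0 hr0, one_mul]
            have h4 : d * r ≤ X := (Nat.le_div_iff_mul_le hr).1 hd.1.1.1
            exact_mod_cast h4
      _ ≤ ∑ d ∈ S, (SFg φ ∩ B).indicator (fun d => F ((d : ℝ) / X)) d :=
          Finset.sum_le_sum_of_subset_of_nonneg hsub fun d _ _ => Set.indicator_nonneg (fun _ _ => hF0 _) _
  have : (U.card : ℝ) = U1.card + U2.card := by exact_mod_cast hc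
  linarith

/-- the number of the members of the family -/
lemma AX_low (φ : FD) (hfam : Fam φ) {r : ℕ} (hr : 1 ≤ r) (c : ℝ) (hc : c < φ.δ * (8 / Real.pi ^ 2)) (hc0 : 0 ≤ c) :
    ∀ᶠ X : ℕ in atTop, c * ((X : ℝ) / r) - c ≤ ((AX φ (X / r)).card : ℝ) := by
  have h1 := (LnkC.DEN φ hfam).eventually (lt_mem_nhds hc)
  have h2 : Tendsto (fun X : ℕ => X / r) atTop atTop := Nat.tendsto_div_const_atTop (by omega)
  filter_upwards [h2.eventually h1, h2.eventually (eventually_gt_atTop 0)] with X hX hX0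
  have hXr : (0 : ℝ) < ((X / r : ℕ) : ℝ) := by exact_mod_cast hX0
  rw [lt_div_iff₀ hXr, ← AX_card] at hX
  have h3 : (X : ℝ) / r - 1 ≤ ((X / r : ℕ) : ℝ) := by
    have hr0 : (0 : ℝ) < r := by exact_mod_cast hr
    have h4 : X < (X / r + 1) * r := by
      have := Nat.lt_div_mul_add (a := X) (b := r) (by omega)
      nlinarith
    have h5 : (X : ℝ) < (((X / r : ℕ) : ℝ) + 1) * r := by exact_mod_cast h4
    rw [sub_le_iff_le_add, div_le_iff₀ hr0]
    exact h5.le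
  have h4 : c * ((X : ℝ) / r - 1) ≤ c * ((X / r : ℕ) : ℝ) := mul_le_mul_of_nonneg_left h3 hc0
  linarith

open Classical in
/-- **the counts** -/
theorem fam_count (φ : FD) (hfam : Fam φ) (hφ : FG φ) (hC : CG φ) (t : ℝ) (ht : 0 < t) :
    ∃ A : ℝ, 0 < A ∧ ∀ᶠ X : ℕ in atTop,
      (((AX φ (X / φ.r)).filter (fun d => ¬ Up φ (Real.log X) A d)).card : ℝ) ≤ t * (AX φ (X / φ.r)).card ∧
      (((AX φ (X / φ.r)).filter (fun d => ¬ Lo φ (Real.log X) A d)).card : ℝ) ≤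
        (1 / 8 + t) * (AX φ (X / φ.r)).card := by
  have hr := hφ.hr.1
  have hr0 : (0 : ℝ) < φ.r := by exact_mod_cast hr
  have hδφ := hφ.hδ
  set D : ℝ := φ.δ * (8 / Real.pi ^ 2) with hD
  have hpi := Real.pi_pos
  have hD0 : 0 < D := by positivity
  -- the parameters
  obtain ⟨s, hs0, hs1, hsa, hsb⟩ : ∃ s : ℝ, 0 < s ∧ s < 1 ∧
      s + s + s < t * (D - s) ∧
      s + (8 / Real.pi ^ 2 + s) * (φ.δ * (1 + s)) * (1 / 8 + s) + s + s < (1 / 8 + t) * (D - s) := by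
    have hc1 : Continuous (fun s : ℝ => t * (D - s) - (s + s + s)) := by fun_prop
    have hc2 : Continuous (fun s : ℝ => (1 / 8 + t) * (D - s) -
      (s + (8 / Real.pi ^ 2 + s) * (φ.δ * (1 + s)) * (1 / 8 + s) + s + s)) := by fun_prop
    have h1 : ∀ᶠ s in 𝓝 (0 : ℝ), 0 < t * (D - s) - (s + s + s) := by
      apply (hc1.tendsto 0).eventually (lt_mem_nhds _)
      have : 0 < t * D := by positivity
      simp only [sub_zero, add_zero]
      linarith
    have h2 : ∀ᶠ s in 𝓝 (0 : ℝ), 0 < (1 / 8 + t) * (D - s) -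
      (s + (8 / Real.pi ^ 2 + s) * (φ.δ * (1 + s)) * (1 / 8 + s) + s + s) := by
      apply (hc2.tendsto 0).eventually (lt_mem_nhds _)
      have : 0 < t * D := by positivity
      have e : (8 / Real.pi ^ 2 + 0) * (φ.δ * (1 + 0)) * (1 / 8 + 0) = D / 8 := by rw [hD]; ring
      rw [e]
      linarith
    have h3 := (h1.and h2).filter_mono (nhdsWithin_le_nhds (s := Set.Ioi (0 : ℝ)))
    have h4 : ∀ᶠ s in 𝓝[>] (0 : ℝ), s < 1 :=
      (gt_mem_nhds (show (0 : ℝ) < 1 by norm_num) : ∀ᶠ s in 𝓝 (0 : ℝ), s < 1).filter_mono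
        nhdsWithin_le_nhds
    obtain ⟨s, ⟨⟨h5, h6⟩, h7⟩, h8⟩ := ((h3.and h4).and self_mem_nhdsWithin).exists
    exact ⟨s, h8, h7, by linarith, by linarith⟩
  obtain ⟨P, hP, hPs, hPP⟩ := Pool.Agent.H614R2.RZ2.FI2 s hs0
  obtain ⟨F, hF, hF0, hF1, hFt⟩ := bumpR s hs0 hs1 hr0
  obtain ⟨A, hA0, hA1, hA2⟩ := rel φ hfam hφ hC s hs0 F hF hF0
  refine ⟨A, hA0, ?_⟩
  have hlog : Tendsto (fun X : ℕ => Real.log X) atTop atTop :=
    Real.tendsto_log_atTop.comp tendsto_natCast_atTop_atTop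
  have hsr : 0 < s / φ.r := by positivity
  have hDs : 0 < D - s := by nlinarith
  have hlow := AX_low φ hfam hr (D - s) (by linarith) hDs.le
  have hbig : ∀ᶠ X : ℕ in atTop, (1 / 8 + t) * (D - s) ≤ s * ((X : ℝ) / φ.r) ∧ t * (D - s) ≤ s * ((X : ℝ) / φ.r) := by
    have h1 : Tendsto (fun X : ℕ => s * ((X : ℝ) / φ.r)) atTop atTop :=
      (tendsto_natCast_atTop_atTop.atTop_div_const hr0).const_mul_atTop hs0
    exact (h1.eventually_ge_atTop _).and (h1.eventually_ge_atTop _)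
  filter_upwards [hlog.eventually (hA1 (s / φ.r) hsr), hlog.eventually (hA2 P hP hPs (s / φ.r) hsr), hlow, hbig,
    eventually_gt_atTop 0] with X g1 g2 g3 g4 g5
  obtain ⟨g4a, g4b⟩ := g4
  have hX0 : (0 : ℝ) < X := by exact_mod_cast g5
  set Y : ℝ := (X : ℝ) / φ.r with hY
  have hY0 : 0 < Y := by positivity
  constructor
  · have k1 := cnt_to_card hF hF0 hs0 hr hF1 φ hC.dpos X g5 {d | ¬ Up φ (Real.log X) A d}
    have k2 : (X : ℝ) * cnt F (Real.log X) (SFg φ ∩ {d | ¬ Up φ (Real.log X) A d}) ≤ s * Y := by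
      calc _ ≤ (X : ℝ) * (s / φ.r) := mul_le_mul_of_nonneg_left g1 hX0.le
        _ = _ := by rw [hY]; ring
    have k3 : (((AX φ (X / φ.r)).filter (fun d => ¬ Up φ (Real.log X) A d)).card : ℝ) ≤ s * Y + s * Y := by
      simp only [Set.mem_setOf_eq] at k1
      linarith
    have k4 : t * ((D - s) * Y - (D - s)) ≤ t * (AX φ (X / φ.r)).card := mul_le_mul_of_nonneg_left g3 ht.le
    have k5 : (s + s + s) * Y ≤ t * (D - s) * Y := mul_le_mul_of_nonneg_right hsa.le hY0.le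
    linarith
  · have k1 := cnt_to_card hF hF0 hs0 hr hF1 φ hC.dpos X g5 {d | ¬ Lo φ (Real.log X) A d}
    have hPi := Pool.Agent.H864R2.RGFI4G.PiP_nonneg P
    have hFt0 := Pool.Agent.H864R2.RGFI4G.Ft_nonneg hF0
    have k2 : PiP P * (φ.δ * Ft F 0) * (1 / 8 + s) ≤
        (8 / Real.pi ^ 2 + s) * (φ.δ * ((1 + s) / φ.r)) * (1 / 8 + s) := by
      apply mul_le_mul_of_nonneg_right _ (by positivity)
      exact mul_le_mul hPP (mul_le_mul_of_nonneg_left hFt hδφ.le) (by positivity) (by positivity)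
    have k3 : (X : ℝ) * cnt F (Real.log X) (SFg φ ∩ {d | ¬ Lo φ (Real.log X) A d}) ≤
        ((8 / Real.pi ^ 2 + s) * (φ.δ * (1 + s)) * (1 / 8 + s) + s) * Y := by
      calc _ ≤ (X : ℝ) * ((8 / Real.pi ^ 2 + s) * (φ.δ * ((1 + s) / φ.r)) * (1 / 8 + s) + s / φ.r) :=
            mul_le_mul_of_nonneg_left (g2.trans (by linarith)) hX0.le
        _ = _ := by rw [hY]; ring
    have k4 : (1 / 8 + t) * ((D - s) * Y - (D - s)) ≤ (1 / 8 + t) * (AX φ (X / φ.r)).card :=
      mul_le_mul_of_nonneg_left g3 (by positivity)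
    have k5 : (s + (8 / Real.pi ^ 2 + s) * (φ.δ * (1 + s)) * (1 / 8 + s) + s + s) * Y ≤ (1 / 8 + t) * (D - s) * Y :=
      mul_le_mul_of_nonneg_right hsb.le hY0.le
    simp only [Set.mem_setOf_eq] at k1
    linarith

end

end Pool.Agent.V8H36.CV
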