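import Pool.Agent.R318.QL.Cl3
import Pool.Agent.V8H36.CV.FamRel

set_option autoImplicit false
set_option linter.all false
set_option maxHeartbeats 4000000

/-!
Central values, part 7: the central limit theorem for the sum over primes, the members of a family
being ordered by the conductor.
-/

namespace Pool.Agent.V8H36.CV

open Finset Filter Topology MeasureTheory ProbabilityTheory
open Pool.Agent.H306R2.RZ Pool.Agent.H306R2.RG
open Pool.Agent.R318.QL
open Pool.Agent.R318.QL.CL

noncomputable section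

/-- the distribution of the normalised sum -/
theorem fam_cltR (φ : FD) (hfam : Fam φ) (hδ : 0 < φ.δ) (r : ℕ) (hr : 1 ≤ r) (t : ℝ) :
    Tendsto (fun X : ℕ => (∑ d ∈ AX φ (X / r),
      Complex.exp ((t : ℂ) * (YY φ (Real.log X) d : ℂ) * Complex.I)) / (AX φ (X / r)).card) atTop
      (𝓝 ((Real.exp (-(t ^ 2 / 2)) : ℝ) : ℂ)) := by
  have hden0 := LnkC.DEN φ hfam
  have hr0 : (0 : ℝ) < r := by exact_mod_cast hr
  set D : ℝ := φ.δ * (8 / Real.pi ^ 2) with hD
  have hD0 : 0 < D := by
    have := Real.pi_pos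
    positivity
  set c : ℝ := D / 2 with hc
  have hc0 : 0 < c := by positivity
  have hdiv : Tendsto (fun X : ℕ => X / r) atTop atTop := Nat.tendsto_div_const_atTop (by omega)
  have hlogX : Tendsto (fun X : ℕ => Real.log X) atTop atTop :=
    Real.tendsto_log_atTop.comp tendsto_natCast_atTop_atTop
  have hcard : ∀ᶠ X : ℕ in atTop, c * ((X / r : ℕ) : ℝ) ≤ (AX φ (X / r)).card := by
    have h1 := hden0.eventually (lt_mem_nhds (show c < D by rw [hc]; linarith))
    have h2 : ∀ᶠ X : ℕ in atTop, c * (X : ℝ) ≤ (AX φ X).card := by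
      filter_upwards [h1, eventually_gt_atTop 0] with X hX hX0
      have hX0' : (0 : ℝ) < X := by exact_mod_cast hX0
      rw [lt_div_iff₀ hX0'] at hX
      rw [AX_card]
      exact hX.le
    exact hdiv.eventually h2
  have hA : ∀ᶠ X : ℕ in atTop, (AX φ (X / r)).Nonempty := by
    filter_upwards [hcard, hdiv.eventually (eventually_gt_atTop 0)] with X hX hX0
    have hX0' : (0 : ℝ) < ((X / r : ℕ) : ℝ) := by exact_mod_cast hX0
    rw [← Finset.card_pos]
    have : (0 : ℝ) < (AX φ (X / r)).card := lt_of_lt_of_le (by positivity) hX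
    exact_mod_cast this
  have hsq : Tendsto (fun L : ℝ => 1 / Real.sqrt (Real.log L)) atTop (𝓝 0) :=
    tendsto_const_nhds.div_atTop (Real.tendsto_sqrt_atTop.comp Real.tendsto_log_atTop)
  have hV := mass_lim.comp hlogX
  refine clt_abs atTop (fun X : ℕ => AX φ (X / r)) (fun X d => YY φ (Real.log X) d) (fun X => sL (Real.log X))
    (fun X => aL (Real.log X)) hA ?_ hV ?_ (fun X => 1 / Real.sqrt (Real.log (Real.log X)))
    (hsq.comp hlogX) ?_ t
  · intro k
    -- the bound for the moments
    have hV2 : ∀ᶠ X : ℕ in atTop, ∑ p ∈ sL (Real.log X), aL (Real.log X) p ^ 2 ≤ 2 :=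
      (hV.eventually (gt_mem_nhds (show (1 : ℝ) < 2 by norm_num))).mono fun X hX => hX.le
    set Ck : ℝ := 1 + (2 * k).factorial * (2 * Real.exp (2 / 2)) with hCk
    have hCk0 : 0 < Ck := by positivity
    set K2 : ℝ := Real.sqrt (2 * r) with hK2
    have hK20 : 0 < K2 := Real.sqrt_pos.2 (by positivity)
    have b1 : Tendsto (fun L : ℝ => k / (c * wL L) * Ck + 9 * K2 / c * Real.exp (-(L / 4))) atTop (𝓝 0) := by
      have c1 : Tendsto (fun L : ℝ => (wL L : ℝ)) atTop atTop := by
        apply tendsto_natCast_atTop_atTop.comp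
        exact (tendsto_add_atTop_nat 1).comp (tendsto_nat_floor_atTop.comp
          (Real.tendsto_sqrt_atTop.comp (Real.tendsto_sqrt_atTop.comp Real.tendsto_log_atTop)))
      have c2 : Tendsto (fun L : ℝ => (k : ℝ) / (c * wL L)) atTop (𝓝 0) :=
        tendsto_const_nhds.div_atTop (c1.const_mul_atTop hc0)
      have c3 : Tendsto (fun L : ℝ => Real.exp (-(L / 4))) atTop (𝓝 0) :=
        Real.tendsto_exp_neg_atTop_nhds_zero.comp (tendsto_id.atTop_div_const (by norm_num))
      have := (c2.mul_const Ck).add (c3.const_mul (9 * K2 / c))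
      simpa using this
    have b2 : ∀ᶠ L : ℝ in atTop, (8 * k : ℝ) ≤ Real.log L :=
      Real.tendsto_log_atTop.eventually_ge_atTop _
    refine squeeze_zero' (Filter.Eventually.of_forall fun X => abs_nonneg _) ?_ (b1.comp hlogX)
    filter_upwards [hcard, hV2, hlogX.eventually b2, hlogX.eventually zL_facts,
      hlogX.eventually aL_bd, eventually_ge_atTop (2 * r)] with X h1 h2 h3 h4 h5 h6
    obtain ⟨k3, klog, kz3, kz, klz1, klz2⟩ := h4
    have hX0 : (0 : ℝ) < X := by
      have : 0 < X := by omega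
      exact_mod_cast this
    set L := Real.log X with hL
    have hw : 1 ≤ wL L := by unfold wL; omega
    have hw0 : (0 : ℝ) < wL L := by exact_mod_cast hw
    have hN1 : 1 ≤ X / r := by
      rw [Nat.le_div_iff_mul_le hr]
      omega
    have hNr : (X : ℝ) / (2 * r) ≤ ((X / r : ℕ) : ℝ) := by
      rw [div_le_iff₀ (by positivity)]
      have h7 : X < (X / r + 1) * r := by
        have := Nat.lt_div_mul_add (a := X) (b := r) (by omega)
        nlinarith
      have h8 : X ≤ (X / r) * (2 * r) := by nlinarith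
      exact_mod_cast h8
    have hN0 : (0 : ℝ) < ((X / r : ℕ) : ℝ) := by exact_mod_cast hN1
    set η : ℝ := k / (c * wL L) with hη
    set η' : ℝ := 9 * (zL L : ℝ) ^ k / (c * Real.sqrt ((X / r : ℕ) : ℝ)) with hη'
    have hη0 : 0 ≤ η := by positivity
    have hη'0 : 0 ≤ η' := by positivity
    have hav : ∀ f : Fin k → ℕ, (∀ i, f i ∈ sL L) → _ := fun f hf =>
      fam_avg φ hfam (X / r) (zL L) (wL L) hN1 hw (sL L) (fun p hp => sL_mem hp) c hc0 h1 f hf
    have h7 := mom_cmp (AX φ (X / r)) (fun d n => jo φ d n) (sL L) (aL L) (fun p hp => (h5 p hp).1) k η η'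
      hη0 hη'0 (fun f hf hev => (hav f hf).1 hev) (fun f hf hev => (hav f hf).2 hev)
    simp only [Function.comp_apply]
    have h8 : |(∑ d ∈ AX φ (X / r), YY φ L d ^ k) / (AX φ (X / r)).card - RM (sL L) (aL L) k| ≤
        η * RM (sL L) (aL L) k + η' * (∑ p ∈ sL L, aL L p) ^ k := h7
    refine h8.trans ?_
    apply add_le_add
    · apply mul_le_mul_of_nonneg_left _ hη0
      exact (le_abs_self _).trans (rm_bd (sL L) (aL L) k 2 h2)
    · have h9 : ∑ p ∈ sL L, aL L p ≤ zL L := by
        calc ∑ p ∈ sL L, aL L p ≤ ∑ p ∈ sL L, (1 : ℝ) :=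
              Finset.sum_le_sum fun p hp => (h5 p hp).2.2
          _ = (sL L).card := by rw [Finset.sum_const]; simp
          _ ≤ zL L := by
              have : sL L ⊆ Finset.Icc 1 (zL L) := by
                intro p hp
                rw [Finset.mem_Icc]
                exact ⟨(sL_mem hp).1.one_lt.le, (sL_mem hp).2.2.2⟩
              have := Finset.card_le_card this
              rw [Nat.card_Icc] at this
              exact_mod_cast (by omega : (sL L).card ≤ zL L)
      have h10 : 0 ≤ ∑ p ∈ sL L, aL L p := Finset.sum_nonneg fun p hp => (h5 p hp).1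
      have hsX : Real.exp (L / 2) / K2 ≤ Real.sqrt ((X / r : ℕ) : ℝ) := by
        have e1 : Real.exp (L / 2) = Real.sqrt X := by
          symm
          rw [Real.sqrt_eq_iff_mul_self_eq (by positivity) (Real.exp_pos _).le, ← Real.exp_add]
          rw [show L / 2 + L / 2 = L by ring, hL, Real.exp_log hX0]
        rw [e1, hK2, ← Real.sqrt_div hX0.le]
        exact Real.sqrt_le_sqrt hNr
      have hzk : (zL L : ℝ) ^ k ≤ Real.exp (L / 8) := by
        calc (zL L : ℝ) ^ k ≤ Real.exp (L / Real.log L) ^ k := pow_le_pow_left₀ (Nat.cast_nonneg _) kz k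
          _ = Real.exp (k * (L / Real.log L)) := by rw [← Real.exp_nat_mul]
          _ ≤ _ := by
              apply Real.exp_le_exp.2
              rw [mul_div_assoc', div_le_div_iff₀ (by linarith) (by norm_num)]
              nlinarith
      have hη'2 : η' ≤ 9 * (zL L : ℝ) ^ k / (c * (Real.exp (L / 2) / K2)) := by
        rw [hη']
        apply div_le_div_of_nonneg_left (by positivity) (by positivity)
        exact mul_le_mul_of_nonneg_left hsX hc0.le
      calc η' * (∑ p ∈ sL L, aL L p) ^ k ≤ (9 * (zL L : ℝ) ^ k / (c * (Real.exp (L / 2) / K2))) * (zL L : ℝ) ^ k := by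
            gcongr
        _ = 9 * K2 / c * ((zL L : ℝ) ^ k * (zL L : ℝ) ^ k / Real.exp (L / 2)) := by
            field_simp
        _ ≤ 9 * K2 / c * (Real.exp (L / 8) * Real.exp (L / 8) / Real.exp (L / 2)) := by gcongr
        _ = 9 * K2 / c * Real.exp (-(L / 4)) := by
            rw [← Real.exp_add, ← Real.exp_sub]
            congr 2
            ring
  · have e1 : Tendsto (fun L : ℝ => (1 / Real.sqrt (Real.log L)) ^ 2 * ∑ p ∈ sL L, aL L p ^ 2) atTop (𝓝 0) := by
      have := (hsq.pow 2).mul mass_lim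
      simpa using this
    refine squeeze_zero' (Filter.Eventually.of_forall fun X =>
      Finset.sum_nonneg fun p _ => by positivity) ?_ (e1.comp hlogX)
    filter_upwards [hlogX.eventually aL_bd] with X h5
    simp only [Function.comp_apply]
    rw [Finset.mul_sum]
    refine Finset.sum_le_sum fun p hp => ?_
    obtain ⟨q1, q2, q3⟩ := h5 p hp
    have : aL (Real.log X) p ^ 2 ≤ (1 / Real.sqrt (Real.log (Real.log X))) ^ 2 :=
      pow_le_pow_left₀ q1 q2 2
    calc aL (Real.log X) p ^ 4 = aL (Real.log X) p ^ 2 * aL (Real.log X) p ^ 2 := by ring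
      _ ≤ _ := mul_le_mul_of_nonneg_right this (by positivity)
  · filter_upwards [hlogX.eventually aL_bd] with X h5 p hp
    obtain ⟨q1, q2, q3⟩ := h5 p hp
    rw [abs_of_nonneg q1]
    exact q2

open Classical in
theorem fam_openR (φ : FD) (hfam : Fam φ) (hδ : 0 < φ.δ) (r : ℕ) (hr : 1 ≤ r) (U : Set ℝ) (hU : IsOpen U)
    (ε : ℝ) (hε : 0 < ε) :
    ∀ᶠ X : ℕ in atTop, ((gaussianReal 0 1 U).toReal - ε) * (AX φ (X / r)).card ≤
      ((AX φ (X / r)).filter (fun d => YY φ (Real.log X) d ∈ U)).card := by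
  have hpi := Real.pi_pos
  have hdiv : Tendsto (fun X : ℕ => X / r) atTop atTop := Nat.tendsto_div_const_atTop (by omega)
  have hA : ∀ᶠ X : ℕ in atTop, (AX φ (X / r)).Nonempty := by
    have hD0 : 0 < φ.δ * (8 / Real.pi ^ 2) := by positivity
    have h1 := (LnkC.DEN φ hfam).eventually (lt_mem_nhds hD0)
    have h2 : ∀ᶠ X : ℕ in atTop, (AX φ X).Nonempty := by
      filter_upwards [h1, eventually_gt_atTop 0] with X hX hX0
      have hX0' : (0 : ℝ) < X := by exact_mod_cast hX0
      rw [lt_div_iff₀ hX0', zero_mul, ← AX_card] at hX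
      rw [← Finset.card_pos]
      exact_mod_cast hX
    exact hdiv.eventually h2
  exact clt_open (fun X : ℕ => AX φ (X / r)) (fun X d => YY φ (Real.log X) d) hA
    (fun t => fam_cltR φ hfam hδ r hr t) U hU ε hε

/-! ### the sum over all odd primes up to `X^{1/log log X}` -/

/-- the difference between the sum of the statement and the normalised sum is bounded by
`√√(log L) + 1`. -/
lemma SS_YY : ∀ᶠ L : ℝ in atTop, ∀ (φ : FD) (d : ℕ),
    |SS φ L d - Real.sqrt (Real.log L) * YY φ L d| ≤ Real.sqrt (Real.sqrt (Real.log L)) + 1 := by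
  filter_upwards [Real.tendsto_log_atTop.eventually_ge_atTop 1] with L hL φ d
  have hs0 : 0 < Real.sqrt (Real.log L) := Real.sqrt_pos.2 (by linarith)
  have e1 : Real.sqrt (Real.log L) * YY φ L d = ∑ p ∈ sL L, jo φ d p / Real.sqrt p := by
    unfold YY aL
    rw [Finset.mul_sum]
    refine Finset.sum_congr rfl fun p hp => ?_
    have hp0 : 0 < Real.sqrt p := Real.sqrt_pos.2 (by exact_mod_cast (sL_mem hp).1.pos)
    field_simp
  have hsub : sL L ⊆ ZS L := by
    intro p hp
    unfold sL at hp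
    unfold ZS
    rw [Finset.mem_filter] at hp ⊢
    exact ⟨hp.1, hp.2.1, hp.2.2.1⟩
  have e2 : SS φ L d - ∑ p ∈ sL L, jo φ d p / Real.sqrt p = ∑ p ∈ ZS L \ sL L, jo φ d p / Real.sqrt p := by
    unfold SS
    rw [← Finset.sum_sdiff hsub]
    ring
  rw [e1, e2]
  refine (Finset.abs_sum_le_sum_abs _ _).trans ?_
  have h1 : ∀ p ∈ ZS L \ sL L, |jo φ d p / Real.sqrt p| ≤ 1 := by
    intro p hp
    rw [Finset.mem_sdiff] at hp
    have hp1 : p.Prime := by
      have := hp.1
      unfold ZS at this
      rw [Finset.mem_filter] at this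
      exact this.2.1
    have hsp : 1 ≤ Real.sqrt p := by
      rw [show (1 : ℝ) = Real.sqrt 1 by rw [Real.sqrt_one]]
      exact Real.sqrt_le_sqrt (by exact_mod_cast hp1.one_lt.le)
    rw [abs_div, abs_of_pos (show 0 < Real.sqrt (p : ℝ) by linarith), div_le_one (by linarith)]
    exact (jo_abs φ d _).trans hsp
  refine (Finset.sum_le_sum h1).trans ?_
  rw [Finset.sum_const, nsmul_eq_mul, mul_one]
  have h2 : ZS L \ sL L ⊆ Finset.Icc 1 ⌊Real.sqrt (Real.sqrt (Real.log L))⌋₊ := by
    intro p hp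
    rw [Finset.mem_sdiff] at hp
    have h3 := hp.1
    have h4 := hp.2
    unfold ZS at h3
    unfold sL at h4
    rw [Finset.mem_filter] at h3 h4
    have h5 : ¬ wL L ≤ p := fun h => h4 ⟨h3.1, h3.2.1, h3.2.2, h⟩
    rw [Finset.mem_Icc]
    refine ⟨h3.2.1.one_lt.le, ?_⟩
    unfold wL at h5
    omega
  have h3 := Finset.card_le_card h2
  rw [Nat.card_Icc, Nat.add_sub_cancel] at h3
  calc ((ZS L \ sL L).card : ℝ) ≤ (⌊Real.sqrt (Real.sqrt (Real.log L))⌋₊ : ℝ) := by exact_mod_cast h3
    _ ≤ Real.sqrt (Real.sqrt (Real.log L)) := Nat.floor_le (Real.sqrt_nonneg _)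
    _ ≤ _ := by linarith

end

end Pool.Agent.V8H36.CV
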