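import Pool.Agent.V8H36.CV.Ms
import Pool.Agent.R318.QL.Mol3

set_option autoImplicit false
set_option linter.all false
set_option maxHeartbeats 4000000

/-!
Central values, part 3: the central value and the mollifier at distance `640 log L / L` from the
centre.
-/

namespace Pool.Agent.V8H36.CV

open Finset Filter Topology MeasureTheory Pool.Agent.H306R2.RZ Pool.Agent.H306R2.RG
open Pool.Agent.R318.QL
open Pool.Agent.H423R2.RZA.TR1n (bd_exists)
open Pool.Agent.W169.QP (cnt_mono cnt_union markov)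
open ArithmeticFunction (vonMangoldt moebius)

noncomputable section

/-- the distance from the centre, in units of `1/L` -/
def xL (L : ℝ) : ℝ := 640 * Real.log L

/-- the value of the mollifier -/
lemma MM_eq (φ : FD) {r κ : ℝ → ℝ} (hr : ST (1 / 80) (1 / 20) r) {L : ℝ} (hL : 0 < L) (x : ℝ) (d : ℕ) :
    Mdg φ 2 L (fun t => Real.exp (-(x * t)) * r t * κ t) d = MM φ L r κ d (x / L) := by
  unfold Mdg MM
  rw [tsum_eq_sum (s := range (YL L + 1))]
  · refine Finset.sum_congr rfl fun n _ => ?_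
    have hex : Real.exp (-(x * (Real.log n / L))) = ex (x / L) n := by
      unfold ex
      congr 1
      ring
    by_cases hc : Nat.Coprime n 2
    · rw [if_pos hc]
      simp only [hex, rk]
      ring
    · rw [if_neg hc]
      have hodd : ¬ Odd n := fun h => hc (Nat.coprime_two_right.2 h)
      have hj : jo φ d n = 0 := by
        unfold jo
        rw [if_neg hodd]
      rw [hj, mul_zero]
  · intro n hn
    rw [Finset.mem_range, not_lt] at hn
    split_ifs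
    · have h1 : Real.exp (L / 20) < n := by
        have h2 : Real.exp (L / 20) < YL L + 1 := Nat.lt_floor_add_one _
        have h3 : ((YL L + 1 : ℕ) : ℝ) ≤ n := by exact_mod_cast hn
        push_cast at h3
        linarith
      have h4 : L / 20 < Real.log n := by
        rw [Real.lt_log_iff_exp_lt (by linarith [Real.exp_pos (L / 20)])]
        exact h1
      have h5 : 1 / 20 ≤ Real.log n / L := by
        rw [le_div_iff₀ hL]
        linarith
      simp only [hr.zero _ h5]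
      ring
    · rfl

/-- bounds for the factor `K_d(x)` -/
lemma Kdg_bd (φ : FD) (hφ : FG φ) {L x : ℝ} (hL : 0 < L) (hx : 0 ≤ x) (d : ℕ) {c1 c2 : ℝ} (h0 : 0 < c1)
    (h1 : c1 ≤ KEg φ L d x) (h2 : KEg φ L d x ≤ c2) :
    c1 / 4 ≤ Kdg φ L d x ∧ Kdg φ L d x ≤ 2 * c2 := by
  set D := 1 - φ.η * (2 : ℝ) ^ (-(1 / 2 + x / L)) with hD
  have hp0 : (0 : ℝ) < (2 : ℝ) ^ (-(1 / 2 + x / L)) := Real.rpow_pos_of_pos (by norm_num) _
  have hp1 : (2 : ℝ) ^ (-(1 / 2 + x / L)) ≤ 3 / 4 := by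
    have h3 : (2 : ℝ) ^ (-(1 / 2 + x / L)) ≤ (2 : ℝ) ^ (-(1 / 2) : ℝ) := by
      apply Real.rpow_le_rpow_of_exponent_le (by norm_num)
      have : 0 ≤ x / L := by positivity
      linarith
    have h4 : (2 : ℝ) ^ (-(1 / 2) : ℝ) = 1 / Real.sqrt 2 := by
      rw [Real.rpow_neg (by norm_num), ← Real.sqrt_eq_rpow, one_div]
    have h5 : 4 / 3 ≤ Real.sqrt 2 := Real.le_sqrt_of_sq_le (by norm_num)
    have h6 : 1 / Real.sqrt 2 ≤ 3 / 4 := by
      rw [div_le_div_iff₀ (by linarith) (by norm_num)]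
      linarith
    linarith [h4 ▸ h3]
  have hη : |φ.η| ≤ 1 := by
    rcases hφ.hη with h | h | h <;> rw [h] <;> norm_num
  have hη' := abs_le.1 hη
  have hD1 : 1 / 4 ≤ D := by
    have : φ.η * (2 : ℝ) ^ (-(1 / 2 + x / L)) ≤ 1 * (3 / 4) := by
      apply mul_le_mul hη'.2 hp1 hp0.le (by norm_num)
    rw [hD]
    linarith
  have hD2 : D ≤ 2 := by
    have : -(1 * (3 / 4)) ≤ φ.η * (2 : ℝ) ^ (-(1 / 2 + x / L)) := by
      nlinarith [hη'.1]
    rw [hD]
    linarith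
  have hK : Kdg φ L d x = KEg φ L d x * D := by
    unfold KEg
    rw [div_mul_cancel₀]
    have : D ≠ 0 := by linarith
    exact this
  have hc2 : 0 ≤ c2 := by linarith
  constructor
  · rw [hK]
    calc c1 / 4 = c1 * (1 / 4) := by ring
      _ ≤ KEg φ L d x * D := mul_le_mul h1 hD1 (by norm_num) (by linarith)
  · rw [hK]
    calc KEg φ L d x * D ≤ c2 * 2 := mul_le_mul h2 hD2 (by linarith) hc2
      _ = _ := by ring

/-- elementary facts for large `L` -/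
lemma xL_facts : ∀ᶠ L : ℝ in atTop, 4 ≤ L ∧ 1 ≤ Real.log L ∧ 1 ≤ xL L ∧ xL L ≤ L / 2 ∧
    1 + xL L ≤ 1000 * Real.log L := by
  have h1 : ∀ᶠ L : ℝ in atTop, 1280 * Real.log L ≤ L := by
    have := (Real.isLittleO_log_id_atTop.bound (show (0 : ℝ) < 1 / 1280 by norm_num))
    filter_upwards [this, eventually_ge_atTop (1 : ℝ)] with L hL hL1
    have h2 := Real.log_nonneg hL1
    simp only [id] at hL
    rw [Real.norm_of_nonneg h2, Real.norm_of_nonneg (by linarith)] at hL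
    linarith
  filter_upwards [h1, eventually_ge_atTop (Real.exp 1), eventually_ge_atTop (4 : ℝ)] with L h1 h2 h3
  have h4 : 1 ≤ Real.log L := by
    rw [← Real.log_exp 1]
    exact Real.log_le_log (Real.exp_pos 1) h2
  unfold xL
  exact ⟨h3, h4, by linarith, by linarith, by linarith⟩

/-- powers of `log L` absorb the polynomial losses -/
lemma log_pow_small (C : ℝ) (k : ℕ) {ε : ℝ} (hε : 0 < ε) :
    ∀ᶠ L : ℝ in atTop, C * (1 + xL L) ^ k ≤ ε * (Real.log L ^ (k + 1)) ^ 2 := by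
  have h1 : ∀ᶠ L : ℝ in atTop, |C| * 1000 ^ k / ε ≤ Real.log L :=
    Real.tendsto_log_atTop.eventually_ge_atTop _
  filter_upwards [h1, xL_facts] with L h1 h2
  obtain ⟨-, hlog, hx, -, hx2⟩ := h2
  have h0 : 0 ≤ |C| * 1000 ^ k := by positivity
  rw [div_le_iff₀ hε] at h1
  calc C * (1 + xL L) ^ k ≤ |C| * (1000 * Real.log L) ^ k := by
        apply mul_le_mul (le_abs_self C) _ (by positivity) (abs_nonneg _)
        exact pow_le_pow_left₀ (by linarith) hx2 k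
    _ = (|C| * 1000 ^ k) * Real.log L ^ k := by rw [mul_pow]; ring
    _ ≤ (Real.log L * ε) * Real.log L ^ k := by gcongr
    _ = ε * Real.log L ^ (k + 1) * 1 := by rw [pow_succ]; ring
    _ ≤ ε * Real.log L ^ (k + 1) * Real.log L ^ (k + 1) := by
        apply mul_le_mul_of_nonneg_left (one_le_pow₀ hlog) (by positivity)
    _ = _ := by ring

/-- only the `d` in the support of the weight matter -/
lemma cnt_supp {F : ℝ → ℝ} (hF : TF F) (hF0 : ∀ x, 0 ≤ F x) (L : ℝ) {A B : Set ℕ}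
    (h : ∀ d ∈ A, F ((d : ℝ) / Real.exp L) ≠ 0 → d ∈ B) : cnt F L A ≤ cnt F L B := by
  obtain ⟨S, hS⟩ := Pool.Agent.H228R2.RGTR.fin_supp F hF (Real.exp L) (Real.exp_pos L)
  rw [Pool.Agent.H228R2.RGTR.cnt_eq F L S hS, Pool.Agent.H228R2.RGTR.cnt_eq F L S hS]
  apply div_le_div_of_nonneg_right _ (Real.exp_pos L).le
  apply Finset.sum_le_sum
  intro d _
  by_cases h1 : d ∈ A
  · by_cases h2 : F ((d : ℝ) / Real.exp L) = 0
    · rw [Set.indicator_of_mem h1, h2]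
      exact Set.indicator_nonneg (fun _ _ => hF0 _) _
    · rw [Set.indicator_of_mem h1, Set.indicator_of_mem (h d h1 h2)]
  · rw [Set.indicator_of_notMem h1]
    exact Set.indicator_nonneg (fun _ _ => hF0 _) _

/-- Chebyshev's inequality with a power of `log L` -/
lemma cheb (φ : FD) {F : ℝ → ℝ} (hF : TF F) (hF0 : ∀ x, 0 ≤ F x) (C : ℝ) (k : ℕ) (g : ℝ → ℕ → ℝ)
    (hg : ∀ᶠ L : ℝ in atTop, EAg φ F (Real.exp L) (fun d => g L d ^ 2) ≤ C * (1 + xL L) ^ k)
    {ε : ℝ} (hε : 0 < ε) :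
    ∀ᶠ L : ℝ in atTop, cnt F L (SFg φ ∩ {d | Real.log L ^ (k + 1) < |g L d|}) ≤ ε := by
  filter_upwards [hg, log_pow_small C k hε, xL_facts] with L h1 h2 h3
  obtain ⟨-, hlog, -, -, -⟩ := h3
  have hT : 0 < (Real.log L ^ (k + 1)) ^ 2 := by positivity
  have h4 := markov φ hF hF0 L ((Real.log L ^ (k + 1)) ^ 2) (fun d => g L d ^ 2) (fun d => sq_nonneg _)
    (SFg φ ∩ {d | Real.log L ^ (k + 1) < |g L d|}) (fun d hd => ⟨hd.1.1, by
      rw [← sq_abs (g L d)]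
      exact pow_le_pow_left₀ (by positivity) (le_of_lt hd.2) 2⟩)
  have h5 : (Real.log L ^ (k + 1)) ^ 2 * cnt F L (SFg φ ∩ {d | Real.log L ^ (k + 1) < |g L d|}) ≤
      (Real.log L ^ (k + 1)) ^ 2 * ε := by
    calc _ ≤ _ := h4
      _ ≤ _ := h1
      _ ≤ _ := h2
      _ = _ := by ring
  exact le_of_mul_le_mul_left h5 hT

/-- **the relations** between the central value and the mollifiers, for most discriminants -/
theorem cross (φ : FD) (hfam : Fam φ) (hφ : FG φ) (hC : CG φ) (F : ℝ → ℝ) (hF : TF F) (hF0 : ∀ x, 0 ≤ F x)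
    (δ θ : ℝ) (hδ : 0 < δ) (hδ1 : δ ≤ 1 / 64) (hA : Adm2 (1 / 2 + 3 * δ) θ)
    (ρ : ℝ → ℝ) (hρ : RH δ ρ) (Q : ℝ → ℝ) (hQ : Wt θ Q) :
    ∃ A : ℕ, (∀ ε : ℝ, 0 < ε → ∀ᶠ L : ℝ in atTop,
      cnt F L (SFg φ ∩ {d | ¬ (|LLg φ d (1 / 2)| ≤ Real.log L ^ A * Real.exp (PF φ L d (xL L / L)))}) ≤ ε) ∧
      ∀ η : ℝ, 0 < η → ∀ ε : ℝ, 0 < ε → ∀ᶠ L : ℝ in atTop,
        cnt F L (SFg φ ∩ {d | η ≤ |Nfg φ L (KGg φ L (beg φ L d) (Ph ρ 0)) d * Mdg φ 2 L Q d| ∧
          ¬ (Real.exp (PF φ L d (xL L / L)) ≤ Real.log L ^ A * |LLg φ d (1 / 2)|)}) ≤ ε := by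
  obtain ⟨_, w2, w3⟩ := Pool.Agent.H692R2.RZ2W0.W0
  obtain ⟨κ, hκ⟩ := w2 δ (1 / 2000) hδ (by norm_num)
  obtain ⟨ζ, hζ⟩ := w3 (-1 / 2) (-1 / 4) (by norm_num)
  obtain ⟨r, hr⟩ := w3 (1 / 80) (1 / 20) (by norm_num)
  have hr' : ST ((1 / 20 : ℝ) / 4) (1 / 20) r := by
    have : (1 / 20 : ℝ) / 4 = 1 / 80 := by norm_num
    rwa [this]
  have hA20 : Adm2 (1 / 2 + 3 * δ) (1 / 20) := by
    constructor <;> linarith [hA.hs, hA.hs1]
  -- the four inputs
  obtain ⟨Ca, La, ka, hCa, hma⟩ := ms φ hφ F hF hF0 δ (1 / 20) hδ (by linarith) hA20 ρ hρ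
  obtain ⟨Cb, Lb, kb, hCb, hmb⟩ := ms φ hφ F hF hF0 δ θ hδ (by linarith) hA ρ hρ
  obtain ⟨Kq, hKq, hqz⟩ := qz_wt (e := 1 / 2000) hδ (by norm_num) (by norm_num) hr' hκ hζ ka
  obtain ⟨BQ, hBQ0, hBQ⟩ := bd_exists hQ.smooth hQ.supp kb
  obtain ⟨Cc, c0, Lc, hCc, hc0, hTR⟩ := LnkB.TR1G φ hφ F hF hF0 δ (1 / 2000) (1 / 20) hδ hδ1 (by norm_num)
    (by norm_num) hA20 ρ r κ hρ hr' hκ
  obtain ⟨c1, c2, b, Ld, hc1, hb, hC8⟩ := Pool.Agent.H285R3.RG_C8G.C8G φ hφ F hF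
  -- upper cross moment
  have mA : ∀ᶠ L : ℝ in atTop, EAg φ F (Real.exp L) (fun d =>
      (Nfg φ L (KGg φ L (beg φ L d) (Ph ρ 0)) d * MM φ L r κ d (xL L / L)) ^ 2) ≤
      (Ca * Kq ^ 2) * (1 + xL L) ^ (4 * ka) := by
    filter_upwards [xL_facts, eventually_ge_atTop La] with L h1 h2
    obtain ⟨hL4, hlog, hx, hxL, -⟩ := h1
    have hL0 : 0 < L := by linarith
    have h3 := hma L 0 (qz r κ ζ (xL L)) (Kq * (1 + xL L) ^ (2 * ka)) h2 (Or.inl rfl) (by linarith)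
      (hqz (xL L) (by linarith)).1 (hqz (xL L) (by linarith)).2
    have e1 : ∀ d, Mdg φ 2 L (qz r κ ζ (xL L)) d = MM φ L r κ d (xL L / L) := by
      intro d
      rw [← MM_eq φ hr hL0 (xL L) d]
      exact (Mdg_congr φ 2 hL0 (fun y hy => qz_eq hζ hy) d).symm
    simp only [e1] at h3
    refine h3.trans (le_of_eq ?_)
    rw [add_zero, one_pow, mul_one, mul_pow, ← pow_mul]
    rw [show 2 * ka * 2 = 4 * ka by ring]
    ring
  -- lower cross moment
  have mB : ∀ᶠ L : ℝ in atTop, EAg φ F (Real.exp L) (fun d =>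
      (Nfg φ L (KGg φ L (beg φ L d) (Ph ρ (xL L))) d * Mdg φ 2 L Q d) ^ 2) ≤
      (Cb * BQ ^ 2) * (1 + xL L) ^ kb := by
    filter_upwards [xL_facts, eventually_ge_atTop Lb] with L h1 h2
    obtain ⟨hL4, hlog, hx, hxL, -⟩ := h1
    refine (hmb L (xL L) Q BQ h2 (Or.inr hx) hxL hQ hBQ).trans (le_of_eq ?_)
    ring
  -- the events
  have hG3 : ∀ ε : ℝ, 0 < ε → ∀ᶠ L : ℝ in atTop,
      cnt F L (SFg φ ∩ {d | c1 / 2 < |Gug φ L ρ r κ d (xL L)|}) ≤ ε := by
    intro ε hε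
    have h1 : Tendsto (fun L : ℝ => Cc * Real.exp (-(c0 * xL L))) atTop (𝓝 (Cc * 0)) := by
      apply Tendsto.const_mul
      apply Real.tendsto_exp_neg_atTop_nhds_zero.comp
      unfold xL
      exact (Real.tendsto_log_atTop.const_mul_atTop (by norm_num)).const_mul_atTop hc0
    rw [mul_zero] at h1
    filter_upwards [xL_facts, eventually_ge_atTop Lc, h1.eventually (gt_mem_nhds
      (show (0 : ℝ) < (c1 / 2) ^ 2 * ε by positivity))] with L h2 h3 h4
    obtain ⟨hL4, hlog, hx, hxL, -⟩ := h2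
    have h5 := (hTR L h3 (xL L) hx hxL).1
    have h6 := markov φ hF hF0 L ((c1 / 2) ^ 2) (fun d => Gug φ L ρ r κ d (xL L) ^ 2) (fun d => sq_nonneg _)
      (SFg φ ∩ {d | c1 / 2 < |Gug φ L ρ r κ d (xL L)|}) (fun d hd => ⟨hd.1.1, by
        rw [← sq_abs (Gug φ L ρ r κ d (xL L))]
        exact pow_le_pow_left₀ (by positivity) (le_of_lt hd.2) 2⟩)
    have h7 : (c1 / 2) ^ 2 * cnt F L (SFg φ ∩ {d | c1 / 2 < |Gug φ L ρ r κ d (xL L)|}) ≤
        (c1 / 2) ^ 2 * ε := by linarith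
    exact le_of_mul_le_mul_left h7 (by positivity)
  have hG4 : ∀ ε : ℝ, 0 < ε → ∃ K : ℝ, ∀ᶠ L : ℝ in atTop,
      cnt F L (SFg φ ∩ {d | ¬ GoodM φ L r κ 1 K d}) ≤ ε := by
    intro ε hε
    obtain ⟨K, L0, hK, h1⟩ := mol_main φ hfam F hF hF0 1 ε one_pos le_rfl hε
    refine ⟨K, ?_⟩
    filter_upwards [eventually_ge_atTop L0] with L hL
    exact h1 r κ δ (1 / 2000) (by norm_num) hδ hr hκ L hL
  -- the deterministic part
  have det : ∀ᶠ L : ℝ in atTop, ∀ d ∈ SFg φ, F ((d : ℝ) / Real.exp L) ≠ 0 →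
      1 / 2 ≤ MM φ L r κ d (xL L / L) * Real.exp (PF φ L d (xL L / L)) →
      |Nfg φ L (KGg φ L (beg φ L d) (Ph ρ 0)) d * MM φ L r κ d (xL L / L)| ≤ Real.log L ^ (4 * ka + 1) →
      |LLg φ d (1 / 2)| ≤ Real.log L ^ (4 * ka + 1 + (kb + 1) + 1) * Real.exp (PF φ L d (xL L / L)) := by
    filter_upwards [xL_facts, eventually_ge_atTop Ld,
      Real.tendsto_log_atTop.eventually_ge_atTop (8 / c1)] with L h1 h2 h3 d hd hFd g1 g2
    obtain ⟨hL4, hlog, hx, hxL, -⟩ := h1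
    have hL0 : 0 < L := by linarith
    obtain ⟨k1, k2⟩ := (hC8 L h2 d hFd).2 0 le_rfl (by linarith)
    obtain ⟨k3, k4⟩ := Kdg_bd φ hφ hL0 le_rfl d hc1 k1 k2
    have hN := hC.afe d hd.1 hd.2 δ hδ ρ hρ L hL0 0 le_rfl
    rw [zero_div, add_zero] at hN
    set E := Real.exp (PF φ L d (xL L / L)) with hE
    have hE0 : 0 < E := Real.exp_pos _
    set M := MM φ L r κ d (xL L / L) with hM
    have hM0 : 0 < M := by
      by_contra h
      rw [not_lt] at h
      nlinarith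
    set N := Nfg φ L (KGg φ L (beg φ L d) (Ph ρ 0)) d with hNd
    set T := Real.log L ^ (4 * ka + 1) with hT
    have hT1 : 1 ≤ T := one_le_pow₀ hlog
    rw [abs_mul, abs_of_pos hM0] at g2
    -- `|N| ≤ 2 T E`
    have g3 : |N| ≤ 2 * T * E := by
      have g4 : |N| * (M * E) ≤ T * E := by
        calc |N| * (M * E) = (|N| * M) * E := by ring
          _ ≤ T * E := mul_le_mul_of_nonneg_right g2 hE0.le
      have g5 : |N| * (1 / 2) ≤ |N| * (M * E) := mul_le_mul_of_nonneg_left g1 (abs_nonneg _)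
      linarith
    have hK0 : 0 < Kdg φ L d 0 := by linarith
    have g6 : |N| = Kdg φ L d 0 * |LLg φ d (1 / 2)| := by
      rw [hN, abs_mul, abs_of_pos hK0]
    have g7 : c1 / 4 * |LLg φ d (1 / 2)| ≤ 2 * T * E := by
      calc c1 / 4 * |LLg φ d (1 / 2)| ≤ Kdg φ L d 0 * |LLg φ d (1 / 2)| :=
            mul_le_mul_of_nonneg_right k3 (abs_nonneg _)
        _ ≤ _ := by rw [← g6]; exact g3
    have g8 : |LLg φ d (1 / 2)| ≤ 8 / c1 * T * E := by
      have e : 8 / c1 * T * E = (2 * T * E) / (c1 / 4) := by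
        field_simp
        ring
      rw [e, le_div_iff₀ (by positivity)]
      linarith
    calc |LLg φ d (1 / 2)| ≤ 8 / c1 * T * E := g8
      _ ≤ Real.log L * T * E := by gcongr
      _ ≤ Real.log L ^ (4 * ka + 1 + (kb + 1) + 1) * E := by
          apply mul_le_mul_of_nonneg_right _ hE0.le
          rw [hT, mul_comm, ← pow_succ]
          exact pow_le_pow_right₀ hlog (by omega)
  have det2 : ∀ η : ℝ, 0 < η → ∀ᶠ L : ℝ in atTop, ∀ d ∈ SFg φ, F ((d : ℝ) / Real.exp L) ≠ 0 →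
      1 / 2 ≤ MM φ L r κ d (xL L / L) * Real.exp (PF φ L d (xL L / L)) →
      MM φ L r κ d (xL L / L) * Real.exp (PF φ L d (xL L / L)) ≤ 3 / 2 →
      |Gug φ L ρ r κ d (xL L)| ≤ c1 / 2 →
      |Nfg φ L (KGg φ L (beg φ L d) (Ph ρ (xL L))) d * Mdg φ 2 L Q d| ≤ Real.log L ^ (kb + 1) →
      η ≤ |Nfg φ L (KGg φ L (beg φ L d) (Ph ρ 0)) d * Mdg φ 2 L Q d| →
      Real.exp (PF φ L d (xL L / L)) ≤ Real.log L ^ (4 * ka + 1 + (kb + 1) + 1) * |LLg φ d (1 / 2)| := by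
    intro η hη
    filter_upwards [xL_facts, eventually_ge_atTop Ld,
      Real.tendsto_log_atTop.eventually_ge_atTop (6 * c2 / (η * c1))] with L h1 h2 h3 d hd hFd g1 g1' g2 g3 g4
    obtain ⟨hL4, hlog, hx, hxL, -⟩ := h1
    have hL0 : 0 < L := by linarith
    obtain ⟨k1, k2⟩ := (hC8 L h2 d hFd).2 0 le_rfl (by linarith)
    obtain ⟨k3, k4⟩ := Kdg_bd φ hφ hL0 le_rfl d hc1 k1 k2
    obtain ⟨k5, k6⟩ := (hC8 L h2 d hFd).2 (xL L) (by linarith) hxL
    have hN := hC.afe d hd.1 hd.2 δ hδ ρ hρ L hL0 0 le_rfl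
    rw [zero_div, add_zero] at hN
    have hc2 : 0 < c2 := by linarith
    set E := Real.exp (PF φ L d (xL L / L)) with hE
    have hE0 : 0 < E := Real.exp_pos _
    have hGug : Gug φ L ρ r κ d (xL L) = KEg φ L d (xL L) -
        Nfg φ L (KGg φ L (beg φ L d) (Ph ρ (xL L))) d * MM φ L r κ d (xL L / L) := by
      unfold Gug
      rw [MM_eq φ hr hL0]
    set M := MM φ L r κ d (xL L / L) with hM
    have hM0 : 0 < M := by
      by_contra h
      rw [not_lt] at h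
      nlinarith
    set N := Nfg φ L (KGg φ L (beg φ L d) (Ph ρ 0)) d with hNd
    set N1 := Nfg φ L (KGg φ L (beg φ L d) (Ph ρ (xL L))) d with hN1
    set MQ := Mdg φ 2 L Q d with hMQ
    set T := Real.log L ^ (kb + 1) with hT
    have hT1 : 1 ≤ T := one_le_pow₀ hlog
    rw [abs_mul] at g3 g4
    -- `N1 M ≥ c1/2`
    have g5 : c1 / 2 ≤ |N1| * M := by
      have h5 := (abs_le.1 g2).2
      rw [hGug] at h5
      have h6 : N1 * M ≤ |N1| * M := mul_le_mul_of_nonneg_right (le_abs_self _) hM0.le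
      linarith
    have g6 : |N| = Kdg φ L d 0 * |LLg φ d (1 / 2)| := by
      rw [hN, abs_mul, abs_of_pos (by linarith : 0 < Kdg φ L d 0)]
    have g7 : |N| ≤ 2 * c2 * |LLg φ d (1 / 2)| := by
      rw [g6]
      exact mul_le_mul_of_nonneg_right k4 (abs_nonneg _)
    have g8 : η * (c1 / 2) ≤ |N| * (T * M) := by
      calc η * (c1 / 2) ≤ (|N| * |MQ|) * (|N1| * M) :=
            mul_le_mul g4 g5 (by positivity) (by positivity)
        _ = |N| * ((|N1| * |MQ|) * M) := by ring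
        _ ≤ |N| * (T * M) := by gcongr
    have g9 : η * (c1 / 2) * E ≤ |N| * T * (3 / 2) := by
      calc η * (c1 / 2) * E ≤ |N| * (T * M) * E := mul_le_mul_of_nonneg_right g8 hE0.le
        _ = |N| * T * (M * E) := by ring
        _ ≤ |N| * T * (3 / 2) := mul_le_mul_of_nonneg_left g1' (by positivity)
    have g10 : E ≤ 6 * c2 / (η * c1) * T * |LLg φ d (1 / 2)| := by
      have h7 : |N| * T * (3 / 2) ≤ 2 * c2 * |LLg φ d (1 / 2)| * T * (3 / 2) := by gcongr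
      have e : 6 * c2 / (η * c1) * T * |LLg φ d (1 / 2)| = (3 * c2 * |LLg φ d (1 / 2)| * T) / (η * (c1 / 2)) := by
        field_simp
        ring
      rw [e, le_div_iff₀ (by positivity)]
      linarith
    calc E ≤ 6 * c2 / (η * c1) * T * |LLg φ d (1 / 2)| := g10
      _ ≤ Real.log L * T * |LLg φ d (1 / 2)| := by gcongr
      _ ≤ _ := by
          apply mul_le_mul_of_nonneg_right _ (abs_nonneg _)
          rw [hT, mul_comm, ← pow_succ]
          exact pow_le_pow_right₀ hlog (by omega)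
  refine ⟨4 * ka + 1 + (kb + 1) + 1, fun ε hε => ?_, fun η hη ε hε => ?_⟩
  · obtain ⟨K, hK⟩ := hG4 (ε / 2) (by positivity)
    have hE1 := cheb φ hF hF0 (Ca * Kq ^ 2) (4 * ka) (fun L d =>
      Nfg φ L (KGg φ L (beg φ L d) (Ph ρ 0)) d * MM φ L r κ d (xL L / L)) mA (ε := ε / 2) (by positivity)
    filter_upwards [hK, hE1, det, xL_facts] with L h1 h2 h3 h4
    obtain ⟨hL4, hlog, hx, hxL, -⟩ := h4
    have hL0 : 0 < L := by linarith
    refine (cnt_supp hF hF0 L (B := (SFg φ ∩ {d | ¬ GoodM φ L r κ 1 K d}) ∪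
      (SFg φ ∩ {d | Real.log L ^ (4 * ka + 1) <
        |Nfg φ L (KGg φ L (beg φ L d) (Ph ρ 0)) d * MM φ L r κ d (xL L / L)|})) ?_).trans ?_
    · intro d hd hFd
      by_contra hB
      rw [Set.mem_union, not_or] at hB
      obtain ⟨b1, b2⟩ := hB
      have b3 : GoodM φ L r κ 1 K d := by
        by_contra h
        exact b1 ⟨hd.1, h⟩
      have b4 : |Nfg φ L (KGg φ L (beg φ L d) (Ph ρ 0)) d * MM φ L r κ d (xL L / L)| ≤
          Real.log L ^ (4 * ka + 1) := by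
        by_contra h
        exact b2 ⟨hd.1, not_le.1 h⟩
      have b5 := b3 (xL L / L) (by unfold xL; exact le_rfl) (by
        rw [div_le_iff₀ hL0]; linarith)
      exact hd.2 (h3 d hd.1 hFd b5.1 b4)
    · refine (cnt_union hF hF0 L _ _).trans ?_
      linarith
  · obtain ⟨K, hK⟩ := hG4 (ε / 3) (by positivity)
    have hE2 := cheb φ hF hF0 (Cb * BQ ^ 2) kb (fun L d =>
      Nfg φ L (KGg φ L (beg φ L d) (Ph ρ (xL L))) d * Mdg φ 2 L Q d) mB (ε := ε / 3) (by positivity)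
    filter_upwards [hK, hE2, hG3 (ε / 3) (by positivity), det2 η hη, xL_facts] with L h1 h2 h3 h4 h5
    obtain ⟨hL4, hlog, hx, hxL, -⟩ := h5
    have hL0 : 0 < L := by linarith
    refine (cnt_supp hF hF0 L (B := (SFg φ ∩ {d | ¬ GoodM φ L r κ 1 K d}) ∪
      ((SFg φ ∩ {d | Real.log L ^ (kb + 1) <
        |Nfg φ L (KGg φ L (beg φ L d) (Ph ρ (xL L))) d * Mdg φ 2 L Q d|}) ∪
        (SFg φ ∩ {d | c1 / 2 < |Gug φ L ρ r κ d (xL L)|}))) ?_).trans ?_
    · intro d hd hFd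
      by_contra hB
      rw [Set.mem_union, Set.mem_union, not_or, not_or] at hB
      obtain ⟨b1, b2, b2'⟩ := hB
      have b3 : GoodM φ L r κ 1 K d := by
        by_contra h
        exact b1 ⟨hd.1, h⟩
      have b4 : |Nfg φ L (KGg φ L (beg φ L d) (Ph ρ (xL L))) d * Mdg φ 2 L Q d| ≤ Real.log L ^ (kb + 1) := by
        by_contra h
        exact b2 ⟨hd.1, not_le.1 h⟩
      have b4' : |Gug φ L ρ r κ d (xL L)| ≤ c1 / 2 := by
        by_contra h
        exact b2' ⟨hd.1, not_le.1 h⟩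
      have b5 := b3 (xL L / L) (by unfold xL; exact le_rfl) (by
        rw [div_le_iff₀ hL0]; linarith)
      exact hd.2.2 (h4 d hd.1 hFd b5.1 b5.2.1 b4' b4 hd.2.1)
    · refine (cnt_union hF hF0 L _ _).trans ?_
      have := cnt_union hF hF0 L (SFg φ ∩ {d | Real.log L ^ (kb + 1) <
        |Nfg φ L (KGg φ L (beg φ L d) (Ph ρ (xL L))) d * Mdg φ 2 L Q d|})
        (SFg φ ∩ {d | c1 / 2 < |Gug φ L ρ r κ d (xL L)|})
      linarith

end

end Pool.Agent.V8H36.CV
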