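import Pool.Agent.V8H36.CV.Fin

set_option autoImplicit false
set_option linter.all false
set_option maxHeartbeats 4000000

/-!
Central values, part 10: the moments outside sparse sets.
-/

namespace Pool.Agent.V8H36.CV

open Finset Filter Topology MeasureTheory ProbabilityTheory

noncomputable section

lemma cv_nonneg (p : Σ N : ℕ, DirichletCharacter ℂ N) : 0 ≤ cv p := by
  unfold cv
  split_ifs
  · exact le_refl _
  · exact norm_nonneg _

theorem part3 (s : ℤ) (k δ ε : ℝ) (hk : 0 < k) (hδ : 0 < δ) (hε : 0 < ε) : ∀ᶠ X : ℕ in atTop,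
    (∃ T : Finset (Σ N : ℕ, DirichletCharacter ℂ N), (T : Set _) ⊆ chars s X ∧
      (1 - ε) * (chars s X).ncard ≤ (T.card : ℝ) ∧
      ∑ p ∈ T, cv p ^ k ≤ Real.log X ^ (k / 2 + δ) * (chars s X).ncard) ∧
    ∀ T : Finset (Σ N : ℕ, DirichletCharacter ℂ N), (T : Set _) ⊆ chars s X →
      (1 / 8 + ε) * (chars s X).ncard ≤ (T.card : ℝ) →
      Real.log X ^ (k / 2 - δ) * (chars s X).ncard ≤ ∑ p ∈ T, cv p ^ k := by
  classical
  obtain ⟨M1, hM1⟩ := Gt_top (ε / 2) (by positivity)
  obtain ⟨M2, hM2⟩ := Gt_bot (ε / 4) (by positivity)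
  set M : ℝ := |M1| + |M2| with hM
  have hM0 : 0 ≤ M := by positivity
  have g1 : Gt M ≤ ε / 2 := hM1 M (by have := le_abs_self M1; have := abs_nonneg M2; linarith)
  have g2 : 1 - ε / 4 ≤ Gt (-M) := hM2 (-M) (by have := neg_abs_le M2; have := abs_nonneg M1; linarith)
  have hlogX : Tendsto (fun X : ℕ => Real.log X) atTop atTop :=
    Real.tendsto_log_atTop.comp tendsto_natCast_atTop_atTop
  have hllX : Tendsto (fun X : ℕ => Real.log (Real.log X)) atTop atTop :=
    Real.tendsto_log_atTop.comp hlogX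
  have hsq : Tendsto (fun X : ℕ => Real.sqrt (Real.log (Real.log X))) atTop atTop :=
    Real.tendsto_sqrt_atTop.comp hllX
  filter_upwards [part2_pt s M (ε / 2) (by positivity), part2_pt s (-M) (ε / 4) (by positivity),
    hlogX.eventually_gt_atTop 0, hllX.eventually_ge_atTop 1, hsq.eventually_ge_atTop (2 * k * M / δ),
    hllX.eventually_ge_atTop (2 / δ * Real.log (2 / ε))] with X h1 h2 h3 h4 h5 h6
  set L : ℝ := Real.log X with hL
  set l : ℝ := Real.log L with hl
  set N : ℝ := ((chars s X).ncard : ℝ) with hN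
  have hN0 : 0 ≤ N := Nat.cast_nonneg _
  have hfin := chars_fin s X
  have hsl : Real.sqrt l * Real.sqrt l = l := Real.mul_self_sqrt (by linarith)
  have hsl0 : 0 ≤ Real.sqrt l := Real.sqrt_nonneg _
  have h5' : k * M * Real.sqrt l ≤ δ / 2 * l := by
    rw [div_le_iff₀ hδ] at h5
    have : (2 * k * M) * Real.sqrt l ≤ (Real.sqrt l * δ) * Real.sqrt l := mul_le_mul_of_nonneg_right h5 hsl0
    nlinarith
  have hpow : ∀ y : ℝ, L ^ y = Real.exp (l * y) := fun y => Real.rpow_def_of_pos h3 y
  have hfilt : ∀ P : (Σ N : ℕ, DirichletCharacter ℂ N) → Prop,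
      ((chars s X ∩ {p | P p}).ncard : ℝ) = (hfin.toFinset.filter P).card := by
    intro P
    rw [← Set.ncard_coe_finset]
    congr 1
    congr 1
    ext p
    simp
  have hNc : N = (hfin.toFinset.card : ℝ) := by
    rw [hN, Set.ncard_eq_toFinset_card _ hfin]
  rw [hfilt] at h1 h2
  constructor
  · refine ⟨hfin.toFinset.filter (fun p => ¬ Ev X M p), ?_, ?_, ?_⟩
    · intro p hp
      rw [Finset.mem_coe, Finset.mem_filter, Set.Finite.mem_toFinset] at hp
      exact hp.1
    · have k1 := Finset.card_filter_add_card_filter_not (s := hfin.toFinset) (fun p => Ev X M p)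
      have k2 : ((hfin.toFinset.filter (fun p => Ev X M p)).card : ℝ) +
          (hfin.toFinset.filter (fun p => ¬ Ev X M p)).card = N := by
        rw [hNc]
        exact_mod_cast k1
      have k3 : ((hfin.toFinset.filter (fun p => Ev X M p)).card : ℝ) ≤ (Gt M + ε / 2) * N := h1.2
      have k4 : (Gt M + ε / 2) * N ≤ ε * N := mul_le_mul_of_nonneg_right (by linarith) hN0
      linarith
    · have k1 : ∀ p ∈ hfin.toFinset.filter (fun p => ¬ Ev X M p), cv p ^ k ≤ L ^ (k / 2 + δ) := by
        intro p hp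
        rw [Finset.mem_filter] at hp
        have a1 : cv p ≤ Real.exp (1 / 2 * l + M * Real.sqrt l) := not_lt.1 hp.2
        calc cv p ^ k ≤ Real.exp (1 / 2 * l + M * Real.sqrt l) ^ k :=
              Real.rpow_le_rpow (cv_nonneg p) a1 hk.le
          _ = Real.exp ((1 / 2 * l + M * Real.sqrt l) * k) := by rw [← Real.exp_mul]
          _ ≤ L ^ (k / 2 + δ) := by
              rw [hpow]
              apply Real.exp_le_exp.2
              have : 0 ≤ δ / 2 * l := by positivity
              linarith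
      refine (Finset.sum_le_sum k1).trans ?_
      rw [Finset.sum_const, nsmul_eq_mul, mul_comm]
      apply mul_le_mul_of_nonneg_left _ (Real.rpow_nonneg h3.le _)
      rw [hNc]
      exact_mod_cast Finset.card_le_card (Finset.filter_subset _ _)
  · intro T hT hTc
    have hTs : T ⊆ hfin.toFinset := by
      intro p hp
      rw [Set.Finite.mem_toFinset]
      exact hT hp
    set S := hfin.toFinset.filter (fun p => Ev X (-M) p) with hS
    have k1 : (Gt (-M) - 1 / 8 - ε / 4) * N ≤ (S.card : ℝ) := h2.1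
    have k2 : (T.card : ℝ) + S.card ≤ (T ∩ S).card + N := by
      have e1 := Finset.card_union_add_card_inter T S
      have e2 : (T ∪ S).card ≤ hfin.toFinset.card :=
        Finset.card_le_card (Finset.union_subset hTs (Finset.filter_subset _ _))
      rw [hNc]
      have : T.card + S.card ≤ (T ∩ S).card + hfin.toFinset.card := by omega
      exact_mod_cast this
    have k3 : ε / 2 * N ≤ ((T ∩ S).card : ℝ) := by
      have a1 : (1 - ε / 4 - 1 / 8 - ε / 4) * N ≤ (Gt (-M) - 1 / 8 - ε / 4) * N :=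
        mul_le_mul_of_nonneg_right (by linarith) hN0
      linarith
    have k4 : ∀ p ∈ T ∩ S, L ^ (k / 2 - δ / 2) ≤ cv p ^ k := by
      intro p hp
      rw [Finset.mem_inter, hS, Finset.mem_filter] at hp
      have a1 : Real.exp (1 / 2 * l + -M * Real.sqrt l) ≤ cv p := le_of_lt hp.2.2
      calc L ^ (k / 2 - δ / 2) ≤ Real.exp ((1 / 2 * l + -M * Real.sqrt l) * k) := by
            rw [hpow]
            apply Real.exp_le_exp.2
            linarith
        _ = Real.exp (1 / 2 * l + -M * Real.sqrt l) ^ k := by rw [← Real.exp_mul]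
        _ ≤ cv p ^ k := Real.rpow_le_rpow (Real.exp_pos _).le a1 hk.le
    have k5 : L ^ (k / 2 - δ) ≤ L ^ (k / 2 - δ / 2) * (ε / 2) := by
      rw [hpow, hpow]
      have a1 : 2 / ε ≤ Real.exp (l * (δ / 2)) := by
        rw [← Real.exp_log (show (0 : ℝ) < 2 / ε by positivity)]
        apply Real.exp_le_exp.2
        have a2 : 2 / δ * Real.log (2 / ε) * (δ / 2) ≤ l * (δ / 2) := mul_le_mul_of_nonneg_right h6 (by positivity)
        have a3 : 2 / δ * Real.log (2 / ε) * (δ / 2) = Real.log (2 / ε) := by field_simp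
        linarith
      have a4 : Real.exp (l * (k / 2 - δ / 2)) = Real.exp (l * (k / 2 - δ)) * Real.exp (l * (δ / 2)) := by
        rw [← Real.exp_add]
        congr 1
        ring
      rw [a4]
      have a5 : 1 ≤ Real.exp (l * (δ / 2)) * (ε / 2) := by
        calc (1 : ℝ) = 2 / ε * (ε / 2) := by field_simp
          _ ≤ _ := mul_le_mul_of_nonneg_right a1 (by positivity)
      calc Real.exp (l * (k / 2 - δ)) = Real.exp (l * (k / 2 - δ)) * 1 := (mul_one _).symm
        _ ≤ Real.exp (l * (k / 2 - δ)) * (Real.exp (l * (δ / 2)) * (ε / 2)) :=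
            mul_le_mul_of_nonneg_left a5 (Real.exp_pos _).le
        _ = _ := by ring
    have hp0 : 0 ≤ L ^ (k / 2 - δ / 2) := Real.rpow_nonneg h3.le _
    calc L ^ (k / 2 - δ) * N ≤ (L ^ (k / 2 - δ / 2) * (ε / 2)) * N := mul_le_mul_of_nonneg_right k5 hN0
      _ = L ^ (k / 2 - δ / 2) * (ε / 2 * N) := by ring
      _ ≤ L ^ (k / 2 - δ / 2) * (T ∩ S).card := mul_le_mul_of_nonneg_left k3 hp0
      _ = ∑ p ∈ T ∩ S, L ^ (k / 2 - δ / 2) := by rw [Finset.sum_const, nsmul_eq_mul, mul_comm]
      _ ≤ ∑ p ∈ T ∩ S, cv p ^ k := Finset.sum_le_sum k4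
      _ ≤ ∑ p ∈ T, cv p ^ k := Finset.sum_le_sum_of_subset_of_nonneg Finset.inter_subset_left
          fun p _ _ => Real.rpow_nonneg (cv_nonneg p) _

end

end Pool.Agent.V8H36.CV
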