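import Pool.Agent.V8H36.CV.Clt

set_option autoImplicit false
set_option linter.all false
set_option maxHeartbeats 4000000

/-!
Central values, part 8: the normal law in a family.
-/

namespace Pool.Agent.V8H36.CV

open Finset Filter Topology MeasureTheory ProbabilityTheory
open Pool.Agent.H306R2.RZ Pool.Agent.H306R2.RG
open Pool.Agent.R318.QL
open Pool.Agent.R318.QL.CL

noncomputable section

/-! ### the Gaussian tail -/

/-- the Gaussian tail -/
def Gt (t : ℝ) : ℝ := (gaussianReal 0 1 (Set.Ioi t)).toReal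

lemma gauss_le_vol (S : Set ℝ) : gaussianReal 0 1 S ≤ volume S := by
  rw [gaussianReal_of_var_ne_zero 0 (by norm_num : (1 : NNReal) ≠ 0)]
  calc (volume.withDensity (gaussianPDF 0 1)) S ≤ (volume.withDensity (fun _ => (1 : ENNReal))) S := by
        apply withDensity_mono (Filter.Eventually.of_forall fun x => ?_) S
        unfold gaussianPDF
        rw [← ENNReal.ofReal_one]
        apply ENNReal.ofReal_le_ofReal
        unfold gaussianPDFReal
        have h1 : Real.exp (-(x - 0) ^ 2 / (2 * ((1 : NNReal) : ℝ))) ≤ 1 := by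
          rw [Real.exp_le_one_iff]
          have := sq_nonneg (x - 0)
          simp only [NNReal.coe_one, mul_one]
          linarith
        have h2 : (Real.sqrt (2 * Real.pi * ((1 : NNReal) : ℝ)))⁻¹ ≤ 1 := by
          apply inv_le_one_of_one_le₀
          rw [show (1 : ℝ) = Real.sqrt 1 by rw [Real.sqrt_one]]
          apply Real.sqrt_le_sqrt
          have := Real.pi_gt_three
          simp only [NNReal.coe_one, mul_one, Real.sqrt_one]
          linarith
        calc _ ≤ (1 : ℝ) * 1 := mul_le_mul h2 h1 (Real.exp_pos _).le (by norm_num)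
          _ = 1 := one_mul _
    _ = volume S := by rw [show (fun _ : ℝ => (1 : ENNReal)) = 1 from rfl, withDensity_one]

lemma Gt_nonneg (t : ℝ) : 0 ≤ Gt t := ENNReal.toReal_nonneg

lemma Gt_le_one (t : ℝ) : Gt t ≤ 1 := by
  unfold Gt
  have h : gaussianReal 0 1 (Set.Ioi t) ≤ 1 := prob_le_one
  calc _ ≤ (1 : ENNReal).toReal := ENNReal.toReal_mono (by simp) h
    _ = 1 := by simp

lemma Gt_anti : Antitone Gt := fun s t h =>
  ENNReal.toReal_mono (measure_ne_top _ _) (measure_mono (Set.Ioi_subset_Ioi h))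

lemma Gt_lip {s t : ℝ} (h : s ≤ t) : Gt s ≤ Gt t + (t - s) := by
  unfold Gt
  have h1 : gaussianReal 0 1 (Set.Ioi s) ≤ gaussianReal 0 1 (Set.Ioi t) + ENNReal.ofReal (t - s) := by
    calc gaussianReal 0 1 (Set.Ioi s) ≤ gaussianReal 0 1 (Set.Ioi t ∪ Set.Ioc s t) := by
          apply measure_mono
          intro x hx
          by_cases h2 : x ≤ t
          · exact Or.inr ⟨hx, h2⟩
          · exact Or.inl (not_le.1 h2)
      _ ≤ gaussianReal 0 1 (Set.Ioi t) + gaussianReal 0 1 (Set.Ioc s t) := measure_union_le _ _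
      _ ≤ _ := by
          gcongr
          refine (gauss_le_vol _).trans ?_
          rw [Real.volume_Ioc]
  calc _ ≤ (gaussianReal 0 1 (Set.Ioi t) + ENNReal.ofReal (t - s)).toReal :=
        ENNReal.toReal_mono (by simp [measure_ne_top]) h1
    _ = _ := by
        rw [ENNReal.toReal_add (measure_ne_top _ _) ENNReal.ofReal_ne_top,
          ENNReal.toReal_ofReal (by linarith)]

/-- the lower part -/
lemma Gt_compl (t : ℝ) : (gaussianReal 0 1 (Set.Iio t)).toReal = 1 - Gt t := by
  have h1 : gaussianReal 0 1 (Set.Iio t) + gaussianReal 0 1 (Set.Ici t) = 1 := by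
    rw [← Set.compl_Iio, prob_add_prob_compl measurableSet_Iio]
  have h2 : gaussianReal 0 1 (Set.Ici t) = gaussianReal 0 1 (Set.Ioi t) := by
    apply le_antisymm
    · calc gaussianReal 0 1 (Set.Ici t) ≤ gaussianReal 0 1 (Set.Ioi t ∪ {t}) := by
            apply measure_mono
            intro x hx
            rcases eq_or_lt_of_le (Set.mem_Ici.1 hx) with h | h
            · exact Or.inr h.symm
            · exact Or.inl h
        _ ≤ gaussianReal 0 1 (Set.Ioi t) + gaussianReal 0 1 {t} := measure_union_le _ _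
        _ ≤ gaussianReal 0 1 (Set.Ioi t) + 0 := by
            gcongr
            refine (gauss_le_vol _).trans ?_
            simp
        _ = _ := add_zero _
    · exact measure_mono Set.Ioi_subset_Ici_self
  rw [h2] at h1
  have h3 := congrArg ENNReal.toReal h1
  rw [ENNReal.toReal_add (measure_ne_top _ _) (measure_ne_top _ _)] at h3
  unfold Gt
  simp only [ENNReal.toReal_one] at h3
  linarith

lemma Gt_top (ε : ℝ) (hε : 0 < ε) : ∃ M : ℝ, ∀ t : ℝ, M ≤ t → Gt t ≤ ε := by
  have h1 : Tendsto (fun n : ℕ => gaussianReal 0 1 (Set.Ioi (n : ℝ))) atTop (𝓝 (gaussianReal 0 1 (⋂ n : ℕ, Set.Ioi (n : ℝ)))) := by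
    apply tendsto_measure_iInter_atTop
    · intro n
      exact measurableSet_Ioi.nullMeasurableSet
    · intro m n h
      exact Set.Ioi_subset_Ioi (by exact_mod_cast h)
    · exact ⟨0, measure_ne_top _ _⟩
  have h2 : (⋂ n : ℕ, Set.Ioi (n : ℝ)) = ∅ := by
    ext x
    simp only [Set.mem_iInter, Set.mem_Ioi, Set.mem_empty_iff_false, iff_false, not_forall, not_lt]
    exact exists_nat_ge x
  rw [h2, measure_empty] at h1
  have h3 : Tendsto (fun n : ℕ => Gt n) atTop (𝓝 0) := by
    have := (ENNReal.tendsto_toReal ENNReal.zero_ne_top).comp h1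
    simpa [Gt, Function.comp_def] using this
  obtain ⟨n, hn⟩ := (h3.eventually (gt_mem_nhds hε)).exists
  exact ⟨n, fun t ht => (Gt_anti ht).trans hn.le⟩

lemma Gt_bot (ε : ℝ) (hε : 0 < ε) : ∃ M : ℝ, ∀ t : ℝ, t ≤ M → 1 - ε ≤ Gt t := by
  have h1 : Tendsto (fun n : ℕ => gaussianReal 0 1 (Set.Ioi (-(n : ℝ)))) atTop
      (𝓝 (gaussianReal 0 1 (⋃ n : ℕ, Set.Ioi (-(n : ℝ))))) := by
    apply tendsto_measure_iUnion_atTop
    intro m n h
    exact Set.Ioi_subset_Ioi (by simpa using h)
  have h2 : (⋃ n : ℕ, Set.Ioi (-(n : ℝ))) = Set.univ := by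
    ext x
    simp only [Set.mem_iUnion, Set.mem_Ioi, Set.mem_univ, iff_true]
    obtain ⟨n, hn⟩ := exists_nat_gt (-x)
    exact ⟨n, by linarith⟩
  rw [h2, measure_univ] at h1
  have h3 : Tendsto (fun n : ℕ => Gt (-(n : ℝ))) atTop (𝓝 1) := by
    have := (ENNReal.tendsto_toReal ENNReal.one_ne_top).comp h1
    simpa [Gt, Function.comp_def] using this
  obtain ⟨n, hn⟩ := (h3.eventually (lt_mem_nhds (show 1 - ε < 1 by linarith))).exists
  exact ⟨-n, fun t ht => hn.le.trans (Gt_anti ht)⟩

/-- uniformity: it suffices to treat finitely many points -/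
lemma uni_grid (ε : ℝ) (hε : 0 < ε) : ∃ T : Finset ℝ, ∀ (N : ℝ) (f : ℝ → ℝ) (c : ℝ), 0 ≤ c → Antitone f →
    (∀ t, 0 ≤ f t) → (∀ t, f t ≤ N) →
    (∀ t ∈ T, (Gt t - c - ε / 2) * N ≤ f t ∧ f t ≤ (Gt t + ε / 2) * N) →
    ∀ t, (Gt t - c - ε) * N ≤ f t ∧ f t ≤ (Gt t + ε) * N := by
  obtain ⟨M1, hM1⟩ := Gt_top (ε / 2) (by positivity)
  obtain ⟨M2, hM2⟩ := Gt_bot (ε / 2) (by positivity)
  set η : ℝ := ε / 2 with hη
  have hη0 : 0 < η := by positivity
  obtain ⟨J, hJ⟩ := exists_nat_gt ((|M1| + |M2|) / η)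
  rw [div_lt_iff₀ hη0] at hJ
  refine ⟨(Finset.Icc (-(J : ℤ)) J).image (fun j : ℤ => (j : ℝ) * η), ?_⟩
  intro N f c hc hf hf0 hfN hT t
  have hN : 0 ≤ N := (hf0 0).trans (hfN 0)
  have hJ1 : (J : ℝ) * η ∈ (Finset.Icc (-(J : ℤ)) J).image (fun j : ℤ => (j : ℝ) * η) := by
    rw [Finset.mem_image]
    exact ⟨J, by rw [Finset.mem_Icc]; constructor <;> omega, by push_cast; ring⟩
  have hJ2 : -((J : ℝ) * η) ∈ (Finset.Icc (-(J : ℤ)) J).image (fun j : ℤ => (j : ℝ) * η) := by
    rw [Finset.mem_image]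
    exact ⟨-J, by rw [Finset.mem_Icc]; constructor <;> omega, by push_cast; ring⟩
  have g1 := hM1 ((J : ℝ) * η) (by have := le_abs_self M1; have := abs_nonneg M2; linarith)
  have g2 := hM2 (-((J : ℝ) * η)) (by have := neg_abs_le M2; have := abs_nonneg M1; linarith)
  have gt0 := Gt_nonneg t
  have gt1 := Gt_le_one t
  set j : ℤ := ⌊t / η⌋ with hj
  have hj1 : (j : ℝ) * η ≤ t := by
    have := Int.floor_le (t / η)
    rwa [le_div_iff₀ hη0] at this
  have hj2 : t < ((j : ℝ) + 1) * η := by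
    have := Int.lt_floor_add_one (t / η)
    rwa [div_lt_iff₀ hη0] at this
  rcases lt_or_ge j (-(J : ℤ)) with h1 | h1
  · have h2 : ((j : ℝ) + 1) ≤ -J := by exact_mod_cast h1
    have h3 : t ≤ -((J : ℝ) * η) := by nlinarith
    obtain ⟨k1, k2⟩ := hT _ hJ2
    constructor
    · refine le_trans ?_ (k1.trans (hf h3))
      apply mul_le_mul_of_nonneg_right _ hN
      linarith
    · refine (hfN t).trans ?_
      have := Gt_anti h3
      nlinarith
  · rcases lt_or_ge j (J : ℤ) with h2 | h2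
    · have hT1 : (j : ℝ) * η ∈ (Finset.Icc (-(J : ℤ)) J).image (fun j : ℤ => (j : ℝ) * η) := by
        rw [Finset.mem_image]
        exact ⟨j, by rw [Finset.mem_Icc]; constructor <;> omega, rfl⟩
      have hT2 : ((j : ℝ) + 1) * η ∈ (Finset.Icc (-(J : ℤ)) J).image (fun j : ℤ => (j : ℝ) * η) := by
        rw [Finset.mem_image]
        exact ⟨j + 1, by rw [Finset.mem_Icc]; constructor <;> omega, by push_cast; ring⟩
      obtain ⟨k1, k2⟩ := hT _ hT1
      obtain ⟨k3, k4⟩ := hT _ hT2
      constructor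
      · refine le_trans ?_ (k3.trans (hf hj2.le))
        apply mul_le_mul_of_nonneg_right _ hN
        have := Gt_lip hj2.le
        have e : ((j : ℝ) + 1) * η - t ≤ η := by nlinarith
        linarith
      · refine (hf hj1).trans (k2.trans ?_)
        apply mul_le_mul_of_nonneg_right _ hN
        have := Gt_lip hj1
        have e : t - (j : ℝ) * η ≤ η := by nlinarith
        linarith
    · have h3 : (J : ℝ) ≤ j := by exact_mod_cast h2
      have h4 : (J : ℝ) * η ≤ t := by nlinarith
      obtain ⟨k1, k2⟩ := hT _ hJ1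
      constructor
      · refine le_trans ?_ (hf0 t)
        apply mul_nonpos_of_nonpos_of_nonneg _ hN
        have := Gt_anti h4
        linarith
      · refine (hf h4).trans (k2.trans ?_)
        apply mul_le_mul_of_nonneg_right _ hN
        linarith

/-! ### the law in a family -/

open Classical in
theorem fam_law (φ : FD) (hfam : Fam φ) (hφ : FG φ) (hC : CG φ) (t : ℝ) (ε : ℝ) (hε : 0 < ε) :
    ∀ᶠ X : ℕ in atTop,
      (((AX φ (X / φ.r)).filter (fun d => Real.exp (1 / 2 * Real.log (Real.log X) +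
        t * Real.sqrt (Real.log (Real.log X))) < |LLg φ d (1 / 2)|)).card : ℝ) ≤
          (Gt t + ε) * (AX φ (X / φ.r)).card ∧
      (Gt t - 1 / 8 - ε) * (AX φ (X / φ.r)).card ≤
        (((AX φ (X / φ.r)).filter (fun d => Real.exp (1 / 2 * Real.log (Real.log X) +
        t * Real.sqrt (Real.log (Real.log X))) < |LLg φ d (1 / 2)|)).card : ℝ) := by
  obtain ⟨ε', hε'⟩ : ∃ e : ℝ, ε = 4 * e := ⟨ε / 4, by ring⟩
  have hε0 : 0 < ε' := by linarith
  obtain ⟨V1, hV1⟩ : ∃ V : Set ℝ, V = Set.Iio (t - ε') := ⟨_, rfl⟩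
  obtain ⟨V2, hV2⟩ : ∃ V : Set ℝ, V = Set.Ioi (t + ε') := ⟨_, rfl⟩
  obtain ⟨A, hA0, hcnt⟩ := fam_count φ hfam hφ hC ε' hε0
  have hlogX : Tendsto (fun X : ℕ => Real.log X) atTop atTop :=
    Real.tendsto_log_atTop.comp tendsto_natCast_atTop_atTop
  have hllX : Tendsto (fun X : ℕ => Real.log (Real.log X)) atTop atTop :=
    Real.tendsto_log_atTop.comp hlogX
  have hsmall : ∀ᶠ l : ℝ in atTop, Real.sqrt (Real.sqrt l) + 1 + A * Real.log l ≤ ε' * Real.sqrt l ∧ 0 < Real.sqrt l := by
    have hA1 : 0 < ε' / (3 * A) := by positivity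
    have h1 := (isLittleO_log_rpow_atTop (show (0 : ℝ) < 1 / 2 by norm_num)).bound hA1
    have hs : Tendsto Real.sqrt atTop atTop := Real.tendsto_sqrt_atTop
    have h2 : ∀ᶠ y : ℝ in atTop, Real.sqrt y ≤ ε' / 3 * y := by
      filter_upwards [hs.eventually_ge_atTop (3 / ε'), eventually_ge_atTop (0 : ℝ)] with y hy hy0
      have h3 : Real.sqrt y * Real.sqrt y = y := Real.mul_self_sqrt hy0
      rw [div_le_iff₀ hε0] at hy
      have h4 := Real.sqrt_nonneg y
      nlinarith
    filter_upwards [h1, hs.eventually h2, hs.eventually_ge_atTop (3 / ε'), eventually_ge_atTop (1 : ℝ)]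
      with l k1 k2 k3 k4
    have k5 := Real.log_nonneg k4
    rw [Real.norm_of_nonneg k5, ← Real.sqrt_eq_rpow, Real.norm_of_nonneg (Real.sqrt_nonneg _)] at k1
    have k6 : A * Real.log l ≤ ε' / 3 * Real.sqrt l := by
      calc A * Real.log l ≤ A * (ε' / (3 * A) * Real.sqrt l) := mul_le_mul_of_nonneg_left k1 hA0.le
        _ = _ := by field_simp
    rw [div_le_iff₀ hε0] at k3
    refine ⟨by linarith, Real.sqrt_pos.2 (by linarith)⟩
  have hδ := hφ.hδ
  have hr := hφ.hr.1
  filter_upwards [hcnt, hllX.eventually hsmall, hlogX.eventually SS_YY,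
    fam_openR φ hfam hδ φ.r hr V1 (hV1 ▸ isOpen_Iio) ε' hε0,
    fam_openR φ hfam hδ φ.r hr V2 (hV2 ▸ isOpen_Ioi) ε' hε0] with X h1 h2 h3 h4 h5
  obtain ⟨c1, c2⟩ := h1
  obtain ⟨s1, s2⟩ := h2
  set L : ℝ := Real.log X with hL
  set l : ℝ := Real.log L with hl
  set U := AX φ (X / φ.r) with hU
  have hU0 : (0 : ℝ) ≤ U.card := Nat.cast_nonneg _
  have e4 : (gaussianReal 0 1 V1).toReal = 1 - Gt (t - ε') := by rw [hV1, Gt_compl]
  have e5 : (gaussianReal 0 1 V2).toReal = Gt (t + ε') := by rw [hV2]; rfl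
  rw [e4] at h4
  rw [e5] at h5
  constructor
  · -- the upper bound
    have k1 : U.filter (fun d => Real.exp (1 / 2 * l + t * Real.sqrt l) < |LLg φ d (1 / 2)|) ⊆
        U.filter (fun d => ¬ Up φ L A d) ∪ U.filter (fun d => ¬ YY φ L d ∈ V1) := by
      intro d hd
      rw [Finset.mem_filter] at hd
      rw [Finset.mem_union, Finset.mem_filter, Finset.mem_filter]
      by_contra hcon
      rw [not_or] at hcon
      have a1 : Up φ L A d := by
        by_contra h
        exact hcon.1 ⟨hd.1, h⟩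
      have a2 : YY φ L d < t - ε' := by
        by_contra h
        refine hcon.2 ⟨hd.1, ?_⟩
        rw [hV1]
        exact h
      have a3 : |LLg φ d (1 / 2)| ≤ Real.exp (1 / 2 * l + SS φ L d + A * Real.log l) := a1
      have a4 := (abs_le.1 (h3 φ d)).2
      have a5 : Real.sqrt l * YY φ L d ≤ Real.sqrt l * (t - ε') := mul_le_mul_of_nonneg_left a2.le s2.le
      have a6 : Real.exp (1 / 2 * l + SS φ L d + A * Real.log l) ≤ Real.exp (1 / 2 * l + t * Real.sqrt l) := by
        apply Real.exp_le_exp.2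
        linarith
      linarith [hd.2]
    have k2 := (Finset.card_le_card k1).trans (Finset.card_union_le _ _)
    have k3 : ((U.filter (fun d => Real.exp (1 / 2 * l + t * Real.sqrt l) < |LLg φ d (1 / 2)|)).card : ℝ) ≤
        (U.filter (fun d => ¬ Up φ L A d)).card + (U.filter (fun d => ¬ YY φ L d ∈ V1)).card := by
      exact_mod_cast k2
    have k4 := Finset.card_filter_add_card_filter_not (s := U) (fun d : ℕ => YY φ L d ∈ V1)
    have k5 : ((U.filter (fun d => YY φ L d ∈ V1)).card : ℝ) +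
        (U.filter (fun d => ¬ YY φ L d ∈ V1)).card = U.card := by exact_mod_cast k4
    have k6 := Gt_lip (show t - ε' ≤ t by linarith)
    have k7 : Gt (t - ε') * U.card ≤ (Gt t + ε') * U.card := mul_le_mul_of_nonneg_right (by linarith) hU0
    rw [hε']
    have e0 : 0 ≤ ε' * (U.card : ℝ) := mul_nonneg hε0.le hU0
    linarith
  · -- the lower bound
    have k1 : U.filter (fun d => YY φ L d ∈ V2) ⊆ U.filter (fun d => ¬ Lo φ L A d) ∪
        U.filter (fun d => Real.exp (1 / 2 * l + t * Real.sqrt l) < |LLg φ d (1 / 2)|) := by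
      intro d hd
      rw [Finset.mem_filter] at hd
      rw [Finset.mem_union, Finset.mem_filter, Finset.mem_filter]
      by_contra hcon
      rw [not_or] at hcon
      have a1 : Lo φ L A d := by
        by_contra h
        exact hcon.1 ⟨hd.1, h⟩
      have a2 : |LLg φ d (1 / 2)| ≤ Real.exp (1 / 2 * l + t * Real.sqrt l) := by
        by_contra h
        exact hcon.2 ⟨hd.1, not_le.1 h⟩
      have a3 : Real.exp (1 / 2 * l + SS φ L d - A * Real.log l) ≤ |LLg φ d (1 / 2)| := a1
      have a4 := (abs_le.1 (h3 φ d)).1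
      have a7 : t + ε' < YY φ L d := by
        have := hd.2
        rw [hV2] at this
        exact this
      have a5 : Real.sqrt l * (t + ε') < Real.sqrt l * YY φ L d := mul_lt_mul_of_pos_left a7 s2
      have a6 : Real.exp (1 / 2 * l + t * Real.sqrt l) < Real.exp (1 / 2 * l + SS φ L d - A * Real.log l) := by
        apply Real.exp_lt_exp.2
        linarith
      linarith
    have k2 := (Finset.card_le_card k1).trans (Finset.card_union_le _ _)
    have k3 : ((U.filter (fun d => YY φ L d ∈ V2)).card : ℝ) ≤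
        (U.filter (fun d => ¬ Lo φ L A d)).card +
        (U.filter (fun d => Real.exp (1 / 2 * l + t * Real.sqrt l) < |LLg φ d (1 / 2)|)).card := by
      exact_mod_cast k2
    have k6 := Gt_lip (show t ≤ t + ε' by linarith)
    have k7 : (Gt t - ε') * U.card ≤ Gt (t + ε') * U.card := mul_le_mul_of_nonneg_right (by linarith) hU0
    rw [hε']
    have e0 : 0 ≤ ε' * (U.card : ℝ) := mul_nonneg hε0.le hU0
    linarith

end

end Pool.Agent.V8H36.CV
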