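import Pool.Agent.V8H36.CV.Cross
import Pool.Agent.R318.QL.Cl3

set_option autoImplicit false
set_option linter.all false
set_option maxHeartbeats 4000000

/-!
Central values, part 5: the sum over prime powers at distance `640 log L / L` from the centre and the
sum over primes at the centre.
-/

namespace Pool.Agent.V8H36.CV

open Finset Filter Topology MeasureTheory Pool.Agent.H306R2.RZ Pool.Agent.H306R2.RG
open Pool.Agent.R318.QL
open Pool.Agent.R318.QL.CL (zL wL sL YY zL_facts)
open Pool.Agent.W169.QP (cnt_mono cnt_union markov)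

noncomputable section

/-- the odd primes up to `zL L` -/
def ZS (L : ℝ) : Finset ℕ := (range (zL L + 1)).filter (fun p => p.Prime ∧ p ≠ 2)

/-- the sum over primes at the centre -/
def SS (φ : FD) (L : ℝ) (d : ℕ) : ℝ := ∑ p ∈ ZS L, jo φ d p / Real.sqrt p

lemma ZS_sub : ∀ᶠ L : ℝ in atTop, ZS L ⊆ SP L ∧ ∀ p ∈ SP L, p ∉ ZS L → zL L < p := by
  filter_upwards [Real.tendsto_log_atTop.eventually_ge_atTop 20, eventually_ge_atTop (1 : ℝ)] with L hL h1
  constructor
  · intro p hp
    unfold ZS at hp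
    unfold SP
    rw [Finset.mem_filter, Finset.mem_range] at hp ⊢
    refine ⟨?_, hp.2⟩
    have h2 : zL L ≤ YL L := by
      unfold zL YL
      apply Nat.floor_le_floor
      apply Real.exp_le_exp.2
      exact div_le_div_of_nonneg_left (by linarith) (by norm_num) hL
    omega
  · intro p hp hn
    by_contra h
    apply hn
    unfold SP at hp
    unfold ZS
    rw [Finset.mem_filter, Finset.mem_range] at hp ⊢
    exact ⟨by omega, hp.2⟩

/-- the coefficients of the difference -/
def dc (L : ℝ) (p : ℕ) : ℝ :=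
  1 / Real.sqrt p * ex (xL L / L) p - (if p ∈ ZS L then 1 / Real.sqrt p else 0)

lemma P1_sub : ∀ᶠ L : ℝ in atTop, ∀ (φ : FD) (d : ℕ),
    P1 φ L d (xL L / L) - SS φ L d = ∑ p ∈ SP L, dc L p * jo φ d p := by
  filter_upwards [ZS_sub] with L hL φ d
  obtain ⟨h1, -⟩ := hL
  unfold P1 SS dc
  have e1 : ∑ p ∈ ZS L, jo φ d p / Real.sqrt p = ∑ p ∈ SP L, (if p ∈ ZS L then 1 / Real.sqrt p else 0) * jo φ d p := by
    rw [← Finset.sum_subset h1]
    · refine Finset.sum_congr rfl fun p hp => ?_
      rw [if_pos hp]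
      ring
    · intro p _ hp
      rw [if_neg hp, zero_mul]
  rw [e1, ← Finset.sum_sub_distrib]
  refine Finset.sum_congr rfl fun p _ => ?_
  ring

lemma dc_sum : ∃ C : ℝ, 0 < C ∧ ∀ᶠ L : ℝ in atTop, ∑ p ∈ SP L, dc L p ^ 2 ≤ C ∧ ∀ p ∈ SP L, |dc L p| ≤ L := by
  obtain ⟨C2, hC2, hm⟩ := mert_log2
  refine ⟨(640 ^ 2 * 9 + 1) * C2, by positivity, ?_⟩
  have hv1 : ∀ᶠ L : ℝ in atTop, 640 * Real.log L ≤ L := by
    have := (Real.isLittleO_log_id_atTop.bound (show (0 : ℝ) < 1 / 640 by norm_num))
    filter_upwards [this, eventually_ge_atTop (1 : ℝ)] with L hL hL1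
    have h2 := Real.log_nonneg hL1
    simp only [id] at hL
    rw [Real.norm_of_nonneg h2, Real.norm_of_nonneg (by linarith)] at hL
    linarith
  filter_upwards [ZS_sub, zL_facts, hv1] with L h1 h2 h3
  obtain ⟨-, h1b⟩ := h1
  obtain ⟨hL3, hlog, hz3, hz, hlz1, hlz2⟩ := h2
  have hL0 : 0 < L := by linarith
  set v : ℝ := Real.log L / L with hv
  have hv0 : 0 < v := by positivity
  have hu : xL L / L = 640 * v := by unfold xL; rw [hv]; ring
  have hu1 : 640 * v ≤ 1 := by
    rw [hv, mul_div_assoc', div_le_one hL0]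
    exact h3
  have hpr : ∀ p ∈ SP L, p.Prime := fun p hp => (SP_mem hp).1
  have hsub2 : SP L ⊆ (range (YL L + 1)).filter Nat.Prime := by
    intro p hp
    unfold SP at hp
    rw [Finset.mem_filter] at hp ⊢
    exact ⟨hp.1, hp.2.1⟩
  have hsq : ∀ p ∈ SP L, (0 : ℝ) < p ∧ 1 ≤ Real.sqrt p := by
    intro p hp
    have h1 : (1 : ℝ) ≤ p := by exact_mod_cast (hpr p hp).one_lt.le
    refine ⟨by linarith, ?_⟩
    rw [show (1 : ℝ) = Real.sqrt 1 by rw [Real.sqrt_one]]
    exact Real.sqrt_le_sqrt h1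
  constructor
  · have key : ∀ p ∈ SP L, dc L p ^ 2 ≤ (640 * v) ^ 2 * 9 * (Real.log p ^ 2 / p * ex (2 * v) p) +
        4 * v ^ 2 * (Real.log p ^ 2 / p * ex (2 * (640 * v)) p) := by
      intro p hp
      obtain ⟨q1, q2⟩ := hsq p hp
      have q3 := ex_pos (2 * v) p
      have q4 := ex_pos (2 * (640 * v)) p
      have hlp : 0 ≤ Real.log p := Real.log_natCast_nonneg p
      have t1 : 0 ≤ (640 * v) ^ 2 * 9 * (Real.log p ^ 2 / p * ex (2 * v) p) := by positivity
      have t2 : 0 ≤ 4 * v ^ 2 * (Real.log p ^ 2 / p * ex (2 * (640 * v)) p) := by positivity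
      unfold dc
      rw [hu]
      by_cases hZ : p ∈ ZS L
      · rw [if_pos hZ]
        have hpz : p ≤ zL L := by
          unfold ZS at hZ
          rw [Finset.mem_filter, Finset.mem_range] at hZ
          omega
        have hp0 : 0 < p := (hpr p hp).pos
        have hlpz : v * Real.log p ≤ 1 := by
          have h5 : Real.log p ≤ L / Real.log L :=
            (Real.log_le_log (by exact_mod_cast hp0) (by exact_mod_cast hpz)).trans hlz2
          calc v * Real.log p ≤ v * (L / Real.log L) := mul_le_mul_of_nonneg_left h5 hv0.le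
            _ = 1 := by rw [hv]; field_simp
        -- `1 - ex ≤ u log p`
        have h6 : 0 ≤ 1 - ex (640 * v) p ∧ 1 - ex (640 * v) p ≤ 640 * v * Real.log p := by
          have h7 := ex_le_one (show 0 ≤ 640 * v by positivity) p
          refine ⟨by linarith, ?_⟩
          unfold ex
          have := Real.add_one_le_exp (-(640 * v * Real.log p))
          linarith
        have h8 : Real.exp (-2) ≤ ex (2 * v) p := by
          unfold ex
          apply Real.exp_le_exp.2
          linarith
        have h9 : 1 / 9 ≤ Real.exp (-2) := by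
          rw [Real.exp_neg, one_div, inv_le_inv₀ (by norm_num) (Real.exp_pos _)]
          have h10 := Real.exp_one_lt_d9
          have h11 : Real.exp 2 = Real.exp 1 ^ 2 := by rw [← Real.exp_nat_mul]; norm_num
          rw [h11]
          nlinarith [Real.exp_pos (1 : ℝ)]
        have e1 : (1 / Real.sqrt p * ex (640 * v) p - 1 / Real.sqrt p) ^ 2 =
            (1 - ex (640 * v) p) ^ 2 / p := by
          have : (1 / Real.sqrt p * ex (640 * v) p - 1 / Real.sqrt p) = -((1 - ex (640 * v) p) / Real.sqrt p) := by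
            ring
          rw [this, neg_sq, div_pow, Real.sq_sqrt q1.le]
        rw [e1]
        have h12 : (1 - ex (640 * v) p) ^ 2 ≤ (640 * v * Real.log p) ^ 2 := pow_le_pow_left₀ h6.1 h6.2 2
        have h13 : (1 - ex (640 * v) p) ^ 2 / p ≤ (640 * v * Real.log p) ^ 2 / p :=
          div_le_div_of_nonneg_right h12 q1.le
        have h14 : (640 * v * Real.log p) ^ 2 / p ≤ (640 * v) ^ 2 * 9 * (Real.log p ^ 2 / p * ex (2 * v) p) := by
          have h15 : 1 ≤ 9 * ex (2 * v) p := by linarith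
          have e2 : (640 * v) ^ 2 * 9 * (Real.log p ^ 2 / p * ex (2 * v) p) =
              (640 * v * Real.log p) ^ 2 / p * (9 * ex (2 * v) p) := by ring
          rw [e2]
          exact le_mul_of_one_le_right (by positivity) h15
        linarith
      · rw [if_neg hZ, sub_zero]
        have hpz := h1b p hp hZ
        have h5 : 1 ≤ 2 * v * Real.log p := by
          have h6 : L / (2 * Real.log L) ≤ Real.log p :=
            hlz1.trans (Real.log_le_log (by exact_mod_cast (by omega : 0 < zL L)) (by exact_mod_cast hpz.le))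
          have h7 : 2 * v * (L / (2 * Real.log L)) = 1 := by
            rw [hv]
            field_simp
          rw [← h7]
          exact mul_le_mul_of_nonneg_left h6 (by positivity)
        have e1 : (1 / Real.sqrt p * ex (640 * v) p) ^ 2 = 1 / (p : ℝ) * ex (2 * (640 * v)) p := by
          rw [mul_pow, div_pow, one_pow, Real.sq_sqrt q1.le, two_mul, ex_add, sq (ex (640 * v) p)]
        rw [e1]
        have h8 : 1 ≤ (2 * v * Real.log p) ^ 2 := one_le_pow₀ h5
        have h9 : 1 / (p : ℝ) * ex (2 * (640 * v)) p ≤ 4 * v ^ 2 * (Real.log p ^ 2 / p * ex (2 * (640 * v)) p) := by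
          have e2 : 4 * v ^ 2 * (Real.log p ^ 2 / p * ex (2 * (640 * v)) p) =
              1 / (p : ℝ) * ex (2 * (640 * v)) p * (2 * v * Real.log p) ^ 2 := by ring
          rw [e2]
          exact le_mul_of_one_le_right (by positivity) h8
        linarith
    have s1 : ∑ p ∈ SP L, Real.log p ^ 2 / p * ex (2 * v) p ≤ C2 / v ^ 2 := by
      refine (Finset.sum_le_sum_of_subset_of_nonneg hsub2 fun p _ _ => ?_).trans
        (hm v hv0 (by linarith) (YL L + 1))
      have := ex_pos (2 * v) p
      positivity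
    have s2 : ∑ p ∈ SP L, Real.log p ^ 2 / p * ex (2 * (640 * v)) p ≤ C2 / (640 * v) ^ 2 := by
      refine (Finset.sum_le_sum_of_subset_of_nonneg hsub2 fun p _ _ => ?_).trans
        (hm (640 * v) (by positivity) hu1 (YL L + 1))
      have := ex_pos (2 * (640 * v)) p
      positivity
    calc ∑ p ∈ SP L, dc L p ^ 2 ≤ ∑ p ∈ SP L, ((640 * v) ^ 2 * 9 * (Real.log p ^ 2 / p * ex (2 * v) p) +
        4 * v ^ 2 * (Real.log p ^ 2 / p * ex (2 * (640 * v)) p)) := Finset.sum_le_sum key
      _ = (640 * v) ^ 2 * 9 * ∑ p ∈ SP L, Real.log p ^ 2 / p * ex (2 * v) p +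
          4 * v ^ 2 * ∑ p ∈ SP L, Real.log p ^ 2 / p * ex (2 * (640 * v)) p := by
        rw [Finset.sum_add_distrib, Finset.mul_sum, Finset.mul_sum]
      _ ≤ (640 * v) ^ 2 * 9 * (C2 / v ^ 2) + 4 * v ^ 2 * (C2 / (640 * v) ^ 2) := by gcongr
      _ = (640 ^ 2 * 9 + 4 / 640 ^ 2) * C2 := by field_simp
      _ ≤ _ := by
        apply mul_le_mul_of_nonneg_right _ hC2.le
        norm_num
  · intro p hp
    obtain ⟨q1, q2⟩ := hsq p hp
    have q3 := ex_pos (xL L / L) p
    have q4 := ex_le_one (show 0 ≤ xL L / L by rw [hu]; positivity) p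
    have h5 : 1 / Real.sqrt p ≤ 1 := by
      rw [div_le_one (by linarith)]
      exact q2
    have h6 : 0 ≤ 1 / Real.sqrt p := by positivity
    unfold dc
    rw [abs_le]
    split_ifs
    · constructor <;> nlinarith
    · constructor <;> nlinarith

/-- **the sum over prime powers** at distance `640 log L / L` is `1/2 log L` plus the sum over primes,
up to `O(log log L)`, for most discriminants -/
theorem pf_rel (φ : FD) (hfam : Fam φ) (F : ℝ → ℝ) (hF : TF F) (hF0 : ∀ x, 0 ≤ F x) (ε : ℝ) (hε : 0 < ε) :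
    ∀ᶠ L : ℝ in atTop, cnt F L (SFg φ ∩ {d | ¬ (|PF φ L d (xL L / L) - (1 / 2 * Real.log L + SS φ L d)| ≤
      4 * Real.log (Real.log L))}) ≤ ε := by
  classical
  obtain ⟨Cs, hCs, hsm⟩ := sq_moment φ hfam F hF
  obtain ⟨Cd, hCd, hdc⟩ := dc_sum
  obtain ⟨C0, hC0, hdec⟩ := PF_dec
  obtain ⟨Cl, hCl, hlow⟩ := P2_low
  obtain ⟨CW, hCW, hWD⟩ := WD_avg φ F hF hF0
  have hll : Tendsto (fun L : ℝ => Real.log (Real.log L)) atTop atTop :=
    Real.tendsto_log_atTop.comp Real.tendsto_log_atTop
  have b1 : ∀ᶠ L : ℝ in atTop, Cs * (Cd + 400) ≤ ε / 2 * Real.log (Real.log L) ^ 2 := by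
    have : Tendsto (fun L : ℝ => ε / 2 * Real.log (Real.log L) ^ 2) atTop atTop :=
      ((tendsto_pow_atTop (by norm_num : (2 : ℕ) ≠ 0)).comp hll).const_mul_atTop (by positivity)
    exact this.eventually_ge_atTop _
  have b2 : ∀ᶠ L : ℝ in atTop, CW ≤ ε / 2 * Real.log (Real.log L) :=
    (hll.const_mul_atTop (by positivity)).eventually_ge_atTop _
  have b3 : ∀ᶠ L : ℝ in atTop, C0 + 1 / 2 * Real.log 640 + Cl ≤ Real.log (Real.log L) :=
    hll.eventually_ge_atTop _
  filter_upwards [b1, b2, b3, hdc, P1_sub, xL_facts] with L h1 h2 h3 h4 h5 h6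
  obtain ⟨hL4, hlog, hx, hxL, -⟩ := h6
  obtain ⟨h4a, h4b⟩ := h4
  have hL0 : 0 < L := by linarith
  have hll0 : 0 ≤ Real.log (Real.log L) := Real.log_nonneg hlog
  have hu0 : 0 < xL L / L := by positivity
  have hu1 : xL L / L ≤ 1 / 2 := by rw [div_le_iff₀ hL0]; linarith
  have hllp : 0 < Real.log (Real.log L) := by
    have : 0 < C0 + 1 / 2 * Real.log 640 + Cl := by
      have := Real.log_pos (show (1 : ℝ) < 640 by norm_num)
      positivity
    linarith
  -- mean square of the difference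
  have m1 : EAg φ F (Real.exp L) (fun d => (P1 φ L d (xL L / L) - SS φ L d) ^ 2) ≤ Cs * (Cd + 400) := by
    have e1 : (fun d => (P1 φ L d (xL L / L) - SS φ L d) ^ 2) = fun d => (∑ p ∈ SP L, dc L p * jo φ d p) ^ 2 := by
      funext d
      rw [h5 φ d]
    rw [e1]
    have h7 := hsm L hL0.le (SP L) (dc L) (fun n hn _ => (SP_mem hn).2.1)
    rw [diag_primes (SP L) (fun p hp => (SP_mem hp).1)] at h7
    refine h7.trans ?_
    apply mul_le_mul_of_nonneg_left _ hCs.le
    exact add_le_add h4a (offd (by linarith) (SP L) (Finset.filter_subset _ _) (dc L) h4b)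
  have c1 := markov φ hF hF0 L (Real.log (Real.log L) ^ 2) (fun d => (P1 φ L d (xL L / L) - SS φ L d) ^ 2)
    (fun d => sq_nonneg _) (SFg φ ∩ {d | Real.log (Real.log L) < |P1 φ L d (xL L / L) - SS φ L d|})
    (fun d hd => ⟨hd.1.1, by
      rw [← sq_abs (P1 φ L d (xL L / L) - SS φ L d)]
      exact pow_le_pow_left₀ hll0 (le_of_lt hd.2) 2⟩)
  have c1' : cnt F L (SFg φ ∩ {d | Real.log (Real.log L) < |P1 φ L d (xL L / L) - SS φ L d|}) ≤ ε / 2 := by
    have : Real.log (Real.log L) ^ 2 * cnt F L (SFg φ ∩ {d | Real.log (Real.log L) <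
        |P1 φ L d (xL L / L) - SS φ L d|}) ≤ Real.log (Real.log L) ^ 2 * (ε / 2) := by linarith
    exact le_of_mul_le_mul_left this (by positivity)
  have hWD0 : ∀ d, 0 ≤ WD L d := by
    intro d
    unfold WD
    refine Finset.sum_nonneg fun p _ => ?_
    split_ifs <;> positivity
  have c2 := markov φ hF hF0 L (Real.log (Real.log L)) (fun d => WD L d) hWD0
    (SFg φ ∩ {d | Real.log (Real.log L) < WD L d}) (fun d hd => ⟨hd.1.1, le_of_lt hd.2⟩)
  have c2' : cnt F L (SFg φ ∩ {d | Real.log (Real.log L) < WD L d}) ≤ ε / 2 := by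
    have h7 := hWD L (by linarith)
    have : Real.log (Real.log L) * cnt F L (SFg φ ∩ {d | Real.log (Real.log L) < WD L d}) ≤
        Real.log (Real.log L) * (ε / 2) := by linarith
    exact le_of_mul_le_mul_left this hllp
  refine (cnt_supp hF hF0 L (B := (SFg φ ∩ {d | Real.log (Real.log L) < |P1 φ L d (xL L / L) - SS φ L d|}) ∪
      (SFg φ ∩ {d | Real.log (Real.log L) < WD L d})) ?_).trans ?_
  · intro d hd _
    by_contra hB
    rw [Set.mem_union, not_or] at hB
    obtain ⟨a1, a2⟩ := hB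
    have a3 : |P1 φ L d (xL L / L) - SS φ L d| ≤ Real.log (Real.log L) := by
      by_contra h
      exact a1 ⟨hd.1, not_le.1 h⟩
    have a4 : WD L d ≤ Real.log (Real.log L) := by
      by_contra h
      exact a2 ⟨hd.1, not_le.1 h⟩
    apply hd.2
    have p1 := abs_le.1 (hdec φ L d (xL L / L) hu0.le)
    have p2 := (P2_up φ L d hu0).2
    have p3 := hlow φ hfam L (by linarith) d (xL L / L) (by
      rw [div_le_div_iff_of_pos_right hL0]
      exact hx) hu1
    have p4 := abs_le.1 a3
    have e2 : -Real.log (xL L / L) = Real.log L - Real.log 640 - Real.log (Real.log L) := by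
      rw [Real.log_div (by linarith) hL0.ne']
      unfold xL
      rw [Real.log_mul (by norm_num) (by linarith)]
      ring
    have e3 : Real.log (1 + 1 / (2 * (xL L / L))) ≤ -Real.log (xL L / L) := by
      rw [← Real.log_inv]
      apply Real.log_le_log (by positivity)
      have h8 : 1 ≤ 1 / (2 * (xL L / L)) := by
        rw [le_div_iff₀ (by positivity)]
        linarith
      have h9 : (xL L / L)⁻¹ = 1 / (2 * (xL L / L)) + 1 / (2 * (xL L / L)) := by
        field_simp
        norm_num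
      rw [h9]
      linarith
    rw [e2] at e3 p3
    have hl640 : 0 < Real.log 640 := Real.log_pos (by norm_num)
    show |PF φ L d (xL L / L) - (1 / 2 * Real.log L + SS φ L d)| ≤ 4 * Real.log (Real.log L)
    rw [abs_le]
    constructor
    · linarith [p1.1, p4.1]
    · linarith [p1.2, p4.2]
  · refine (cnt_union hF hF0 L _ _).trans ?_
    linarith

end

end Pool.Agent.V8H36.CV
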